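import Pool.Agent.N110.CC.Str

/-!
# Abelian groups acting on convex cones with exponential growth in all directions

Common eigenvectors with large eigenvalues. The proof is that of helper110
(`Pool.Agent.N110.CC.Act.weight`), for cones in `ℝ ^ m` instead of `ℝ ^ (r + 1)`.
-/

set_option autoImplicit false

namespace Run7.h528.MB

open Pool.Agent.Y167 (cone)
open Pool.Agent.N110.CC (PC S_PF S_CE Frm ev ev_add ev_zero ev_neg ev_nsmul)
open Pool.Agent.N165.KM (exists_pos_functional interior_sub interior_smul_mem)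
open Filter Topology

/-- an abelian group of linear maps which preserves a cone, growing exponentially in all directions -/
structure ActM (r m : ℕ) (C : Set (Fin m → ℝ))
    (G : (Fin r → ℤ) → ((Fin m → ℝ) →ₗ[ℝ] (Fin m → ℝ))) : Prop where
  hm : 0 < m
  pc : PC C
  int : (interior C).Nonempty
  zero : G 0 = 1
  add : ∀ u v, G (u + v) = G u * G v
  pres : ∀ v, ∀ x ∈ C, G v x ∈ C
  growth : ∃ c δ : ℝ, 0 < c ∧ 0 < δ ∧ ∀ v, c * Real.exp (δ * ∑ i, |(v i : ℝ)|) ≤
    ∑ j, ‖G v (Pi.single j 1)‖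

namespace ActM

variable {r m : ℕ} {C : Set (Fin m → ℝ)}
  {G : (Fin r → ℤ) → ((Fin m → ℝ) →ₗ[ℝ] (Fin m → ℝ))}

theorem pow (h : ActM r m C G) (v : Fin r → ℤ) (l : ℕ) : G v ^ l = G (l • v) := by
  induction l with
  | zero => rw [pow_zero, zero_smul, h.zero]
  | succ l ih => rw [pow_succ, ih, ← h.add, succ_nsmul]

theorem inv_apply (h : ActM r m C G) (v : Fin r → ℤ) (x : Fin m → ℝ) :
    G (-v) (G v x) = x := by
  have := h.add (-v) v
  rw [neg_add_cancel, h.zero] at this
  have h2 := LinearMap.congr_fun this x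
  exact h2.symm

theorem unit (h : ActM r m C G) {u : Fin m → ℝ} (hu : u ∈ interior C) (x : Fin m → ℝ) :
    ∃ t : ℝ, 0 ≤ t ∧ t • u - x ∈ C := by
  obtain ⟨t, ht, hx⟩ := interior_sub hu x
  refine ⟨t⁻¹, (inv_pos.2 ht).le, ?_⟩
  have h1 := h.pc.smul t⁻¹ (inv_pos.2 ht).le _ (interior_subset hx)
  rwa [smul_sub, smul_smul, inv_mul_cancel₀ ht.ne', one_smul] at h1

theorem unit_ne (h : ActM r m C G) {u : Fin m → ℝ} (hu : u ∈ interior C) : u ≠ 0 := by
  rintro rfl
  have key : ∀ x : Fin m → ℝ, -x ∈ C := by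
    intro x
    obtain ⟨t, _, hx⟩ := h.unit hu x
    rwa [smul_zero, zero_sub] at hx
  have h1 := h.pc.pointed (Pi.single (⟨0, h.hm⟩ : Fin m) 1) (by
    have := key (-Pi.single (⟨0, h.hm⟩ : Fin m) 1)
    rwa [neg_neg] at this) (key _)
  have h2 := congrFun h1 ⟨0, h.hm⟩
  simp at h2

/-- a common eigenvector with large eigenvalue -/
theorem weight (hPF : S_PF) (hCE : S_CE) (h : ActM r m C G) {c δ : ℝ} (hc : 0 < c) (hδ : 0 < δ)
    (hg : ∀ v, c * Real.exp (δ * ∑ i, |(v i : ℝ)|) ≤ ∑ j, ‖G v (Pi.single j 1)‖)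
    (v : Fin r → ℤ) : ∃ (ℓ : Frm r) (x : Fin m → ℝ), x ∈ C ∧ x ≠ 0 ∧
      (∀ w, G w x = Real.exp (ev ℓ w) • x) ∧ δ * ∑ i, |(v i : ℝ)| ≤ ev ℓ v := by
  classical
  obtain ⟨u, hu⟩ := h.int
  have huC := interior_subset hu
  obtain ⟨x0, hx0, hx00, μ, hμ0, hμ, hgr⟩ := hPF m C h.pc u huC (h.unit_ne hu)
    (fun x _ => h.unit hu x) (G v) (h.pres v)
  obtain ⟨s, hs⟩ : ∃ s : ℝ, s = ∑ i, |(v i : ℝ)| := ⟨_, rfl⟩
  have hs0 : 0 ≤ s := by rw [hs]; exact Finset.sum_nonneg fun _ _ => abs_nonneg _
  have hμs : Real.exp (δ * s) ≤ μ := by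
    by_contra hcon
    push Not at hcon
    obtain ⟨κ, hκ⟩ : ∃ κ : ℝ, κ = (μ + Real.exp (δ * s)) / 2 := ⟨_, rfl⟩
    have hκ1 : μ < κ := by rw [hκ]; linarith
    have hκ2 : κ < Real.exp (δ * s) := by rw [hκ]; linarith
    have hκ0 : 0 < κ := by linarith
    obtain ⟨B, hB⟩ := hgr κ hκ1
    obtain ⟨f, c1, hc1, hf⟩ := exists_pos_functional h.pc.closed h.pc.add h.pc.smul h.pc.pointed
    have hfn : ∀ x ∈ C, 0 ≤ f x := fun x hx => (mul_nonneg hc1.le (norm_nonneg x)).trans (hf x hx)
    choose t ht0 ht using fun x => h.unit hu x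
    obtain ⟨T, hT⟩ : ∃ T : Fin m → ℝ, ∀ j, T j = max (t (Pi.single j 1)) (t (-Pi.single j 1)) :=
      ⟨_, fun _ => rfl⟩
    have hT1 : ∀ j, T j • u - Pi.single j 1 ∈ C := by
      intro j
      have h1 : T j • u - (Pi.single j 1 : Fin m → ℝ) =
          (t (Pi.single j 1) • u - Pi.single j 1) + (T j - t (Pi.single j 1)) • u := by
        rw [sub_smul]; abel
      rw [h1]
      exact h.pc.add _ (ht _) _ (h.pc.smul _ (by rw [hT, sub_nonneg]; exact le_max_left _ _) _ huC)
    have hT2 : ∀ j, T j • u + Pi.single j 1 ∈ C := by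
      intro j
      have h1 : T j • u + (Pi.single j 1 : Fin m → ℝ) =
          (t (-Pi.single j 1) • u - -Pi.single j 1) + (T j - t (-Pi.single j 1)) • u := by
        rw [sub_smul]; abel
      rw [h1]
      exact h.pc.add _ (ht _) _ (h.pc.smul _ (by rw [hT, sub_nonneg]; exact le_max_right _ _) _ huC)
    have hbd : ∀ (l : ℕ) (j : Fin m), ‖G (l • v) (Pi.single j 1)‖ ≤
        T j * (B * κ ^ l * f u) / c1 := by
      intro l j
      have a1 := h.pres (l • v) _ (hT1 j)
      have a2 := h.pres (l • v) _ (hT2 j)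
      obtain ⟨a, ha⟩ : ∃ a, a = G (l • v) (T j • u - Pi.single j 1) := ⟨_, rfl⟩
      obtain ⟨b, hb⟩ : ∃ b, b = G (l • v) (T j • u + Pi.single j 1) := ⟨_, rfl⟩
      rw [← ha] at a1
      rw [← hb] at a2
      have e1 : G (l • v) (Pi.single j 1) = (1 / 2 : ℝ) • (b - a) := by
        rw [ha, hb, map_sub, map_add, add_sub_sub_cancel, ← two_smul ℝ, smul_smul]
        norm_num
      have e2 : f a + f b = 2 * (T j * f (G (l • v) u)) := by
        rw [ha, hb]
        simp only [map_sub, map_add, map_smul, smul_eq_mul]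
        ring
      have e3 : f (G (l • v) u) ≤ B * κ ^ l * f u := by
        have h1 := hfn _ (hB l)
        rw [h.pow, map_sub, map_smul, smul_eq_mul] at h1
        linarith
      have hT0 : 0 ≤ T j := by rw [hT]; exact (ht0 _).trans (le_max_left _ _)
      have e4 := hf a a1
      have e5 := hf b a2
      have e6 : ‖G (l • v) (Pi.single j 1)‖ ≤ 1 / 2 * (‖a‖ + ‖b‖) := by
        rw [e1, norm_smul, Real.norm_eq_abs, abs_of_pos (by norm_num : (0 : ℝ) < 1 / 2)]
        have := norm_sub_le b a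
        linarith
      rw [le_div_iff₀ hc1]
      have e7 := mul_le_mul_of_nonneg_left e3 hT0
      have e8 := mul_le_mul_of_nonneg_right e6 hc1.le
      nlinarith
    obtain ⟨A, hA⟩ : ∃ A : ℝ, A = ∑ j, T j * (B * f u) / c1 := ⟨_, rfl⟩
    have hall : ∀ l : ℕ, c * Real.exp (δ * s) ^ l ≤ A * κ ^ l := by
      intro l
      have h1 := hg (l • v)
      have h2 : ∑ i, |(((l • v) i : ℤ) : ℝ)| = l * s := by
        rw [hs, Finset.mul_sum]
        refine Finset.sum_congr rfl fun i _ => ?_
        rw [Pi.smul_apply, nsmul_eq_mul]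
        push_cast
        rw [abs_mul, Nat.abs_cast]
      rw [h2] at h1
      have h3 : Real.exp (δ * (l * s)) = Real.exp (δ * s) ^ l := by
        rw [← Real.exp_nat_mul]
        congr 1
        ring
      rw [h3] at h1
      refine h1.trans ((Finset.sum_le_sum fun j _ => hbd l j).trans (le_of_eq ?_))
      rw [hA, Finset.sum_mul]
      refine Finset.sum_congr rfl fun j _ => ?_
      ring
    obtain ⟨θ, hθ⟩ : ∃ θ : ℝ, θ = Real.exp (δ * s) / κ := ⟨_, rfl⟩
    have hθ1 : 1 < θ := by rw [hθ, one_lt_div hκ0]; exact hκ2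
    obtain ⟨l, hl⟩ := pow_unbounded_of_one_lt (A / c) hθ1
    have h1 := hall l
    rw [hθ, div_pow, div_lt_div_iff₀ hc (by positivity)] at hl
    linarith
  -- the cone of the eigenvectors
  obtain ⟨x, ⟨hxC, hxv⟩, hx0', hχ⟩ := hCE m r (C ∩ {x | G v x = μ • x})
    ⟨h.pc.closed.inter (isClosed_eq (LinearMap.continuous_of_finiteDimensional _)
      (continuous_const_smul μ)), fun x hx y hy => ⟨h.pc.add x hx.1 y hy.1, by
        show G v (x + y) = μ • (x + y)
        rw [map_add, show G v x = μ • x from hx.2, show G v y = μ • y from hy.2, smul_add]⟩,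
      fun t ht x hx => ⟨h.pc.smul t ht x hx.1, by
        show G v (t • x) = μ • (t • x)
        rw [map_smul, show G v x = μ • x from hx.2, smul_comm]⟩,
      fun x hx hx' => h.pc.pointed x hx.1 hx'.1⟩ ⟨x0, ⟨hx0, hμ⟩, hx00⟩
    (fun i => G (Pi.single i 1)) (fun i j => by
      rw [← h.add, ← h.add, add_comm (Pi.single i 1 : Fin r → ℤ)])
    (fun i x hx => ⟨h.pres _ x hx.1, by
      show G v (G (Pi.single i 1) x) = μ • G (Pi.single i 1) x
      have h1 : G v * G (Pi.single i 1) = G (Pi.single i 1) * G v := by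
        rw [← h.add, ← h.add, add_comm v]
      have h2 := LinearMap.congr_fun h1 x
      have h3 : G v (G (Pi.single i 1) x) = G (Pi.single i 1) (G v x) := h2
      rw [h3, show G v x = μ • x from hx.2, map_smul]⟩)
  choose χ hχ using hχ
  have hxv : G v x = μ • x := hxv
  have hpos : ∀ i, 0 < χ i := by
    intro i
    rcases lt_trichotomy (χ i) 0 with h1 | h1 | h1
    · exfalso
      apply hx0'
      refine h.pc.pointed x hxC ?_
      have h2 := h.pres (Pi.single i 1) x hxC
      rw [hχ i] at h2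
      have h3 := h.pc.smul (-(χ i))⁻¹ (inv_nonneg.2 (by linarith)) _ h2
      rw [smul_smul] at h3
      have h4 : (-(χ i))⁻¹ * χ i = -1 := by
        rw [inv_neg, neg_mul, inv_mul_cancel₀ h1.ne]
      rwa [h4, neg_one_smul] at h3
    · exfalso
      apply hx0'
      have h2 := h.inv_apply (Pi.single i 1) x
      rw [hχ i, h1, zero_smul, map_zero] at h2
      exact h2.symm
    · exact h1
  obtain ⟨ℓ, hℓ⟩ : ∃ ℓ : Frm r, ℓ = ∑ i, Real.log (χ i) • LinearMap.proj i := ⟨_, rfl⟩
  have hev : ∀ i, ev ℓ (Pi.single i 1) = Real.log (χ i) := by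
    intro i
    unfold ev
    rw [hℓ, LinearMap.sum_apply, Finset.sum_eq_single i]
    · simp
    · intro j _ hj
      simp [hj]
    · intro hi
      exact absurd (Finset.mem_univ i) hi
  have hall : ∀ w, G w x = Real.exp (ev ℓ w) • x := by
    let S : AddSubgroup (Fin r → ℤ) :=
      { carrier := {w | G w x = Real.exp (ev ℓ w) • x}
        add_mem' := by
          intro a b ha hb
          show G (a + b) x = Real.exp (ev ℓ (a + b)) • x
          have h1 : G (a + b) x = G a (G b x) := by rw [h.add]; rfl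
          rw [h1, show G b x = _ from hb, map_smul, show G a x = _ from ha, smul_smul,
            ← Real.exp_add, ev_add, add_comm (ev ℓ a)]
        zero_mem' := by
          show G 0 x = Real.exp (ev ℓ 0) • x
          rw [h.zero, ev_zero, Real.exp_zero, one_smul]
          rfl
        neg_mem' := by
          intro a ha
          show G (-a) x = Real.exp (ev ℓ (-a)) • x
          have h1 := h.inv_apply a x
          rw [show G a x = _ from ha, map_smul] at h1
          have h2 : G (-a) x = (Real.exp (ev ℓ a))⁻¹ • (Real.exp (ev ℓ a) • G (-a) x) := by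
            rw [smul_smul, inv_mul_cancel₀ (Real.exp_pos _).ne', one_smul]
          rw [h2, h1, ev_neg, Real.exp_neg] }
    intro w
    have hw : w = ∑ i, w i • (Pi.single i 1 : Fin r → ℤ) := by
      funext j
      rw [Finset.sum_apply, Finset.sum_eq_single j]
      · simp
      · intro i _ hi
        simp [Ne.symm hi]
      · intro hi
        exact absurd (Finset.mem_univ j) hi
    have h1 : w ∈ S := by
      rw [hw]
      refine S.sum_mem fun i _ => S.zsmul_mem ?_ _
      show G (Pi.single i 1) x = Real.exp (ev ℓ (Pi.single i 1)) • x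
      rw [hev, Real.exp_log (hpos i), hχ i]
    exact h1
  refine ⟨ℓ, x, hxC, hx0', hall, ?_⟩
  have h1 := hall v
  rw [hxv] at h1
  have h2 : μ = Real.exp (ev ℓ v) := by
    have h3 : (μ - Real.exp (ev ℓ v)) • x = 0 := by rw [sub_smul, h1, sub_self]
    rcases smul_eq_zero.1 h3 with h4 | h4
    · linarith
    · exact absurd h4 hx0'
  rw [h2, Real.exp_le_exp] at hμs
  rwa [hs] at hμs

end ActM

end Run7.h528.MB
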