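import Pool.Agent.Run7.h528.MB.Cover
import Pool.Agent.N110.CC.W4

/-!
# The cones in a subspace of `N¹(X)` with an abelian group of rank `m - k` and `k` invariant blocks

Parts of the proof are those of helper110 and helper340 for groups of rank `m - 1`
(`Pool.Agent.N110.CC.mainW`).
-/

set_option autoImplicit false
set_option linter.unusedSectionVars false

open FF Pool.Agent.W602.GT Pool.Agent.Y172 Pool.Agent.R887
open Pool.Agent.Y167 (cone cone_image cone_ind zero_mem_cone mem_cone_self cone_add cone_smul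
  cone_mono)
open Pool.Agent.N110 Pool.Agent.N110.PA Pool.Agent.N110.NV Pool.Agent.N492.PA Pool.Agent.N110.CC
open Pool.Agent.N165.KM (interior_add_mem interior_smul_mem interior_sub exists_pos_functional HasFD
  Sandwich IntL)
open Filter Topology

namespace Run7.h528.MB

section

variable {K : Type} [Field K] [Algebra ℂ K] {N n r k m ρ : ℕ} {y : Fin (N + 1) → K}
  {c : Place ℂ K → Fin ρ → ℤ} {𝒮 : Subgroup (K ≃ₐ[ℂ] K)}

/-- real classes of effective divisors in a rational subspace are approximated by rational ones -/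
theorem eff_approxM {s : Fin m → Fin ρ → ℤ} {t : Fin m → ℝ}
    (ht : comb s t ∈ effCone y c) {ε₀ : ℝ} (hε₀ : 0 < ε₀) : ∃ t' : Fin m → ℚ,
      (∀ j, |((t' j : ℚ) : ℝ) - t j| < ε₀) ∧
      comb s (fun j => (t' j : ℝ)) ∈ effCone y c ∧ ∃ ε : ℝ, 0 < ε ∧
      comb s (t - ε • fun j => (t' j : ℝ)) ∈ effCone y c := by
  classical
  obtain ⟨S, hS, a, ha, hsum⟩ := ht
  have hP : ∀ z : S, ∃ P : Place ℂ K, IsPrimeDivisor y P ∧ (z : Fin ρ → ℝ) = rcl c P :=
    fun z => hS z.2
  choose P hP using hP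
  -- the family of real numbers
  obtain ⟨A, hA⟩ : ∃ A : S ⊕ Fin m → ℝ, A = Sum.elim (fun z : S => a z) t := ⟨_, rfl⟩
  obtain ⟨η, hη0, hη1, hη2⟩ : ∃ η : ℝ, 0 < η ∧ η ≤ ε₀ ∧ ∀ z : S, a z ≠ 0 → η ≤ a z := by
    obtain ⟨F, hF⟩ : ∃ F : Finset ℝ, F = insert ε₀ ((Finset.univ.filter fun z : S =>
      a z ≠ 0).image fun z : S => a z) := ⟨_, rfl⟩
    have hne : F.Nonempty := by rw [hF]; exact Finset.insert_nonempty _ _
    refine ⟨F.min' hne, ?_, ?_, fun z hz => ?_⟩
    · rw [Finset.lt_min'_iff]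
      intro b hb
      rw [hF, Finset.mem_insert, Finset.mem_image] at hb
      rcases hb with rfl | ⟨z, hz, rfl⟩
      · exact hε₀
      · exact lt_of_le_of_ne (ha z) (Ne.symm (Finset.mem_filter.1 hz).2)
    · exact Finset.min'_le _ _ (by rw [hF]; exact Finset.mem_insert_self _ _)
    · refine Finset.min'_le _ _ ?_
      rw [hF, Finset.mem_insert, Finset.mem_image]
      exact Or.inr ⟨z, Finset.mem_filter.2 ⟨Finset.mem_univ _, hz⟩, rfl⟩
  obtain ⟨A', hrel, hclose⟩ := exists_lin A (half_pos hη0)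
  have hz0 : ∀ z : S, a z = 0 → A' (Sum.inl z) = 0 := by
    intro z hz
    have h1 := hrel (Pi.single (Sum.inl z) 1) (by
      rw [Finset.sum_eq_single (Sum.inl z)]
      · rw [hA, Pi.single_eq_same]
        simp [hz]
      · intro k _ hk
        rw [Pi.single_eq_of_ne hk]
        simp
      · intro h
        exact absurd (Finset.mem_univ _) h)
    rw [Finset.sum_eq_single (Sum.inl z)] at h1
    · rwa [Pi.single_eq_same, one_mul] at h1
    · intro k _ hk
      rw [Pi.single_eq_of_ne hk, zero_mul]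
    · intro h
      exact absurd (Finset.mem_univ _) h
  have hA'nn : ∀ z : S, 0 ≤ ((A' (Sum.inl z) : ℚ) : ℝ) := by
    intro z
    by_cases h0 : a z = 0
    · rw [hz0 z h0]
      simp
    · have h1 := hclose (Sum.inl z)
      rw [hA] at h1
      have h2 := hη2 z h0
      have h3 : |((A' (Sum.inl z) : ℚ) : ℝ) - a z| < η / 2 := h1
      rw [abs_lt] at h3
      linarith
  -- the relation
  have hrel' : ∀ i, ∑ z : S, A' (Sum.inl z) * (c (P z) i : ℚ) =
      ∑ j, A' (Sum.inr j) * (s j i : ℚ) := by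
    intro i
    have h1 := hrel (Sum.elim (fun z => (c (P z) i : ℚ)) fun j => -(s j i : ℚ)) (by
      rw [Fintype.sum_sum_type, hA]
      simp only [Sum.elim_inl, Sum.elim_inr]
      have h2 := congrFun hsum i
      rw [← Finset.sum_coe_sort S] at h2
      unfold comb at h2
      rw [Finset.sum_apply, Finset.sum_apply] at h2
      have h3 : ∑ z : S, (((c (P z) i : ℤ) : ℚ) : ℝ) * a z = ∑ z : S, (a z • (z : Fin ρ → ℝ)) i := by
        refine Finset.sum_congr rfl fun z _ => ?_
        have h4 : (z : Fin ρ → ℝ) i = (c (P z) i : ℝ) := congrFun (hP z).2 i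
        rw [Pi.smul_apply, smul_eq_mul, h4]
        push_cast
        ring
      rw [h3, ← h2, ← Finset.sum_add_distrib]
      refine Finset.sum_eq_zero fun j _ => ?_
      rw [Pi.smul_apply, smul_eq_mul]
      push_cast
      ring)
    rw [Fintype.sum_sum_type] at h1
    simp only [Sum.elim_inl, Sum.elim_inr] at h1
    have h2 : ∑ z : S, (c (P z) i : ℚ) * A' (Sum.inl z) = ∑ z : S, A' (Sum.inl z) * (c (P z) i : ℚ) :=
      Finset.sum_congr rfl fun z _ => mul_comm _ _
    have h3 : ∑ j, -(s j i : ℚ) * A' (Sum.inr j) = -∑ j, A' (Sum.inr j) * (s j i : ℚ) := by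
      rw [← Finset.sum_neg_distrib]
      exact Finset.sum_congr rfl fun j _ => by ring
    rw [h2, h3] at h1
    linarith
  have hcomb' : ∀ b : ℝ, comb s (t - b • fun j => ((A' (Sum.inr j) : ℚ) : ℝ)) =
      ∑ z : S, (a z - b * ((A' (Sum.inl z) : ℚ) : ℝ)) • rcl c (P z) := by
    intro b
    have h1 : comb s (t - b • fun j => ((A' (Sum.inr j) : ℚ) : ℝ)) = comb s t -
        b • comb s (fun j => ((A' (Sum.inr j) : ℚ) : ℝ)) := by
      unfold comb
      rw [Finset.smul_sum, ← Finset.sum_sub_distrib]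
      refine Finset.sum_congr rfl fun j _ => ?_
      rw [Pi.sub_apply, Pi.smul_apply, smul_eq_mul, sub_smul, mul_smul]
    have h2 : comb s (fun j => ((A' (Sum.inr j) : ℚ) : ℝ)) =
        ∑ z : S, ((A' (Sum.inl z) : ℚ) : ℝ) • rcl c (P z) := by
      funext i
      have h3 := congrArg (fun q : ℚ => (q : ℝ)) (hrel' i)
      push_cast at h3
      unfold comb rcl
      rw [Finset.sum_apply, Finset.sum_apply]
      simp only [Pi.smul_apply, smul_eq_mul]
      exact h3.symm
    rw [h1, h2, hsum, ← Finset.sum_coe_sort S, Finset.smul_sum, ← Finset.sum_sub_distrib]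
    refine Finset.sum_congr rfl fun z _ => ?_
    have h4 : a z • (z : Fin ρ → ℝ) = a z • rcl c (P z) := congrArg (fun w => a z • w) (hP z).2
    rw [sub_smul, mul_smul, h4]
  have hmem : ∀ w : S → ℝ, (∀ z, 0 ≤ w z) → ∑ z : S, w z • rcl c (P z) ∈ effCone y c := by
    intro w hw
    refine Finset.sum_induction (fun z : S => w z • rcl c (P z)) (fun x => x ∈ effCone y c)
      (fun _ _ h1 h2 => coneOf_add h1 h2) (coneOf_zero _) fun z _ => ?_
    have h1 : rcl c (P z) ∈ effCone y c := coneOf_self ⟨P z, (hP z).1, rfl⟩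
    exact coneOf_smul h1 (hw z)
  obtain ⟨B, hB⟩ : ∃ B : ℝ, ∀ z : S, ((A' (Sum.inl z) : ℚ) : ℝ) ≤ B := by
    obtain ⟨B, hB⟩ := (Set.finite_range fun z : S => ((A' (Sum.inl z) : ℚ) : ℝ)).bddAbove
    exact ⟨B, fun z => hB ⟨z, rfl⟩⟩
  refine ⟨fun j => A' (Sum.inr j), fun j => ?_, ?_, η / (|B| + 1), by positivity, ?_⟩
  · have h1 := hclose (Sum.inr j)
    rw [hA] at h1
    have h3 : |((A' (Sum.inr j) : ℚ) : ℝ) - t j| < η / 2 := h1
    linarith
  · have h1 := hcomb' 0
    have h2 : comb s (fun j => ((A' (Sum.inr j) : ℚ) : ℝ)) =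
        ∑ z : S, ((A' (Sum.inl z) : ℚ) : ℝ) • rcl c (P z) := by
      funext i
      have h3 := congrArg (fun q : ℚ => (q : ℝ)) (hrel' i)
      push_cast at h3
      unfold comb rcl
      rw [Finset.sum_apply, Finset.sum_apply]
      simp only [Pi.smul_apply, smul_eq_mul]
      exact h3.symm
    rw [h2]
    exact hmem _ hA'nn
  · rw [hcomb']
    refine hmem _ fun z => ?_
    by_cases h0 : a z = 0
    · rw [hz0 z h0, h0]
      simp
    · have h1 := hη2 z h0
      have h2 := hB z
      have h3 : η / (|B| + 1) * ((A' (Sum.inl z) : ℚ) : ℝ) ≤ η := by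
        rw [div_mul_eq_mul_div, div_le_iff₀ (by positivity)]
        have h4 := le_abs_self B
        nlinarith
      linarith

end

end Run7.h528.MB
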