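import Pool.Agent.Run7.h528.MB.NoFlip

/-!
# Big divisors on images of varieties with invariant blocks
-/

set_option autoImplicit false
set_option linter.unusedSectionVars false
set_option linter.overlappingInstances false

open FF Pool.Agent.W602.GT Pool.Agent.Y172 Pool.Agent.R887
open Pool.Agent.N110 Pool.Agent.N110.CC
open Pool.Agent.N110.DV (NefD)

namespace Run7.h528.MB

section

variable {K : Type} [Field K] [Algebra ℂ K] {N n : ℕ} {y : Fin (N + 1) → K}

/-- Big divisors are ample if all pseudo-effective divisors are nef. -/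
theorem ample_of_big (hy : NormalModel y)
    (hnef : ∀ L : Place ℂ K → ℤ, IsDiv y L → IsQCartier y n L → PsefD y (fun P => (L P : ℚ)) →
      NefD y n (fun P => (L P : ℚ)))
    {D : Place ℂ K → ℤ} (hD : IsDiv y D) (hC : IsQCartier y n D)
    (hb : BigD y (fun P => (D P : ℚ))) : IsAmple y n D := by
  intro i hi
  obtain ⟨m, hm, f, hf0, hf⟩ := hb i hi
  obtain ⟨H, hHd, hH0, hH⟩ := exists_hypZ hy hi
  have hE : IsDiv y (fun P => (m : ℤ) * D P + (-1 : ℤ) * H P) := div_add hD hHd _ _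
  have hEC : IsQCartier y n (fun P => (m : ℤ) * D P + (-1 : ℤ) * H P) := by
    obtain ⟨M, hM, hg⟩ := hC
    refine ⟨M, hM, fun R hR => ?_⟩
    obtain ⟨g, hg0, hg⟩ := hg R hR
    obtain ⟨h, hh0, -, hh⟩ := hyp_gen hy hi hH R
    refine ⟨g ^ m / h ^ M, div_ne_zero (pow_ne_zero _ hg0) (pow_ne_zero _ hh0),
      fun P hP hPR => ?_⟩
    have h1 := hg P hP hPR
    have h2 := hh P hP hPR
    rw [P.ord_div (pow_ne_zero _ hg0) (pow_ne_zero _ hh0), P.ord_pow, P.ord_pow]
    have h3 : P.ord g = -(M * D P) := by linarith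
    have h4 : P.ord h = -(H P) := by linarith
    rw [h3, h4]
    ring
  have hEps : PsefD y (fun P => (((m : ℤ) * D P + (-1 : ℤ) * H P : ℤ) : ℚ)) := by
    intro i' hi' q _
    refine ⟨1, le_rfl, f ^ q, pow_ne_zero _ hf0, fun P l hP hl => ?_⟩
    have h1 : P.ord (y i / y l) ≤ P.ord f + m * D P := by
      have h5 := hf P l hP hl
      beta_reduce at h5
      exact_mod_cast h5
    have h2 := hH P l hP hl
    have h3 := (P.reg_iff (div_ne_zero hi' hl.1)).1 (hl.2 i')
    have h4 : 0 ≤ P.ord (f ^ q) + ((1 : ℕ) : ℤ) * ((q : ℤ) * ((m : ℤ) * D P + (-1 : ℤ) * H P) +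
        P.ord (y i' / y l)) := by
      rw [P.ord_pow, h2]
      have h5 : (0 : ℤ) ≤ q := Nat.cast_nonneg _
      have h6 : 0 ≤ P.ord f + m * D P - P.ord (y i / y l) := by linarith
      have h7 := mul_nonneg h5 h6
      push_cast
      linarith
    show (0 : ℚ) ≤ ((P.ord (f ^ q) : ℤ) : ℚ) + ((1 : ℕ) : ℚ) *
      ((q : ℚ) * (((m : ℤ) * D P + (-1 : ℤ) * H P : ℤ) : ℚ) + P.ord (y i' / y l))
    exact_mod_cast h4
  obtain ⟨m', hm', h2⟩ := hnef _ hE hEC hEps i hi 2 (by norm_num)
  refine ⟨2 * m' * m, Nat.one_le_iff_ne_zero.2 (by positivity), m', hm', fun R hR => ?_⟩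
  obtain ⟨g, hg0, hg1, hg2⟩ := h2 R hR
  refine ⟨g, hg0, fun P l hP hl => ?_, fun P l hP hPR hl => ?_⟩
  · have h3 := hg1 P l hP hl
    have h4 := hH P l hP hl
    have h5 : -((m' : ℤ) * 2 * ((m : ℤ) * D P + (-1 : ℤ) * H P)) - m' * P.ord (y i / y l) ≤
        P.ord g := by
      beta_reduce at h3
      exact_mod_cast h3
    rw [h4] at h5
    push_cast
    linarith
  · have h3 := hg2 P l hP hPR hl
    have h4 := hH P l hP hl
    have h5 : P.ord g =
        -((m' : ℤ) * 2 * ((m : ℤ) * D P + (-1 : ℤ) * H P)) - m' * P.ord (y i / y l) := by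
      beta_reduce at h3
      exact_mod_cast h3
    rw [h4] at h5
    push_cast
    linarith

end

end Run7.h528.MB
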