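import Pool.Agent.N769.CC.LIN
import Pool.Agent.N110.CC.Main

/-!
# Linear forms in blocks

Finitely many linear forms on `ℝ ^ r` whose maximum grows linearly in all directions, in `k` blocks
with at most `d i` elements, the sum of the forms of a block with `d i` elements being zero. If
`∑ (d i - 1) = r` then all blocks have `d i` elements, the blocks are disjoint and the sums of the
blocks are the only relations.
-/

set_option autoImplicit false

namespace Run7.h528.MB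

open Pool.Agent.N110.CC (Frm ev ev_add ev_zero ev_neg ev_nsmul)
open Pool.Agent.N769.CC (step1 sum_zero bd bd_nonneg diff_le flr)

variable {r k : ℕ}

/-- the weights in blocks -/
structure Blk (W : Finset (Frm r)) (A : Fin k → Finset (Frm r)) (d : Fin k → ℕ) : Prop where
  sub : ∀ i, A i ⊆ W
  ex : ∀ ℓ ∈ W, ∃ i, ℓ ∈ A i
  card : ∀ i, (A i).card ≤ d i
  two : ∀ i, 2 ≤ d i
  sum : ∀ i, (A i).card = d i → ∑ ℓ ∈ A i, ℓ = 0
  dim : ∑ i, d i = r + k
  grow : ∃ δ : ℝ, 0 < δ ∧ ∀ v : Fin r → ℤ, ∃ ℓ ∈ W, δ * ∑ i, |(v i : ℝ)| ≤ ev ℓ v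

namespace Blk

variable {W : Finset (Frm r)} {A : Fin k → Finset (Frm r)} {d : Fin k → ℕ}

theorem key (h : Blk W A d) : (∀ i, (A i).card = d i) ∧
    ∀ x : Fin k → Frm r → ℝ, (∀ i, ∑ ℓ ∈ A i, x i ℓ = 0) →
      ∃ v : Fin r → ℝ, ∀ i, ∀ ℓ ∈ A i, ℓ v = x i ℓ := by
  classical
  obtain ⟨δ, hδ, hg⟩ := h.grow
  have s1 := step1 W δ hδ hg
  -- the map
  obtain ⟨Φ, hΦ⟩ : ∃ Φ : (Fin r → ℝ) →ₗ[ℝ] ((Σ i, {ℓ // ℓ ∈ A i}) → ℝ),
      ∀ v p, Φ v p = (p.2 : Frm r) v :=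
    ⟨LinearMap.pi fun p => (p.2 : Frm r), fun _ _ => rfl⟩
  have hinj : Function.Injective Φ := by
    rw [injective_iff_map_eq_zero]
    intro v hv
    obtain ⟨ℓ, hℓ, h1⟩ := s1 v
    obtain ⟨i, hi⟩ := h.ex ℓ hℓ
    have h2 : ℓ v = 0 := by
      have h3 := hΦ v ⟨i, ⟨ℓ, hi⟩⟩
      rw [hv] at h3
      exact h3.symm
    apply sum_zero
    rw [h2] at h1
    by_contra hcon
    push Not at hcon
    exact absurd h1 (not_le.2 (mul_pos hδ hcon))
  obtain ⟨Ψ, hΨ⟩ : ∃ Ψ : ((Σ i, {ℓ // ℓ ∈ A i}) → ℝ) →ₗ[ℝ] ({i // (A i).card = d i} → ℝ),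
      ∀ x i, Ψ x i = ∑ ℓ : {ℓ // ℓ ∈ A i.1}, x ⟨i.1, ℓ⟩ :=
    ⟨LinearMap.pi fun i => ∑ ℓ : {ℓ // ℓ ∈ A i.1}, LinearMap.proj (⟨i.1, ℓ⟩ :
      Σ i, {ℓ // ℓ ∈ A i}), fun x i => by
        rw [LinearMap.pi_apply, LinearMap.sum_apply]
        rfl⟩
  have hsurj : Function.Surjective Ψ := by
    intro t
    refine ⟨fun p => if hp : (A p.1).card = d p.1 then t ⟨p.1, hp⟩ / d p.1 else 0, ?_⟩
    funext i
    rw [hΨ]
    have h1 : ∀ ℓ : {ℓ // ℓ ∈ A i.1}, (fun p : (Σ i, {ℓ // ℓ ∈ A i}) =>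
        if hp : (A p.1).card = d p.1 then t ⟨p.1, hp⟩ / d p.1 else 0) ⟨i.1, ℓ⟩ = t i / d i.1 :=
      fun ℓ => dif_pos i.2
    rw [Finset.sum_congr rfl fun ℓ _ => h1 ℓ, Finset.sum_const, Finset.card_univ, Fintype.card_coe,
      i.2, nsmul_eq_mul]
    have h2 : (d i.1 : ℝ) ≠ 0 := by
      have := h.two i.1
      positivity
    field_simp
  have hsumI : Module.finrank ℝ ((Σ i, {ℓ // ℓ ∈ A i}) → ℝ) = ∑ i, (A i).card := by
    rw [Module.finrank_fintype_fun_eq_card, Fintype.card_sigma]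
    exact Finset.sum_congr rfl fun i _ => Fintype.card_coe _
  have hker : Module.finrank ℝ (LinearMap.ker Ψ) + Fintype.card {i // (A i).card = d i} =
      ∑ i, (A i).card := by
    have h1 := LinearMap.finrank_range_add_finrank_ker Ψ
    rw [LinearMap.range_eq_top.2 hsurj, finrank_top, Module.finrank_fintype_fun_eq_card,
      hsumI] at h1
    omega
  have hmem : ∀ v, Φ v ∈ LinearMap.ker Ψ := by
    intro v
    rw [LinearMap.mem_ker]
    funext i
    rw [hΨ]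
    have h1 := h.sum i.1 i.2
    have h2 := LinearMap.congr_fun h1 v
    rw [LinearMap.sum_apply, LinearMap.zero_apply] at h2
    rw [Pi.zero_apply, ← h2, ← Finset.sum_coe_sort (A i.1)]
    exact Finset.sum_congr rfl fun ℓ _ => hΦ v _
  obtain ⟨Φ', hΦ'⟩ : ∃ Φ' : (Fin r → ℝ) →ₗ[ℝ] LinearMap.ker Ψ, ∀ v, (Φ' v : (Σ i, {ℓ // ℓ ∈ A i}) → ℝ) = Φ v :=
    ⟨Φ.codRestrict _ hmem, fun _ => rfl⟩
  have hinj' : Function.Injective Φ' := by
    intro u v huv
    apply hinj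
    rw [← hΦ', ← hΦ', huv]
  have hr1 : r ≤ Module.finrank ℝ (LinearMap.ker Ψ) := by
    have h1 := LinearMap.finrank_le_finrank_of_injective hinj'
    rwa [Module.finrank_fin_fun] at h1
  -- counting
  have hcnt : ∀ i, (A i).card + (if (A i).card = d i then 0 else 1) ≤ d i := by
    intro i
    have h1 := h.card i
    split_ifs with h2
    · omega
    · omega
  have hP : Fintype.card {i // (A i).card = d i} + ∑ i, (if (A i).card = d i then 0 else 1) = k := by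
    have h1 : ∑ i : Fin k, (if (A i).card = d i then 0 else 1) =
        (Finset.univ.filter fun i : Fin k => ¬ (A i).card = d i).card := by
      rw [Finset.card_filter]
      refine Finset.sum_congr rfl fun i _ => ?_
      by_cases h2 : (A i).card = d i
      · rw [if_pos h2, if_neg (not_not.2 h2)]
      · rw [if_neg h2, if_pos h2]
    rw [h1, Fintype.card_subtype, Finset.card_filter_add_card_filter_not, Finset.card_univ,
      Fintype.card_fin]
  have htot : ∑ i, ((A i).card + (if (A i).card = d i then 0 else 1)) ≤ ∑ i, d i :=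
    Finset.sum_le_sum fun i _ => hcnt i
  have hdim := h.dim
  have hsplit : ∑ i, ((A i).card + (if (A i).card = d i then 0 else 1)) =
      ∑ i, (A i).card + ∑ i, (if (A i).card = d i then 0 else 1) := Finset.sum_add_distrib
  have heq : Module.finrank ℝ (LinearMap.ker Ψ) = r := by omega
  have heq2 : ∑ i, ((A i).card + (if (A i).card = d i then 0 else 1)) = ∑ i, d i := by omega
  have hs : Function.Surjective Φ' := by
    refine (LinearMap.injective_iff_surjective_of_finrank_eq_finrank ?_).1 hinj'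
    rw [Module.finrank_fin_fun, heq]
  have hsol : ∀ x : (Σ i, {ℓ // ℓ ∈ A i}) → ℝ, (∀ i, (A i).card = d i →
      ∑ ℓ : {ℓ // ℓ ∈ A i}, x ⟨i, ℓ⟩ = 0) → ∃ v : Fin r → ℝ, ∀ p, (p.2 : Frm r) v = x p := by
    intro x hx
    obtain ⟨v, hv⟩ := hs ⟨x, by
      rw [LinearMap.mem_ker]
      funext i
      rw [hΨ]
      exact hx i.1 i.2⟩
    refine ⟨v, fun p => ?_⟩
    rw [← hΦ, ← hΦ', hv]
  have hfull : ∀ i, (A i).card = d i := by
    intro i₀
    by_contra hi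
    have h1 : (A i₀).card + (if (A i₀).card = d i₀ then 0 else 1) = d i₀ :=
      (Finset.sum_eq_sum_iff_of_le fun i _ => hcnt i).1 heq2 i₀ (Finset.mem_univ _)
    rw [if_neg hi] at h1
    have h2 := h.two i₀
    obtain ⟨ℓ₀, hℓ₀⟩ : (A i₀).Nonempty := Finset.card_pos.1 (by omega)
    obtain ⟨v, hv⟩ := hsol (fun p => if p.1 = i₀ then -1 else 0) (by
      intro i hi'
      refine Finset.sum_eq_zero fun ℓ _ => if_neg ?_
      show ¬ i = i₀
      rintro rfl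
      exact hi hi')
    obtain ⟨ℓ, hℓ, h3⟩ := s1 v
    obtain ⟨i, hi'⟩ := h.ex ℓ hℓ
    have h4 : ℓ v ≤ 0 := by
      have h5 := hv ⟨i, ⟨ℓ, hi'⟩⟩
      have h6 : ℓ v = if i = i₀ then -1 else 0 := h5
      rw [h6]
      split_ifs
      · norm_num
      · exact le_rfl
    have h7 : v = 0 := by
      apply sum_zero
      by_contra hcon
      push Not at hcon
      exact absurd (h3.trans h4) (not_le.2 (mul_pos hδ hcon))
    have h8 := hv ⟨i₀, ⟨ℓ₀, hℓ₀⟩⟩
    have h9 : ℓ₀ v = if i₀ = i₀ then -1 else 0 := h8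
    rw [h7, map_zero, if_pos rfl] at h9
    norm_num at h9
  refine ⟨hfull, fun x hx => ?_⟩
  obtain ⟨v, hv⟩ := hsol (fun p => x p.1 p.2.1) (by
    intro i _
    rw [← hx i, ← Finset.sum_coe_sort (A i)])
  exact ⟨v, fun i ℓ hℓ => hv ⟨i, ⟨ℓ, hℓ⟩⟩⟩

/-- a block has another element -/
theorem exists_ne (h : Blk W A d) {i : Fin k} (ℓ : Frm r) : ∃ ℓ' ∈ A i, ℓ' ≠ ℓ := by
  classical
  have h1 := h.key.1 i
  have h2 := h.two i
  exact Finset.exists_mem_ne (by omega) ℓ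

/-- the blocks are disjoint -/
theorem disj (h : Blk W A d) {i j : Fin k} {ℓ : Frm r} (hi : ℓ ∈ A i) (hj : ℓ ∈ A j) : i = j := by
  classical
  by_contra hij
  obtain ⟨ℓ', hℓ', hne⟩ := h.exists_ne (i := i) ℓ
  obtain ⟨v, hv⟩ := h.key.2 (fun l m => if l = i then (if m = ℓ then 1 else 0) -
    (if m = ℓ' then 1 else 0) else 0) (by
      intro l
      by_cases hl : l = i
      · subst hl
        simp only [if_true]
        rw [Finset.sum_sub_distrib, Finset.sum_ite_eq' (A l) ℓ, Finset.sum_ite_eq' (A l) ℓ',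
          if_pos hi, if_pos hℓ', sub_self]
      · exact Finset.sum_eq_zero fun m _ => if_neg hl)
  have h1 := hv i ℓ hi
  have h2 := hv j ℓ hj
  rw [if_pos rfl, if_pos rfl, if_neg (Ne.symm hne)] at h1
  rw [if_neg (Ne.symm hij), h1] at h2
  norm_num at h2

theorem card_W (h : Blk W A d) : W.card = r + k := by
  classical
  have h1 : W = Finset.univ.biUnion A := by
    ext ℓ
    rw [Finset.mem_biUnion]
    constructor
    · intro hℓ
      obtain ⟨i, hi⟩ := h.ex ℓ hℓ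
      exact ⟨i, Finset.mem_univ _, hi⟩
    · rintro ⟨i, -, hi⟩
      exact h.sub i hi
  rw [h1, Finset.card_biUnion fun i _ j _ hij => by
    show Disjoint (A i) (A j)
    rw [Finset.disjoint_left]
    intro ℓ hi hj
    exact hij (h.disj hi hj), ← h.dim]
  exact Finset.sum_congr rfl fun i _ => h.key.1 i

/-- integral vectors close to large multiples of real vectors -/
theorem round (_h : Blk W A d) (v : Fin r → ℝ) : ∃ (w : Fin r → ℤ) (n : ℕ),
    2 * ∑ ℓ ∈ W, bd ℓ < n ∧ ∀ ℓ ∈ W, |ev ℓ w - n * ℓ v| ≤ ∑ ℓ ∈ W, bd ℓ := by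
  obtain ⟨n, hn⟩ := exists_nat_gt (2 * ∑ ℓ ∈ W, bd ℓ)
  obtain ⟨w, hw⟩ := flr (fun i => (n : ℝ) * v i)
  refine ⟨w, n, hn, fun ℓ hℓ => ?_⟩
  have h4 := diff_le ℓ _ w hw
  have h5 : ℓ (fun i => (n : ℝ) * v i) = n * ℓ v := by
    have : (fun i => (n : ℝ) * v i) = (n : ℝ) • v := rfl
    rw [this, map_smul, smul_eq_mul]
  rw [h5] at h4
  exact h4.trans (Finset.single_le_sum (fun l _ => bd_nonneg l) hℓ)

/-- integral vectors on which a proper part of a block is negative -/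
theorem neg (h : Blk W A d) {i : Fin k} {ℓ₀ : Frm r} (hi : ℓ₀ ∈ A i) :
    ∃ v : Fin r → ℤ, ∀ ℓ ∈ A i, ℓ ≠ ℓ₀ → ev ℓ v < 0 := by
  classical
  obtain ⟨v, hv⟩ := h.key.2 (fun l m => if l = i then (if m = ℓ₀ then (d i : ℝ) else 0) - 1 else 0)
    (by
      intro l
      by_cases hl : l = i
      · subst hl
        simp only [if_true]
        rw [Finset.sum_sub_distrib, Finset.sum_ite_eq' (A l) ℓ₀, if_pos hi, Finset.sum_const,
          h.key.1 l, nsmul_eq_mul, mul_one, sub_self]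
      · exact Finset.sum_eq_zero fun m _ => if_neg hl)
  obtain ⟨w, n, hn, hw⟩ := h.round v
  refine ⟨w, fun ℓ hℓ hne => ?_⟩
  have h1 := hv i ℓ hℓ
  rw [if_pos rfl, if_neg hne, zero_sub] at h1
  have h2 := (abs_le.1 (hw ℓ (h.sub i hℓ))).2
  rw [h1] at h2
  have h3 : 0 ≤ ∑ ℓ ∈ W, bd ℓ := Finset.sum_nonneg fun l _ => bd_nonneg l
  linarith

/-- integral vectors on which a given form is larger than all others -/
theorem dir (h : Blk W A d) {ℓ₀ : Frm r} (h0 : ℓ₀ ∈ W) :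
    ∃ v : Fin r → ℤ, ∀ ℓ ∈ W, ℓ ≠ ℓ₀ → ev ℓ v < ev ℓ₀ v := by
  classical
  obtain ⟨i, hi⟩ := h.ex ℓ₀ h0
  obtain ⟨v, hv⟩ := h.key.2 (fun l m => if l = i then (if m = ℓ₀ then (d i : ℝ) else 0) - 1 else 0)
    (by
      intro l
      by_cases hl : l = i
      · subst hl
        simp only [if_true]
        rw [Finset.sum_sub_distrib, Finset.sum_ite_eq' (A l) ℓ₀, if_pos hi, Finset.sum_const,
          h.key.1 l, nsmul_eq_mul, mul_one, sub_self]
      · exact Finset.sum_eq_zero fun m _ => if_neg hl)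
  obtain ⟨w, n, hn, hw⟩ := h.round v
  have h0' := hv i ℓ₀ hi
  rw [if_pos rfl, if_pos rfl] at h0'
  have hd : (2 : ℝ) ≤ d i := by exact_mod_cast h.two i
  refine ⟨w, fun ℓ hℓ hne => ?_⟩
  have h1 : ℓ v ≤ 0 := by
    obtain ⟨j, hj⟩ := h.ex ℓ hℓ
    rw [hv j ℓ hj]
    by_cases hji : j = i
    · rw [if_pos hji, if_neg hne]
      norm_num
    · rw [if_neg hji]
  have h2 := (abs_le.1 (hw ℓ hℓ)).2
  have h3 := (abs_le.1 (hw ℓ₀ h0)).1
  have h4 : (n : ℝ) * ℓ v ≤ 0 := mul_nonpos_of_nonneg_of_nonpos (Nat.cast_nonneg _) h1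
  have h5 : (n : ℝ) ≤ n * ℓ₀ v := by
    rw [h0']
    have : (0 : ℝ) ≤ n := Nat.cast_nonneg _
    nlinarith
  linarith

/-- balancing the blocks -/
theorem bal (h : Blk W A d) : ∃ B : ℝ, 0 ≤ B ∧ ∀ a : Frm r → ℝ, ∃ v : Fin r → ℤ, ∀ i, ∀ ℓ ∈ A i,
    ∀ ℓ' ∈ A i, a ℓ + ev ℓ v ≤ a ℓ' + ev ℓ' v + B := by
  classical
  refine ⟨2 * ∑ l ∈ W, bd l, by
    have : 0 ≤ ∑ ℓ ∈ W, bd ℓ := Finset.sum_nonneg fun l _ => bd_nonneg l
    linarith, fun a => ?_⟩
  obtain ⟨v, hv⟩ := h.key.2 (fun i m => (∑ ℓ ∈ A i, a ℓ) / d i - a m) (by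
    intro i
    rw [Finset.sum_sub_distrib, Finset.sum_const, h.key.1 i, nsmul_eq_mul]
    have h2 : (d i : ℝ) ≠ 0 := by
      have := h.two i
      positivity
    field_simp
    ring)
  obtain ⟨w, hw⟩ := flr v
  refine ⟨w, fun i ℓ hℓ ℓ' hℓ' => ?_⟩
  have h4 := abs_le.1 (diff_le ℓ _ w hw)
  have h5 := abs_le.1 (diff_le ℓ' _ w hw)
  have h6 : bd ℓ ≤ ∑ l ∈ W, bd l := Finset.single_le_sum (fun l _ => bd_nonneg l) (h.sub i hℓ)
  have h7 : bd ℓ' ≤ ∑ l ∈ W, bd l := Finset.single_le_sum (fun l _ => bd_nonneg l) (h.sub i hℓ')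
  have h8 := hv i ℓ hℓ
  have h9 := hv i ℓ' hℓ'
  unfold ev
  linarith [h4.2, h5.1]

end Blk

end Run7.h528.MB
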