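import Pool.Agent.Run7.h528.MB.Act
import Pool.Agent.Run7.h528.MB.Lin
import Pool.Agent.N394.CC.IND
import Pool.Agent.N395.CC.SEP
import Pool.Agent.N386.CC.PF
import Pool.Agent.N707.CC.CE

/-!
# Abelian groups of rank `m - k` acting on a cone in `ℝ ^ m` with `k` rational blocks

The joint eigenvectors in the cone are a basis which is compatible with the blocks.
-/

set_option autoImplicit false

namespace Run7.h528.MB

open Pool.Agent.N110.CC (PC S_PF S_CE S_IND Frm ev ev_add ev_zero ev_neg ev_nsmul)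
open Filter Topology

/-- the projection to the block `i` -/
noncomputable def pr {m k : ℕ} (B : Module.Basis (Fin m) ℝ (Fin m → ℝ)) (β : Fin m → Fin k)
    (i : Fin k) : (Fin m → ℝ) →ₗ[ℝ] (Fin m → ℝ) :=
  B.constr ℝ fun j => if β j = i then B j else 0

section pr

variable {m k : ℕ} {B : Module.Basis (Fin m) ℝ (Fin m → ℝ)} {β : Fin m → Fin k}

theorem pr_basis (i : Fin k) (j : Fin m) : pr B β i (B j) = if β j = i then B j else 0 :=
  B.constr_basis ℝ _ j

theorem sum_pr (x : Fin m → ℝ) : ∑ i, pr B β i x = x := by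
  have h1 : (∑ i, pr B β i) = LinearMap.id := by
    refine B.ext fun j => ?_
    rw [LinearMap.sum_apply]
    simp only [pr_basis, LinearMap.id_apply]
    rw [Finset.sum_ite_eq Finset.univ (β j), if_pos (Finset.mem_univ _)]
  have h2 := LinearMap.congr_fun h1 x
  rwa [LinearMap.sum_apply] at h2

theorem pr_pr (i j : Fin k) (x : Fin m → ℝ) :
    pr B β i (pr B β j x) = if i = j then pr B β i x else 0 := by
  have h1 : pr B β i ∘ₗ pr B β j = if i = j then pr B β i else 0 := by
    refine B.ext fun l => ?_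
    rw [LinearMap.comp_apply, pr_basis]
    by_cases hij : i = j
    · subst hij
      rw [if_pos rfl]
      by_cases h2 : β l = i
      · rw [if_pos h2]
      · rw [if_neg h2, map_zero, pr_basis, if_neg h2]
    · rw [if_neg hij, LinearMap.zero_apply]
      by_cases h2 : β l = j
      · rw [if_pos h2, pr_basis, if_neg (fun h3 => hij (h3.symm.trans h2))]
      · rw [if_neg h2, map_zero]
  have h2 := LinearMap.congr_fun h1 x
  rw [LinearMap.comp_apply] at h2
  rw [h2]
  split_ifs
  · rfl
  · rfl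

theorem repr_pr (i : Fin k) (x : Fin m → ℝ) (j : Fin m) :
    B.repr (pr B β i x) j = if β j = i then B.repr x j else 0 := by
  have h1 : B.coord j ∘ₗ pr B β i = if β j = i then B.coord j else 0 := by
    refine B.ext fun l => ?_
    rw [LinearMap.comp_apply, pr_basis]
    by_cases hj : β j = i
    · rw [if_pos hj]
      by_cases hl : β l = i
      · rw [if_pos hl]
      · rw [if_neg hl, map_zero, B.coord_apply, B.repr_self, Finsupp.single_eq_of_ne]
        rintro rfl
        exact hl hj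
    · rw [if_neg hj, LinearMap.zero_apply]
      by_cases hl : β l = i
      · rw [if_pos hl, B.coord_apply, B.repr_self, Finsupp.single_eq_of_ne]
        rintro rfl
        exact hj hl
      · rw [if_neg hl, map_zero]
  have h2 := LinearMap.congr_fun h1 x
  rw [LinearMap.comp_apply, B.coord_apply] at h2
  rw [h2]
  split_ifs
  · rfl
  · rfl

end pr

/-- an abelian group of rank `m - k` acting on a cone in `ℝ ^ m`, with `k` rational invariant
subspaces of dimension at least `2` -/
structure BAct (r k m : ℕ) (C : Set (Fin m → ℝ))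
    (G : (Fin r → ℤ) → ((Fin m → ℝ) →ₗ[ℝ] (Fin m → ℝ)))
    (B : Module.Basis (Fin m) ℝ (Fin m → ℝ)) (β : Fin m → Fin k) : Prop where
  act : ActM r m C G
  int : ∀ j i, ∃ n : ℤ, B j i = n
  blk : ∀ v j, ∃ a : Fin m → ℤ, (∀ l, β l ≠ β j → a l = 0) ∧ G v (B j) = ∑ l, (a l : ℝ) • B l
  two : ∀ i, ∃ j j', j ≠ j' ∧ β j = i ∧ β j' = i
  dim : m = r + k
  gint : ∀ (v : Fin r → ℤ) (x : Fin m → ℝ), (∀ i, ∃ n : ℤ, x i = n) → ∀ i, ∃ n : ℤ, G v x i = n

namespace BAct

variable {r k m : ℕ} {C : Set (Fin m → ℝ)}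
  {G : (Fin r → ℤ) → ((Fin m → ℝ) →ₗ[ℝ] (Fin m → ℝ))}
  {B : Module.Basis (Fin m) ℝ (Fin m → ℝ)} {β : Fin m → Fin k}

theorem pr_G (h : BAct r k m C G B β) (v : Fin r → ℤ) (i : Fin k) (x : Fin m → ℝ) :
    pr B β i (G v x) = G v (pr B β i x) := by
  have h1 : pr B β i ∘ₗ G v = G v ∘ₗ pr B β i := by
    refine B.ext fun j => ?_
    obtain ⟨a, ha, hG⟩ := h.blk v j
    rw [LinearMap.comp_apply, LinearMap.comp_apply, pr_basis, hG, map_sum]
    simp only [map_smul, pr_basis]
    by_cases hj : β j = i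
    · rw [if_pos hj, hG]
      refine Finset.sum_congr rfl fun l _ => ?_
      by_cases hl : β l = i
      · rw [if_pos hl]
      · rw [if_neg hl, ha l (fun h2 => hl (h2.trans hj))]
        simp
    · rw [if_neg hj, map_zero]
      refine Finset.sum_eq_zero fun l _ => ?_
      by_cases hl : β l = i
      · rw [ha l (fun h2 => hj (h2.symm.trans hl))]
        simp
      · rw [if_neg hl, smul_zero]
  exact LinearMap.congr_fun h1 x

/-- the sum of the weights of a block is zero -/
theorem det_one (h : BAct r k m C G B β) {i : Fin k} {A : Finset (Frm r)}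
    {e : Frm r → Fin m → ℝ} (he0 : ∀ ℓ ∈ A, pr B β i (e ℓ) = e ℓ)
    (heig : ∀ ℓ ∈ A, ∀ v, G v (e ℓ) = Real.exp (ev ℓ v) • e ℓ)
    (hli : LinearIndependent ℝ (fun ℓ : A => e ℓ)) :
    A.card ≤ Fintype.card {j // β j = i} ∧
      (A.card = Fintype.card {j // β j = i} → ∑ ℓ ∈ A, ℓ = 0) := by
  classical
  -- coordinates of the block
  obtain ⟨P, hP⟩ : ∃ P : (Fin m → ℝ) →ₗ[ℝ] ({j // β j = i} → ℝ), ∀ x j, P x j = B.repr x j.1 :=
    ⟨LinearMap.pi fun j => B.coord j.1, fun _ _ => rfl⟩
  obtain ⟨I, hI⟩ : ∃ I : ({j // β j = i} → ℝ) →ₗ[ℝ] (Fin m → ℝ), ∀ x, I x = ∑ j, x j • B j.1 :=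
    ⟨Fintype.linearCombination ℝ fun j : {j // β j = i} => B j.1, fun x =>
      Fintype.linearCombination_apply ℝ _ x⟩
  have hPB : ∀ j (hj : β j = i), P (B j) = Pi.single ⟨j, hj⟩ 1 := by
    intro j hj
    funext l
    rw [hP, B.repr_self]
    by_cases hl : l = ⟨j, hj⟩
    · rw [hl, Pi.single_eq_same, Finsupp.single_eq_same]
    · rw [Pi.single_eq_of_ne hl, Finsupp.single_eq_of_ne]
      intro h2
      exact hl (Subtype.ext h2)
  have hPB0 : ∀ j, β j ≠ i → P (B j) = 0 := by
    intro j hj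
    funext l
    rw [hP, B.repr_self, Finsupp.single_eq_of_ne]
    · rfl
    · intro h2
      exact hj (h2 ▸ l.2)
  have hIs : ∀ j : {j // β j = i}, I (Pi.single j 1) = B j.1 := by
    intro j
    rw [hI, Finset.sum_eq_single j]
    · simp
    · intro l _ hl
      rw [Pi.single_eq_of_ne hl, zero_smul]
    · intro h2
      exact absurd (Finset.mem_univ _) h2
  have hIP : ∀ x, I (P x) = pr B β i x := by
    have h1 : I ∘ₗ P = pr B β i := by
      refine B.ext fun j => ?_
      rw [LinearMap.comp_apply, pr_basis]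
      by_cases hj : β j = i
      · rw [if_pos hj, hPB j hj, hIs]
      · rw [if_neg hj, hPB0 j hj, map_zero]
    exact fun x => LinearMap.congr_fun h1 x
  have hli' : LinearIndependent ℝ (fun ℓ : A => P (e ℓ)) := by
    refine LinearIndependent.of_comp I ?_
    have h1 : (⇑I ∘ fun ℓ : A => P (e ℓ)) = fun ℓ : A => e ℓ := by
      funext ℓ
      show I (P (e ℓ)) = e ℓ
      rw [hIP, he0 ℓ.1 ℓ.2]
    rwa [h1]
  refine ⟨?_, fun hcard => ?_⟩
  · have h1 := hli'.fintype_card_le_finrank
    rwa [Fintype.card_coe, Module.finrank_fintype_fun_eq_card] at h1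
  -- the restricted maps
  choose a ha hG using h.blk
  obtain ⟨Nm, hNm⟩ : ∃ Nm : (Fin r → ℤ) → Matrix {j // β j = i} {j // β j = i} ℤ,
      ∀ v j l, Nm v j l = a v l.1 j.1 := ⟨fun v => Matrix.of fun j l => a v l.1 j.1,
        fun _ _ _ => rfl⟩
  obtain ⟨f, hf⟩ : ∃ f : (Fin r → ℤ) → (({j // β j = i} → ℝ) →ₗ[ℝ] ({j // β j = i} → ℝ)),
      ∀ v, f v = Matrix.toLin' ((Nm v).map (Int.cast : ℤ → ℝ)) := ⟨_, fun _ => rfl⟩
  have hIf : ∀ v x, I (f v x) = G v (I x) := by
    intro v
    have h1 : I ∘ₗ f v = G v ∘ₗ I := by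
      refine (Pi.basisFun ℝ {j // β j = i}).ext fun j => ?_
      rw [LinearMap.comp_apply, LinearMap.comp_apply, Pi.basisFun_apply, hIs, hG v j.1, hI, hf]
      have h2 : ∀ l : {j // β j = i}, Matrix.toLin' ((Nm v).map (Int.cast : ℤ → ℝ))
          (Pi.single j 1) l = (a v j.1 l.1 : ℝ) := by
        intro l
        rw [Matrix.toLin'_apply, Matrix.mulVec_single_one]
        show ((Nm v l j : ℤ) : ℝ) = _
        rw [hNm]
      simp only [h2]
      have h3 : ∑ l : Fin m, (a v j.1 l : ℝ) • B l =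
          ∑ l ∈ Finset.univ.filter (fun l => β l = i), (a v j.1 l : ℝ) • B l := by
        rw [Finset.sum_filter]
        refine Finset.sum_congr rfl fun l _ => ?_
        by_cases hl : β l = i
        · rw [if_pos hl]
        · rw [if_neg hl, ha v j.1 l (fun h2 => hl (h2.trans j.2))]
          simp
      rw [h3, Finset.sum_subtype (Finset.univ.filter fun l => β l = i) (p := fun l => β l = i)
        (fun l => by simp)]
    exact fun x => LinearMap.congr_fun h1 x
  have hPI : ∀ x, P (I x) = x := by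
    have h1 : P ∘ₗ I = LinearMap.id := by
      refine (Pi.basisFun ℝ {j // β j = i}).ext fun j => ?_
      rw [LinearMap.comp_apply, Pi.basisFun_apply, hIs, hPB j.1 j.2, LinearMap.id_apply]
    exact fun x => LinearMap.congr_fun h1 x
  have hIinj : Function.Injective I := fun x z hxz => by rw [← hPI x, ← hPI z, hxz]
  have hdet1 : ∀ v, LinearMap.det (f v) * LinearMap.det (f (-v)) = 1 := by
    intro v
    have h1 : f v ∘ₗ f (-v) = LinearMap.id := by
      refine LinearMap.ext fun x => hIinj ?_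
      rw [LinearMap.comp_apply, hIf, hIf, LinearMap.id_apply]
      have h2 := h.act.inv_apply (-v) (I x)
      rwa [neg_neg] at h2
    rw [← LinearMap.det_comp, h1, LinearMap.det_id]
  have hdet2 : ∀ v, LinearMap.det (f v) = ((Nm v).det : ℝ) := by
    intro v
    rw [hf, LinearMap.det_toLin']
    exact ((Int.castRingHom ℝ).map_det (Nm v)).symm
  -- the eigenbasis
  have hcd : Fintype.card A = Module.finrank ℝ ({j // β j = i} → ℝ) := by
    rw [Fintype.card_coe, Module.finrank_fintype_fun_eq_card, hcard]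
  have hdet3 : ∀ v, LinearMap.det (f v) = Real.exp (∑ ℓ ∈ A, ev ℓ v) := by
    intro v
    by_cases hA : A.Nonempty
    · have : Nonempty A := ⟨⟨_, hA.choose_spec⟩⟩
      obtain ⟨b, hb⟩ : ∃ b : Module.Basis A ℝ ({j // β j = i} → ℝ), ∀ ℓ, b ℓ = P (e ℓ) :=
        ⟨basisOfLinearIndependentOfCardEqFinrank hli' hcd, fun ℓ => by
          rw [coe_basisOfLinearIndependentOfCardEqFinrank]⟩
      have h1 : LinearMap.toMatrix b b (f v) =
          Matrix.diagonal fun ℓ : A => Real.exp (ev ℓ.1 v) := by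
        ext ℓ ℓ'
        rw [LinearMap.toMatrix_apply]
        have h2 : f v (b ℓ') = Real.exp (ev ℓ'.1 v) • b ℓ' := by
          apply hIinj
          rw [hIf, map_smul, hb, hIP, he0 ℓ'.1 ℓ'.2, heig ℓ'.1 ℓ'.2]
        rw [h2, map_smul, b.repr_self, Finsupp.smul_apply, smul_eq_mul, Matrix.diagonal_apply]
        by_cases h3 : ℓ = ℓ'
        · rw [h3, if_pos rfl, Finsupp.single_eq_same, mul_one]
        · rw [if_neg h3, Finsupp.single_eq_of_ne h3, mul_zero]
      rw [← LinearMap.det_toMatrix b, h1, Matrix.det_diagonal, ← Real.exp_sum,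
        ← Finset.sum_coe_sort A]
    · rw [Finset.not_nonempty_iff_eq_empty] at hA
      subst hA
      rw [Finset.sum_empty, Real.exp_zero, hdet2]
      have h1 : IsEmpty {j // β j = i} := by
        rw [Finset.card_empty] at hcard
        exact Fintype.card_eq_zero_iff.1 hcard.symm
      rw [Matrix.det_isEmpty]
      simp
  have hsum : ∀ v : Fin r → ℤ, ∑ ℓ ∈ A, ev ℓ v = 0 := by
    intro v
    have h1 := hdet1 v
    rw [hdet2, hdet2] at h1
    have h2 : (Nm v).det * (Nm (-v)).det = 1 := by exact_mod_cast h1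
    have h3 := hdet3 v
    rw [hdet2] at h3
    have h4 : 0 < ((Nm v).det : ℝ) := by
      rw [h3]
      exact Real.exp_pos _
    have h5 : 0 < (Nm v).det := by exact_mod_cast h4
    have h6 : (Nm v).det = 1 := by
      rcases Int.eq_one_or_neg_one_of_mul_eq_one h2 with h7 | h7
      · exact h7
      · omega
    rw [h6, Int.cast_one] at h3
    exact Real.exp_eq_one_iff _ |>.1 h3.symm
  refine (Pi.basisFun ℝ (Fin r)).ext fun j => ?_
  have h1 := hsum (Pi.single j 1)
  rw [LinearMap.sum_apply, LinearMap.zero_apply, Pi.basisFun_apply, ← h1]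
  refine Finset.sum_congr rfl fun ℓ _ => ?_
  unfold ev
  congr 1
  funext l
  by_cases hl : l = j
  · subst hl
    simp
  · rw [Pi.single_eq_of_ne hl, Pi.single_eq_of_ne hl]
    simp

end BAct

end Run7.h528.MB
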