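import Pool.Agent.Run7.h528.MB.Big

/-!
# Birational contractions of images of varieties with invariant blocks
-/

set_option autoImplicit false
set_option linter.unusedSectionVars false
set_option linter.overlappingInstances false

open FF Pool.Agent.W602.GT Pool.Agent.Y172 Pool.Agent.R887
open Pool.Agent.N110 Pool.Agent.N110.CC
open Pool.Agent.N110.DV (NefD)

namespace Run7.h528.MB

section

variable {K : Type} [Field K] [Algebra ℂ K] {N M n : ℕ} {y : Fin (N + 1) → K}
  {z : Fin (M + 1) → K}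

/-- elements of a chart have bounded poles -/
theorem chart_bound {i : Fin (M + 1)} (hi : z i ≠ 0) {a : K} (ha : a ∈ chart z i) :
    ∃ m : ℕ, ∀ m', m ≤ m' → ∀ (P : Place ℂ K) (l), Centred z l P →
      P.Reg (a * (z i / z l) ^ m') := by
  classical
  have h1 : ∀ l : Fin (M + 1), ∃ k : ℕ, z l ≠ 0 → a * (z i / z l) ^ k ∈ chart z l := by
    intro l
    by_cases hl : z l = 0
    · exact ⟨0, fun h => absurd hl h⟩
    · obtain ⟨k, hk⟩ := chart_change hl hi ha
      exact ⟨k, fun _ => hk⟩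
  choose k hk using h1
  refine ⟨Finset.univ.sup k, fun m' hm' P l hl => ?_⟩
  have h2 : k l ≤ m' := (Finset.le_sup (Finset.mem_univ l)).trans hm'
  obtain ⟨d, rfl⟩ := Nat.exists_eq_add_of_le h2
  rw [pow_add, ← mul_assoc]
  exact hl.reg _ ((chart z l).mul_mem (hk l hl.1) ((chart z l).pow_mem (gen_mem z l i) _))

/-- the pull back of an ample divisor by a birational map is big -/
theorem contr_big (hz : NormalModel z) {i₀ : Fin (M + 1)} (hi₀ : z i₀ ≠ 0) {A : Place ℂ K → ℤ}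
    (hA : ∀ P l, Centred z l P → A P = P.ord (z i₀ / z l)) : BigD y (fun P => (A P : ℚ)) := by
  classical
  intro i hi
  have := hz.frac hi₀
  obtain ⟨b, hb⟩ := IsLocalization.exist_integer_multiples_of_finite
    (nonZeroDivisors (chart z i₀)) (fun l : Fin (N + 1) => (y l / y i : K))
  have hG0 : ((b : chart z i₀) : K) ≠ 0 := by
    intro h
    exact nonZeroDivisors.coe_ne_zero b (Subtype.ext h)
  have hGl : ∀ l, ((b : chart z i₀) : K) * (y l / y i) ∈ chart z i₀ := by
    intro l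
    obtain ⟨a, ha⟩ := hb l
    have h1 : ((b : chart z i₀) : K) * (y l / y i) = a := by
      rw [Algebra.smul_def] at ha
      exact ha.symm
    rw [h1]
    exact a.2
  choose m hm using fun l => chart_bound hi₀ (hGl l)
  refine ⟨Finset.univ.sup m + 1, Nat.succ_pos _, (b : chart z i₀), hG0, fun P l hP hl => ?_⟩
  obtain ⟨j, hj⟩ := exists_centred hz P
  have h0 : m l ≤ Finset.univ.sup m + 1 :=
    (Finset.le_sup (f := m) (Finset.mem_univ l)).trans (Nat.le_succ _)
  have h1 := hm l _ h0 P j hj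
  have hyl : y l / y i ≠ 0 := div_ne_zero hl.1 hi
  have hzz : z i₀ / z j ≠ 0 := div_ne_zero hi₀ hj.1
  rw [P.reg_iff (mul_ne_zero (mul_ne_zero hG0 hyl) (pow_ne_zero _ hzz)),
    P.ord_mul (mul_ne_zero hG0 hyl) (pow_ne_zero _ hzz), P.ord_mul hG0 hyl, P.ord_pow,
    ← hA P j hj] at h1
  have h2 : P.ord (y i / y l) = -P.ord (y l / y i) := by
    rw [P.ord_div hi hl.1, P.ord_div hl.1 hi]
    ring
  have h3 : P.ord (y i / y l) ≤
      P.ord ((b : chart z i₀) : K) + ((Finset.univ.sup m + 1 : ℕ) : ℤ) * A P := by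
    rw [h2]
    linarith
  show ((P.ord (y i / y l) : ℤ) : ℚ) ≤
    ((P.ord ((b : chart z i₀) : K) : ℤ) : ℚ) + ((Finset.univ.sup m + 1 : ℕ) : ℚ) * ((A P : ℤ) : ℚ)
  exact_mod_cast h3

/-- **A birational morphism is an isomorphism** if all big divisors are ample. -/
theorem contr_iso (hy : NormalModel y) (hz : NormalModel z)
    (hbig : ∀ L : Place ℂ K → ℤ, IsDiv y L → IsQCartier y n L →
      BigD y (fun P => (L P : ℚ)) → IsAmple y n L)
    (hmor : ∀ P : Place ℂ K, localRing z P ⊆ localRing y P) (R : Place ℂ K)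
    (hR : Divisorial n R) : localRing z R = localRing y R := by
  classical
  refine Set.Subset.antisymm (hmor R) ?_
  obtain ⟨i₀, hi₀⟩ := hz.ne
  choose l hl using fun P : Place ℂ K => exists_centred hz P
  obtain ⟨A, hAdef⟩ : ∃ A : Place ℂ K → ℤ, ∀ P, A P = P.ord (z i₀ / z (l P)) := ⟨_, fun _ => rfl⟩
  have hA : ∀ P l', Centred z l' P → A P = P.ord (z i₀ / z l') := by
    intro P l' hl'
    have h1 := (hl P).unit hl'
    rw [hAdef, P.ord_div hi₀ (hl P).1, P.ord_div hi₀ hl'.1]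
    rw [P.ord_div hl'.1 (hl P).1] at h1
    linarith
  have hAd : IsDiv y A := by
    have h1 : ∀ j ∈ Finset.univ.filter (fun j => z j ≠ 0),
        {P | IsPrimeDivisor y P ∧ P.ord (z i₀ / z j) ≠ 0}.Finite := by
      intro j hj
      exact finite_ord hy (div_ne_zero hi₀ (Finset.mem_filter.1 hj).2)
    refine (Set.Finite.biUnion (Finset.finite_toSet _) h1).subset ?_
    rintro P ⟨hP, h0⟩
    refine Set.mem_biUnion (x := l P) ?_ ⟨hP, ?_⟩
    · exact Finset.mem_coe.2 (Finset.mem_filter.2 ⟨Finset.mem_univ _, (hl P).1⟩)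
    · rw [← hAdef]
      exact h0
  -- prime divisors through the centre of `R` on `X`
  have hcen : ∀ (R : Place ℂ K) (j), Centred z j R → ∀ P, Through y P R → Centred z j P :=
    fun R j hj P hPR => ⟨hj.1, fun i => hPR _ (hmor R (chart_localRing hj (gen_mem z j i)))⟩
  have hAC : IsQCartier y n A := by
    refine ⟨1, le_rfl, fun R _ => ?_⟩
    obtain ⟨j, hj⟩ := exists_centred hz R
    refine ⟨z j / z i₀, div_ne_zero hj.1 hi₀, fun P hP hPR => ?_⟩
    rw [hA P j (hcen R j hj P hPR), P.ord_div hj.1 hi₀, P.ord_div hi₀ hj.1]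
    push_cast
    ring
  obtain ⟨i, hi⟩ := hy.ne
  obtain ⟨m, hm, k, hk, h⟩ := hbig A hAd hAC (contr_big hz hi₀ hA) i hi
  obtain ⟨g, hg0, hg1, hg2⟩ := h R hR
  obtain ⟨l₀, hl₀⟩ := exists_centred hy R
  obtain ⟨q, hq⟩ := exists_centred hz R
  have hzz : z i₀ / z q ≠ 0 := div_ne_zero hi₀ hq.1
  have hk0 : (0 : ℤ) ≤ k := Nat.cast_nonneg k
  -- the sections
  have hne : ∀ j, y j ≠ 0 → g * (y j / y i) ^ k * (z i₀ / z q) ^ m ≠ 0 := fun j hj =>
    mul_ne_zero (mul_ne_zero hg0 (pow_ne_zero _ (div_ne_zero hj hi))) (pow_ne_zero _ hzz)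
  have hord : ∀ (P : Place ℂ K) j, y j ≠ 0 → P.ord (g * (y j / y i) ^ k * (z i₀ / z q) ^ m) =
      P.ord g + k * P.ord (y j / y i) + m * P.ord (z i₀ / z q) := by
    intro P j hj
    rw [P.ord_mul (mul_ne_zero hg0 (pow_ne_zero _ (div_ne_zero hj hi))) (pow_ne_zero _ hzz),
      P.ord_mul hg0 (pow_ne_zero _ (div_ne_zero hj hi)), P.ord_pow, P.ord_pow]
  have hu : ∀ j, y j ≠ 0 → g * (y j / y i) ^ k * (z i₀ / z q) ^ m ∈ localRing z R := by
    intro j hj
    refine mem_localRing_of_reg hz fun P hP hPR => ?_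
    have hPy : IsPrimeDivisor y P := fun f hf => hmor P (hP f hf)
    obtain ⟨l₁, hl₁⟩ := exists_centred hy P
    have h1 := hg1 P l₁ hPy hl₁
    rw [hA P q (hPR.centred hq), P.ord_div hi hl₁.1] at h1
    have h2 := (P.reg_iff (div_ne_zero hj hl₁.1)).1 (hl₁.2 j)
    rw [P.ord_div hj hl₁.1] at h2
    rw [P.reg_iff (hne j hj), hord P j hj, P.ord_div hj hi]
    have h3 := mul_nonneg hk0 h2
    linarith
  have hunit : R.ord (g * (y l₀ / y i) ^ k * (z i₀ / z q) ^ m) = 0 := by
    have h0 : ∀ P, IsPrimeDivisor y P → Through y P R →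
        P.ord (g * (y l₀ / y i) ^ k * (z i₀ / z q) ^ m) = 0 := by
      intro P hP hPR
      have h1 := hg2 P l₀ hP hPR (hPR.centred hl₀)
      rw [hA P q (hcen R q hq P hPR), P.ord_div hi hl₀.1] at h1
      rw [hord P l₀ hl₀.1, P.ord_div hl₀.1 hi, h1]
      ring
    have hn0 := hne l₀ hl₀.1
    have h1 := localRing_reg (mem_localRing_of_reg hy (Q := R)
      (f := g * (y l₀ / y i) ^ k * (z i₀ / z q) ^ m) fun P hP hPR =>
        (P.reg_iff hn0).2 (h0 P hP hPR).ge)
    have h2 := localRing_reg (mem_localRing_of_reg hy (Q := R)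
      (f := (g * (y l₀ / y i) ^ k * (z i₀ / z q) ^ m)⁻¹) fun P hP hPR => by
        rw [P.reg_iff (inv_ne_zero hn0), P.ord_inv, h0 P hP hPR]
        simp)
    rw [R.reg_iff hn0] at h1
    rw [R.reg_iff (inv_ne_zero hn0), R.ord_inv] at h2
    omega
  -- the centre of a prime divisor of `Z` through the centre of `R` on `Z`
  have hcz : ∀ P, IsPrimeDivisor z P → Through z P R → Centred y l₀ P := by
    intro P hP hPR
    refine ⟨hl₀.1, fun j => ?_⟩
    by_cases hj : y j = 0
    · rw [hj, zero_div]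
      exact P.reg_zero
    have h1 := (P.reg_iff (hne j hj)).1 (hPR _ (hu j hj))
    have h2 := ord_unit (hu l₀ hl₀.1) (hne l₀ hl₀.1) hunit hPR
    rw [hord P j hj, P.ord_div hj hi] at h1
    rw [hord P l₀ hl₀.1, P.ord_div hl₀.1 hi] at h2
    rw [P.reg_iff (div_ne_zero hj hl₀.1), P.ord_div hj hl₀.1]
    have h3 : 0 ≤ (k : ℤ) * (P.ord (y j) - P.ord (y l₀)) := by linarith
    have h4 : (0 : ℤ) < k := by exact_mod_cast hk
    exact nonneg_of_mul_nonneg_right h3 h4
  intro f hf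
  obtain ⟨a, ha, b, hb, hb0, hbo, hab⟩ := (mem_localRing hl₀).1 hf
  by_cases hf0 : f = 0
  · rw [hf0]
    exact ⟨q, hq, 0, (chart z q).zero_mem, 1, (chart z q).one_mem, one_ne_zero, R.ord_one,
      by simp⟩
  have hbz : b ∈ localRing z R := mem_localRing_of_reg hz fun P hP hPR =>
    (hcz P hP hPR).reg b hb
  refine mem_localRing_of_reg hz fun P hP hPR => ?_
  have h1 := (hcz P hP hPR).reg a ha
  have h2 := ord_unit hbz hb0 hbo hPR
  rw [← hab, P.reg_iff (mul_ne_zero hf0 hb0), P.ord_mul hf0 hb0, h2, add_zero] at h1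
  exact (P.reg_iff hf0).2 h1

end

end Run7.h528.MB
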