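import Pool.Agent.Run7.h528.MB.Str
import Pool.Agent.N110.CC.HDefs
import Pool.Agent.N110.CC.Fin
import Pool.Agent.N340.CC.VINT
import Pool.Agent.N40.CC.EFF

/-!
# Covering the cone generated by the rational vectors, and effective vectors
-/

set_option autoImplicit false

namespace Run7.h528.MB

open Pool.Agent.Y167 (cone cone_image cone_ind zero_mem_cone mem_cone_self cone_add cone_smul
  cone_mono cone_sum Cp)
open Pool.Agent.N110.CC (PC S_PF S_CE S_IND S_COV Frm ev ev_add ev_zero ev_neg ev_nsmul coneOf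
  ratHull coneOf_self coneOf_smul coneOf_add coneOf_zero)
open Pool.Agent.N165.KM (exists_pos_functional interior_sub interior_smul_mem HasFD Sandwich IntL
  mem_IntL)
open Filter Topology

variable {r k m : ℕ} {C : Set (Fin m → ℝ)}
  {G : (Fin r → ℤ) → ((Fin m → ℝ) →ₗ[ℝ] (Fin m → ℝ))}
  {B : Module.Basis (Fin m) ℝ (Fin m → ℝ)} {β : Fin m → Fin k}

/-- a common denominator of the projections -/
theorem exists_den (β : Fin m → Fin k) (hB : ∀ j i, ∃ n : ℤ, B j i = n) : ∃ D : ℕ, 0 < D ∧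
    ∀ i (x : Fin m → ℝ), (∀ j, ∃ n : ℤ, x j = n) → ∀ j, ∃ n : ℤ,
      ((D : ℝ) • pr B β i x) j = n := by
  classical
  choose n hn using hB
  obtain ⟨N, hN⟩ : ∃ N : Matrix (Fin m) (Fin m) ℤ, ∀ i j, N i j = n j i :=
    ⟨Matrix.of fun i j => n j i, fun _ _ => rfl⟩
  have hNm : (Pi.basisFun ℝ (Fin m)).toMatrix B = N.map (Int.cast : ℤ → ℝ) := by
    ext i j
    rw [Module.Basis.toMatrix_apply, Pi.basisFun_repr, Matrix.map_apply, hN, hn]
  have hdet : (N.det : ℝ) ≠ 0 := by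
    have h1 := (Pi.basisFun ℝ (Fin m)).isUnit_det B
    rw [Module.Basis.det_apply, hNm] at h1
    have h2 : (N.map (Int.cast : ℤ → ℝ)).det = ((N.det : ℤ) : ℝ) :=
      ((Int.castRingHom ℝ).map_det N).symm
    rw [h2] at h1
    exact h1.ne_zero
  obtain ⟨dd, hdd⟩ : ∃ dd : ℤ, dd = N.det := ⟨_, rfl⟩
  rw [← hdd] at hdet
  have hdet' : dd ≠ 0 := by exact_mod_cast hdet
  have key : ∀ i (x : Fin m → ℝ), (∀ j, ∃ n : ℤ, x j = n) → ∀ j, ∃ n : ℤ,
      ((dd : ℝ) • pr B β i x) j = n := by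
    intro i x hx
    choose x' hx' using hx
    have h1 : (dd : ℝ) • x = ∑ j, ((N.adjugate.mulVec x' j : ℤ) : ℝ) • B j := by
      funext l
      rw [Finset.sum_apply]
      have h2 : (N.mulVec (N.adjugate.mulVec x')) l = dd * x' l := by
        rw [Matrix.mulVec_mulVec, Matrix.mul_adjugate, Matrix.smul_mulVec, Matrix.one_mulVec, hdd]
        rfl
      have h3 : ∑ j, N l j * N.adjugate.mulVec x' j = dd * x' l := h2
      have h4 := congrArg (fun z : ℤ => (z : ℝ)) h3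
      push_cast at h4
      rw [Pi.smul_apply, smul_eq_mul, hx', ← h4]
      refine Finset.sum_congr rfl fun j _ => ?_
      rw [Pi.smul_apply, smul_eq_mul, hn, hN]
      ring
    intro l
    have h2 : (dd : ℝ) • pr B β i x = ∑ j, ((N.adjugate.mulVec x' j : ℤ) : ℝ) •
        (if β j = i then B j else 0) := by
      rw [← map_smul, h1, map_sum]
      refine Finset.sum_congr rfl fun j _ => ?_
      rw [map_smul, pr_basis]
    refine ⟨∑ j, N.adjugate.mulVec x' j * (if β j = i then n j l else 0), ?_⟩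
    rw [h2, Finset.sum_apply]
    push_cast
    refine Finset.sum_congr rfl fun j _ => ?_
    rw [Pi.smul_apply, smul_eq_mul]
    split_ifs
    · rw [hn]
    · simp
  refine ⟨dd.natAbs, Int.natAbs_pos.2 hdet', fun i x hx j => ?_⟩
  obtain ⟨p, hp⟩ := key i x hx j
  rcases Int.natAbs_eq dd with h1 | h1
  · refine ⟨p, ?_⟩
    rw [← hp]
    have h2 : (dd : ℝ) = ((dd.natAbs : ℕ) : ℝ) := by
      have h3 := congrArg (Int.cast : ℤ → ℝ) h1
      rwa [Int.cast_natCast] at h3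
    rw [h2]
  · refine ⟨-p, ?_⟩
    have h2 : (dd : ℝ) = -((dd.natAbs : ℕ) : ℝ) := by
      have h3 := congrArg (Int.cast : ℤ → ℝ) h1
      rwa [Int.cast_neg, Int.cast_natCast] at h3
    rw [h2, neg_smul, Pi.neg_apply] at hp
    rw [Int.cast_neg, ← hp, neg_neg]

namespace StrB

variable {W : Finset (Frm r)} {A : Fin k → Finset (Frm r)} {b : Module.Basis W ℝ (Fin m → ℝ)}

/-- projections of vectors which are positive in a block -/
theorem pr_Bl (h : StrB C G B β W A b) {i : Fin k} {x : Fin m → ℝ}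
    (hx : ∀ ℓ : W, ℓ.1 ∈ A i → 0 < b.repr x ℓ) : pr B β i x ∈ Bl W A b := by
  intro j
  by_cases hij : j = i
  · subst hij
    refine Or.inr fun ℓ hℓ => ?_
    rw [h.repr_proj x hℓ]
    exact hx ℓ hℓ
  · refine Or.inl fun ℓ hℓ => ?_
    exact h.repr_projn x fun h2 => hij (h.blk.disj hℓ h2)

theorem A_ne (h : StrB C G B β W A b) (i : Fin k) : ∃ ℓ : W, ℓ.1 ∈ A i := by
  have h1 := h.blk.two i
  have h2 := h.blk.key.1 i
  obtain ⟨ℓ, hℓ⟩ : (A i).Nonempty := Finset.card_pos.1 (by omega)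
  exact ⟨⟨ℓ, h.blk.sub i hℓ⟩, hℓ⟩

theorem G_Bl (h : StrB C G B β W A b) {x : Fin m → ℝ} (v : Fin r → ℤ) (hx : x ∈ Bl W A b) :
    G v x ∈ Bl W A b := by
  intro i
  rcases hx i with h1 | h1
  · refine Or.inl fun ℓ hℓ => ?_
    rw [h.repr_G, h1 ℓ hℓ, mul_zero]
  · refine Or.inr fun ℓ hℓ => ?_
    rw [h.repr_G]
    exact mul_pos (Real.exp_pos _) (h1 ℓ hℓ)

/-- **Covering.** -/
theorem cover (hCOV : S_COV) (h : StrB C G B β W A b) {D : ℕ} (hD : 0 < D)
    (hDi : ∀ i (x : Fin m → ℝ), (∀ j, ∃ n : ℤ, x j = n) → ∀ j, ∃ n : ℤ,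
      ((D : ℝ) • pr B β i x) j = n) : ∃ F : Finset (Fin m → ℝ),
    (∀ a ∈ F, a ∈ Bl W A b ∧ ∀ i, ∃ n : ℤ, a i = n) ∧
      ∀ x ∈ Bl W A b, ∃ v, G v x ∈ cone F := by
  classical
  obtain ⟨B0, hB0, hB⟩ := h.blk.bal
  have hexp : 1 ≤ Real.exp B0 := Real.one_le_exp hB0
  obtain ⟨F, hF, hK⟩ := hCOV m C h.bact.act.pc
    {x | ∀ ℓ k : W, 0 ≤ b.repr x ℓ ∧ b.repr x ℓ ≤ Real.exp B0 * b.repr x k} (by
      have : {x : Fin m → ℝ | ∀ ℓ k : W, 0 ≤ b.repr x ℓ ∧
          b.repr x ℓ ≤ Real.exp B0 * b.repr x k} =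
          ⋂ ℓ : W, ⋂ k : W, ({x | 0 ≤ b.repr x ℓ} ∩
            {x | b.repr x ℓ ≤ Real.exp B0 * b.repr x k}) := by
        ext x
        simp
      rw [this]
      refine isClosed_iInter fun ℓ => isClosed_iInter fun k => ?_
      exact (isClosed_le continuous_const (continuous_repr b ℓ)).inter
        (isClosed_le (continuous_repr b ℓ) (continuous_const.mul (continuous_repr b k))))
    (by
      intro t ht x hx ℓ k
      have h1 := hx ℓ k
      simp only [map_smul, Finsupp.smul_apply, smul_eq_mul]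
      refine ⟨mul_nonneg ht.le h1.1, ?_⟩
      have h2 := mul_le_mul_of_nonneg_left h1.2 ht.le
      linarith)
    (by
      intro x hx hx0
      rw [h.interior_iff]
      intro k
      by_contra hcon
      push Not at hcon
      apply hx0
      have h1 : ∀ ℓ : W, b.repr x ℓ = 0 := by
        intro ℓ
        have h2 := hx ℓ k
        have h3 := mul_nonpos_of_nonneg_of_nonpos (Real.exp_pos B0).le hcon
        linarith
      rw [← b.sum_repr x]
      exact Finset.sum_eq_zero fun ℓ _ => by rw [h1, zero_smul])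
  have hD' : (0 : ℝ) < D := by exact_mod_cast hD
  refine ⟨Finset.univ.biUnion fun i => F.image ((D : ℝ) • pr B β i), fun a ha => ?_,
    fun x hx => ?_⟩
  · rw [Finset.mem_biUnion] at ha
    obtain ⟨i, -, ha⟩ := ha
    obtain ⟨a', ha', rfl⟩ := Finset.mem_image.1 ha
    rw [LinearMap.smul_apply]
    refine ⟨Bl_smul hD'.le (h.pr_Bl fun ℓ _ => h.interior_iff.1 (hF a' ha').1 ℓ), ?_⟩
    exact hDi i a' (hF a' ha').2
  · obtain ⟨v, hv⟩ := hB fun ℓ => if hℓ : ℓ ∈ W then Real.log (b.repr x ⟨ℓ, hℓ⟩) else 0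
    refine ⟨v, ?_⟩
    rw [← sum_pr (B := B) (β := β) (G v x)]
    refine cone_sum _ _ fun i _ => ?_
    rcases hx i with h1 | h1
    · have h2 : pr B β i (G v x) = 0 := by
        rw [h.pr_eq_zero_iff]
        intro ℓ hℓ
        rw [h.repr_G, h1 ℓ hℓ, mul_zero]
      rw [h2]
      exact zero_mem_cone _
    · obtain ⟨ℓ₁, hℓ₁⟩ := h.A_ne i
      obtain ⟨z, hz⟩ : ∃ z, z = ∑ ℓ : W, (if ℓ.1 ∈ A i then b.repr (G v x) ℓ else
        b.repr (G v x) ℓ₁) • b ℓ := ⟨_, rfl⟩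
      have hzr : ∀ ℓ : W, b.repr z ℓ = if ℓ.1 ∈ A i then b.repr (G v x) ℓ else
          b.repr (G v x) ℓ₁ := by
        intro ℓ
        rw [hz, b.repr_sum_self]
      have hpos : ∀ ℓ : W, ℓ.1 ∈ A i → 0 < b.repr (G v x) ℓ := by
        intro ℓ hℓ
        rw [h.repr_G]
        exact mul_pos (Real.exp_pos _) (h1 ℓ hℓ)
      have hbal : ∀ ℓ ℓ' : W, ℓ.1 ∈ A i → ℓ'.1 ∈ A i →
          b.repr (G v x) ℓ ≤ Real.exp B0 * b.repr (G v x) ℓ' := by
        intro ℓ ℓ' hℓ hℓ'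
        have h3 := hv i ℓ.1 hℓ ℓ'.1 hℓ'
        simp only [dif_pos ℓ.2, dif_pos ℓ'.2, Subtype.coe_eta] at h3
        have h2 := Real.exp_le_exp.2 h3
        rw [Real.exp_add, Real.exp_add, Real.exp_add, Real.exp_log (h1 ℓ hℓ),
          Real.exp_log (h1 ℓ' hℓ')] at h2
        rw [h.repr_G, h.repr_G]
        calc Real.exp (ev ℓ.1 v) * b.repr x ℓ = b.repr x ℓ * Real.exp (ev ℓ.1 v) := mul_comm _ _
          _ ≤ b.repr x ℓ' * Real.exp (ev ℓ'.1 v) * Real.exp B0 := h2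
          _ = Real.exp B0 * (Real.exp (ev ℓ'.1 v) * b.repr x ℓ') := by ring
      have hzK : z ∈ cone F := by
        refine hK z fun ℓ ℓ' => ?_
        rw [hzr, hzr]
        by_cases e1 : ℓ.1 ∈ A i
        · rw [if_pos e1]
          refine ⟨(hpos ℓ e1).le, ?_⟩
          by_cases e2 : ℓ'.1 ∈ A i
          · rw [if_pos e2]
            exact hbal ℓ ℓ' e1 e2
          · rw [if_neg e2]
            exact hbal ℓ ℓ₁ e1 hℓ₁
        · rw [if_neg e1]
          refine ⟨(hpos ℓ₁ hℓ₁).le, ?_⟩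
          by_cases e2 : ℓ'.1 ∈ A i
          · rw [if_pos e2]
            exact hbal ℓ₁ ℓ' hℓ₁ e2
          · rw [if_neg e2]
            have := hpos ℓ₁ hℓ₁
            nlinarith
      have hpr : pr B β i z = pr B β i (G v x) := by
        apply b.repr.injective
        ext ℓ
        by_cases hℓ : ℓ.1 ∈ A i
        · rw [h.repr_proj z hℓ, h.repr_proj _ hℓ, hzr, if_pos hℓ]
        · rw [h.repr_projn z hℓ, h.repr_projn _ hℓ]
      have h4 := cone_image ((D : ℝ) • pr B β i) hzK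
      have h5 : pr B β i (G v x) = (D : ℝ)⁻¹ • ((D : ℝ) • pr B β i) z := by
        rw [LinearMap.smul_apply, smul_smul, inv_mul_cancel₀ hD'.ne', one_smul, hpr]
      rw [h5]
      refine cone_smul (cone_mono ?_ h4) (inv_nonneg.2 hD'.le)
      exact Finset.subset_biUnion_of_mem (fun i => F.image ((D : ℝ) • pr B β i))
        (Finset.mem_univ i)

/-- the cone generated by the rational vectors -/
theorem ratHull_eq (hCOV : S_COV) (h : StrB C G B β W A b) : ratHull C = Bl W A b := by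
  classical
  obtain ⟨D, hD, hDi⟩ := exists_den (B := B) β h.bact.int
  obtain ⟨F, hF, hcov⟩ := h.cover hCOV hD hDi
  apply Set.Subset.antisymm
  · refine Pool.Agent.N40.CC.coneOf_sub ?_ (fun x hx z hz => Bl_add hx hz)
      (fun t ht x hx => Bl_smul ht hx) ?_
    · intro i
      exact Or.inl fun ℓ _ => by rw [map_zero, Finsupp.zero_apply]
    · rintro x ⟨hx, hq⟩
      choose q hq using hq
      obtain ⟨d, z, hd, hz⟩ := Pool.Agent.N340.CC.common q
      have hd' : (0 : ℝ) < d := by exact_mod_cast hd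
      have h1 : (d : ℝ) • x ∈ Bl W A b := by
        refine h.integral hD hDi (h.bact.act.pc.smul d hd'.le _ hx) fun i => ⟨z i, ?_⟩
        have h2 := congrFun hz i
        rw [Pi.smul_apply, smul_eq_mul] at h2
        have h3 : ((z i : ℤ) : ℚ) = d * q i := h2
        have h4 := congrArg (fun q : ℚ => (q : ℝ)) h3
        push_cast at h4
        rw [Pi.smul_apply, smul_eq_mul, hq]
        exact h4.symm
      have h2 := Bl_smul (inv_nonneg.2 hd'.le) h1
      rwa [smul_smul, inv_mul_cancel₀ hd'.ne', one_smul] at h2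
  · intro x hx
    obtain ⟨v, hv⟩ := hcov x hx
    have h1 := cone_image (G (-v)) hv
    rw [h.bact.act.inv_apply] at h1
    refine ⟨F.image (G (-v)), fun a ha => ?_, h1⟩
    obtain ⟨a', ha', rfl⟩ := Finset.mem_image.1 (Finset.mem_coe.1 ha)
    refine ⟨h.bact.act.pres _ _ (h.Bl_sub (hF a' ha').1), fun i => ?_⟩
    obtain ⟨n, hn⟩ := h.bact.gint (-v) a' (hF a' ha').2 i
    exact ⟨n, by rw [hn]; norm_cast⟩

/-- the effective vectors -/
structure EffB (C : Set (Fin m → ℝ)) (G : (Fin r → ℤ) → ((Fin m → ℝ) →ₗ[ℝ] (Fin m → ℝ)))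
    (E : Set (Fin m → ℝ)) : Prop where
  sub : E ⊆ C
  int : interior C ⊆ E
  add : ∀ x ∈ E, ∀ z ∈ E, x + z ∈ E
  smul : ∀ t : ℝ, 0 ≤ t → ∀ x ∈ E, t • x ∈ E
  pres : ∀ v, ∀ x ∈ E, G v x ∈ E
  appr : ∀ x ∈ E, ∀ ε : ℝ, 0 < ε → ∃ t : Fin m → ℚ, (∀ j, |(t j : ℝ) - x j| < ε) ∧
    (fun j => (t j : ℝ)) ∈ E ∧ ∃ ε' : ℝ, 0 < ε' ∧ x - ε' • (fun j => (t j : ℝ)) ∈ E

/-- the block components of effective vectors -/
theorem eff_sub (hCOV : S_COV) (h : StrB C G B β W A b) {E : Set (Fin m → ℝ)}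
    (hE : EffB C G E) : E ⊆ Bl W A b := by
  classical
  intro x hx i
  by_cases h0 : pr B β i x = 0
  · exact Or.inl (h.pr_eq_zero_iff.1 h0)
  · have hcont : Continuous (pr B β i) := LinearMap.continuous_of_finiteDimensional _
    have hopen : IsOpen {z | pr B β i z ≠ 0} := isOpen_ne_fun hcont continuous_const
    obtain ⟨ε, hε, hball⟩ := Metric.isOpen_iff.1 hopen x h0
    obtain ⟨t, ht1, ht2, ε', hε', ht3⟩ := hE.appr x hx ε hε
    have h1 : pr B β i (fun j => (t j : ℝ)) ≠ 0 := by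
      refine hball ?_
      rw [Metric.mem_ball, dist_pi_lt_iff hε]
      intro j
      rw [Real.dist_eq]
      exact ht1 j
    have h2 : (fun j => (t j : ℝ)) ∈ Bl W A b := by
      rw [← h.ratHull_eq hCOV]
      exact coneOf_self ⟨hE.sub ht2, fun j => ⟨t j, rfl⟩⟩
    rcases h2 i with h3 | h3
    · exact absurd (h.pr_eq_zero_iff.2 h3) h1
    · refine Or.inr fun ℓ hℓ => ?_
      have h4 : x = ε' • (fun j => (t j : ℝ)) + (x - ε' • (fun j => (t j : ℝ))) := by abel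
      have h5 := h.repr_nonneg (hE.sub ht3) ℓ
      rw [h4, map_add, Finsupp.add_apply, map_smul, Finsupp.smul_apply, smul_eq_mul]
      have h6 := mul_pos hε' (h3 ℓ hℓ)
      linarith

/-- blocks with an effective vector -/
theorem eff_block (h : StrB C G B β W A b) {E : Set (Fin m → ℝ)}
    (hE : EffB C G E) (hEB : E ⊆ Bl W A b) {i : Fin k} {e : Fin m → ℝ} (he : e ∈ E) (he0 : e ≠ 0)
    (hei : pr B β i e = e) {x : Fin m → ℝ} (hx : ∀ ℓ : W, ℓ.1 ∈ A i → 0 < b.repr x ℓ) :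
    pr B β i x ∈ E := by
  classical
  obtain ⟨Q, hQ⟩ : ∃ Q : Set (Fin m → ℝ), Q = {x | pr B β i x ∈ E} := ⟨_, rfl⟩
  have hmem : ∀ x, x ∈ Q ↔ pr B β i x ∈ E := fun x => by rw [hQ]; rfl
  have hE0 : (0 : Fin m → ℝ) ∈ E := by
    have := hE.smul 0 le_rfl _ he
    rwa [zero_smul] at this
  have hconv : Convex ℝ Q := by
    intro a ha b hb s t hs ht _
    rw [hmem] at ha hb ⊢
    rw [map_add, map_smul, map_smul]
    exact hE.add _ (hE.smul s hs _ ha) _ (hE.smul t ht _ hb)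
  -- the eigenvectors of the block
  obtain ⟨D', hD'⟩ : ∃ D' : Set (Fin m → ℝ), D' = {x | x ∈ E ∧ pr B β i x = x} := ⟨_, rfl⟩
  have hsm : ∀ t : ℝ, 0 ≤ t → ∀ x ∈ closure D', t • x ∈ closure D' := by
    intro t ht x hx
    refine map_mem_closure (f := fun x => t • x) (continuous_const_smul t) hx fun z hz => ?_
    rw [hD'] at hz ⊢
    exact ⟨hE.smul t ht _ hz.1, by rw [map_smul, hz.2]⟩
  have hpr : ∀ v, ∀ x ∈ closure D', G v x ∈ closure D' := by
    intro v x hx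
    refine map_mem_closure (f := G v) (LinearMap.continuous_of_finiteDimensional (G v)) hx
      fun z hz => ?_
    rw [hD'] at hz ⊢
    exact ⟨hE.pres v _ hz.1, by rw [h.bact.pr_G, hz.2]⟩
  have hDQ : D' ⊆ Q := by
    intro z hz
    rw [hD'] at hz
    rw [hmem, hz.2]
    exact hz.1
  have hepos : ∀ ℓ : W, ℓ.1 ∈ A i → 0 < b.repr e ℓ := by
    rcases hEB he i with h1 | h1
    · exfalso
      apply he0
      rw [← hei]
      exact h.pr_eq_zero_iff.2 h1
    · exact h1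
  have hbD : ∀ ℓ : W, ℓ.1 ∈ A i → b ℓ ∈ closure Q := by
    intro ℓ hℓ
    have h1 := h.limit isClosed_closure hsm hpr (subset_closure (s := D') (by
      rw [hD']
      exact ⟨he, hei⟩)) ℓ
    have h2 := hepos ℓ hℓ
    have h3 := hsm (b.repr e ℓ)⁻¹ (inv_nonneg.2 h2.le) _ h1
    rw [smul_smul, inv_mul_cancel₀ h2.ne', one_smul] at h3
    exact closure_mono hDQ h3
  have hbN : ∀ ℓ : W, ℓ.1 ∉ A i → ∀ t : ℝ, t • b ℓ ∈ Q := by
    intro ℓ hℓ t
    rw [hmem, map_smul, h.projn i ℓ hℓ, smul_zero]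
    exact hE0
  have hQadd : ∀ x ∈ closure Q, ∀ z ∈ closure Q, x + z ∈ closure Q := by
    intro x hx z hz
    have hQa : ∀ x ∈ Q, ∀ z ∈ Q, x + z ∈ Q := by
      intro x hx z hz
      rw [hmem] at hx hz ⊢
      rw [map_add]
      exact hE.add _ hx _ hz
    exact map_mem_closure₂ continuous_add hx hz hQa
  have hQsm : ∀ t : ℝ, 0 ≤ t → ∀ x ∈ closure Q, t • x ∈ closure Q := by
    intro t ht x hx
    refine map_mem_closure (f := fun x => t • x) (continuous_const_smul t) hx fun z hz => ?_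
    rw [hmem] at hz ⊢
    rw [map_smul]
    exact hE.smul t ht _ hz
  have hQ0 : (0 : Fin m → ℝ) ∈ Q := by
    rw [hmem, map_zero]
    exact hE0
  -- the closure contains an open set
  have hclo : ∀ x : Fin m → ℝ, (∀ ℓ : W, ℓ.1 ∈ A i → 0 ≤ b.repr x ℓ) → x ∈ closure Q := by
    intro x hx
    rw [← b.sum_repr x]
    refine Finset.sum_induction _ (· ∈ closure Q) (fun a b ha hb => hQadd a ha b hb)
      (subset_closure hQ0) fun ℓ _ => ?_
    by_cases hℓ : ℓ.1 ∈ A i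
    · exact hQsm _ (hx ℓ hℓ) _ (hbD ℓ hℓ)
    · exact subset_closure (hbN ℓ hℓ _)
  have hspan : Submodule.span ℝ Q = ⊤ := by
    have hcl : IsClosed (Submodule.span ℝ Q : Set (Fin m → ℝ)) :=
      Submodule.closed_of_finiteDimensional _
    have h1 : closure Q ⊆ Submodule.span ℝ Q :=
      hcl.closure_subset_iff.2 Submodule.subset_span
    rw [eq_top_iff, ← b.span_eq, Submodule.span_le]
    rintro _ ⟨ℓ, rfl⟩
    by_cases hℓ : ℓ.1 ∈ A i
    · exact h1 (hbD ℓ hℓ)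
    · have h2 := hbN ℓ hℓ 1
      rw [one_smul] at h2
      exact Submodule.subset_span h2
  have hint : (interior Q).Nonempty := by
    rw [hconv.interior_nonempty_iff_affineSpan_eq_top,
      AffineSubspace.affineSpan_eq_top_iff_vectorSpan_eq_top_of_nonempty ℝ _ _ ⟨0, hQ0⟩,
      eq_top_iff, ← hspan, Submodule.span_le]
    intro z hz
    have h3 := vsub_mem_vectorSpan ℝ hz hQ0
    rw [vsub_eq_sub, sub_zero] at h3
    exact h3
  have hopen : IsOpen {z : Fin m → ℝ | ∀ ℓ : W, ℓ.1 ∈ A i → 0 < b.repr z ℓ} := by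
    have : {z : Fin m → ℝ | ∀ ℓ : W, ℓ.1 ∈ A i → 0 < b.repr z ℓ} =
        ⋂ ℓ : W, {z | ℓ.1 ∈ A i → 0 < b.repr z ℓ} := by
      ext z
      simp
    rw [this]
    refine isOpen_iInter_of_finite fun ℓ => ?_
    by_cases hℓ : ℓ.1 ∈ A i
    · have h2 : {z : Fin m → ℝ | ℓ.1 ∈ A i → 0 < b.repr z ℓ} = {z | 0 < b.repr z ℓ} := by
        ext z
        exact ⟨fun h3 => h3 hℓ, fun h3 _ => h3⟩
      rw [h2]
      exact isOpen_lt continuous_const (continuous_repr b ℓ)
    · have h2 : {z : Fin m → ℝ | ℓ.1 ∈ A i → 0 < b.repr z ℓ} = Set.univ := by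
        ext z
        exact ⟨fun _ => trivial, fun _ h3 => absurd h3 hℓ⟩
      rw [h2]
      exact isOpen_univ
  have h1 : x ∈ interior (closure Q) :=
    interior_maximal (fun z hz => hclo z fun ℓ hℓ => (hz ℓ hℓ).le) hopen hx
  rw [hconv.interior_closure_eq_interior_of_nonempty_interior hint] at h1
  exact (hmem x).1 (interior_subset h1)

/-- the effective vectors are the combinations of rational vectors of the cone if and only if
every block contains an effective vector -/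
theorem eff_iff (hCOV : S_COV) (h : StrB C G B β W A b) {E : Set (Fin m → ℝ)}
    (hE : EffB C G E) : (∀ i, ∃ e ∈ E, e ≠ 0 ∧ pr B β i e = e) ↔ E = ratHull C := by
  classical
  have hsub := h.eff_sub hCOV hE
  rw [h.ratHull_eq hCOV]
  obtain ⟨x₀, hx₀⟩ := h.bact.act.int
  have hx₀E := hE.int hx₀
  have hE0 : (0 : Fin m → ℝ) ∈ E := by
    have := hE.smul 0 le_rfl _ hx₀E
    rwa [zero_smul] at this
  constructor
  · intro h1
    apply Set.Subset.antisymm hsub
    intro x hx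
    rw [← sum_pr (B := B) (β := β) x]
    refine Finset.sum_induction _ (· ∈ E) (fun a b ha hb => hE.add a ha b hb) hE0 fun i _ => ?_
    rcases hx i with h2 | h2
    · rw [h.pr_eq_zero_iff.2 h2]
      exact hE0
    · obtain ⟨e, he, he0, hei⟩ := h1 i
      exact h.eff_block hE hsub he he0 hei h2
  · intro h1 i
    have h2 : ∀ ℓ : W, ℓ.1 ∈ A i → 0 < b.repr x₀ ℓ := fun ℓ _ => h.interior_iff.1 hx₀ ℓ
    refine ⟨pr B β i x₀, ?_, fun h3 => ?_, ?_⟩
    · rw [h1]
      exact h.pr_Bl h2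
    · obtain ⟨ℓ, hℓ⟩ := h.A_ne i
      have h4 := h2 ℓ hℓ
      rw [h.pr_eq_zero_iff.1 h3 ℓ hℓ] at h4
      exact lt_irrefl _ h4
    · rw [pr_pr, if_pos rfl]

/-- **The fundamental domain.** -/
theorem hasFD (hCOV : S_COV) (h : StrB C G B β W A b) {H : Type} [Group H]
    {pull : H → ((Fin m → ℝ) ≃ₗ[ℝ] (Fin m → ℝ))} (hmul : ∀ f g, pull (f * g) = pull g * pull f)
    (hL : ∀ f, ∀ x ∈ IntL m, pull f x ∈ IntL m) (hC : ∀ f, ∀ x ∈ C, pull f x ∈ C)
    (hG : ∀ v, ∃ f, ∀ x, pull f x = G v x) : HasFD pull (ratHull C) := by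
  classical
  obtain ⟨D, hD, hDi⟩ := exists_den (B := B) β h.bact.int
  obtain ⟨F, hF, hcov⟩ := h.cover hCOV hD hDi
  have heq := h.ratHull_eq hCOV
  have hcoeF : ∀ a ∈ F, a ∈ ratHull C := fun a ha => by
    rw [heq]
    exact (hF a ha).1
  refine HasFD.of_cover (C := C) ⟨h.bact.act.pc.closed, h.bact.act.pc.add, h.bact.act.pc.smul,
    h.bact.act.pc.pointed, h.bact.act.int, ?_, ?_, ?_, ?_⟩ hmul hL (fun f x hx => ?_)
    (fun x hx => ?_) F (fun a ha => ⟨(hF a ha).2, hcoeF a ha⟩) (fun x hx => ?_)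
  · rw [heq]
    exact h.Bl_sub
  · rw [heq]
    exact h.int_sub_Bl
  · intro x hx z hz
    exact coneOf_add hx hz
  · intro t ht x hx
    exact coneOf_smul hx ht
  · refine Pool.Agent.N110.CC.coneOf_map (pull f : (Fin m → ℝ) →ₗ[ℝ] (Fin m → ℝ)) ?_ hx
    rintro z ⟨hz, hq⟩
    refine ⟨hC f z hz, fun i => ?_⟩
    choose q hq using hq
    obtain ⟨d, w, hd, hw⟩ := Pool.Agent.N340.CC.common q
    have hd' : (0 : ℝ) < d := by exact_mod_cast hd
    obtain ⟨n, hn⟩ := hL f ((d : ℝ) • z) (fun j => ⟨w j, by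
      have h2 := congrFun hw j
      rw [Pi.smul_apply, smul_eq_mul] at h2
      have h3 : ((w j : ℤ) : ℚ) = d * q j := h2
      have h4 := congrArg (fun q : ℚ => (q : ℝ)) h3
      push_cast at h4
      rw [Pi.smul_apply, smul_eq_mul, hq]
      exact h4.symm⟩) i
    rw [map_smul, Pi.smul_apply, smul_eq_mul] at hn
    refine ⟨(n : ℚ) / d, ?_⟩
    show pull f z i = _
    push_cast
    rw [eq_div_iff hd'.ne', mul_comm]
    exact hn
  · rw [heq] at hx
    obtain ⟨v, hv⟩ := hcov x hx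
    have h1 := cone_image (G (-v)) hv
    rw [h.bact.act.inv_apply] at h1
    refine ⟨F.image (G (-v)), fun a ha => ?_, h1⟩
    obtain ⟨a', ha', rfl⟩ := Finset.mem_image.1 ha
    refine ⟨h.bact.gint _ _ (hF a' ha').2, ?_⟩
    rw [heq]
    exact h.G_Bl _ (hF a' ha').1
  · obtain ⟨v, hv⟩ := hcov x (h.int_sub_Bl hx)
    obtain ⟨f, hf⟩ := hG v
    exact ⟨f, by rw [hf]; exact hv⟩

end StrB

end Run7.h528.MB
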