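import Pool.Agent.N110.CC.WDefs

/-!
# Definitions: invariant blocks of divisor classes
-/

set_option autoImplicit false

open FF Pool.Agent.W602.GT Pool.Agent.Y172 Pool.Agent.R887 Pool.Agent.N110.CC

namespace Run7.h528.MB

section

variable {K : Type} [Field K] [Algebra ℂ K] {N ρ k m : ℕ}

/-- The classes `u j` in `N¹(X) = ℤ ^ ρ` are divided into `k` blocks, `u j` being in the block `β j`.
The pull back of divisor classes by the pseudo-automorphism `f` of `X` with `φ = f^*` maps, for all
`i`, the group generated by the classes `u j` of the block `i` into itself. -/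
def PreservesBlocks (y : Fin (N + 1) → K) (c : Place ℂ K → Fin ρ → ℤ) (u : Fin m → Fin ρ → ℤ)
    (β : Fin m → Fin k) (φ : K ≃ₐ[ℂ] K) : Prop :=
  ∀ T, IsPullBack y c φ T → ∀ j, ∃ a : Fin m → ℤ, (∀ l, β l ≠ β j → a l = 0) ∧
    T (fun i => (u j i : ℝ)) = comb u (fun l => (a l : ℝ))

end

end Run7.h528.MB
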