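import Pool.Agent.Run7.h528.MB.Cover

/-!
# The simplicial description of the cones
-/

set_option autoImplicit false

namespace Run7.h528.MB

open Pool.Agent.N110.CC (Frm ev)

variable {r k m : ℕ} {C : Set (Fin m → ℝ)}
  {G : (Fin r → ℤ) → ((Fin m → ℝ) →ₗ[ℝ] (Fin m → ℝ))}
  {B : Module.Basis (Fin m) ℝ (Fin m → ℝ)} {β : Fin m → Fin k}

namespace StrB

variable {W : Finset (Frm r)} {A : Fin k → Finset (Frm r)} {b : Module.Basis W ℝ (Fin m → ℝ)}

theorem exists_equiv (h : StrB C G B β W A b) : ∃ e : Fin m ≃ W, ∀ j, (e j).1 ∈ A (β j) := by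
  classical
  have h1 : ∀ i, Nonempty ({j // β j = i} ≃ {ℓ // ℓ ∈ A i}) := fun i => by
    refine ⟨Fintype.equivOfCardEq ?_⟩
    rw [Fintype.card_coe, h.blk.key.1 i]
  have e1 := fun i => Classical.choice (h1 i)
  obtain ⟨f, hf⟩ : ∃ f : Fin m → W, ∀ j, f j = ⟨(e1 (β j) ⟨j, rfl⟩).1,
      h.blk.sub _ (e1 (β j) ⟨j, rfl⟩).2⟩ := ⟨_, fun _ => rfl⟩
  have hfA : ∀ j, (f j).1 ∈ A (β j) := fun j => by
    rw [hf]
    exact (e1 (β j) ⟨j, rfl⟩).2
  have hinj : Function.Injective f := by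
    intro j j' hjj
    have hβ : β j = β j' := by
      refine h.blk.disj (ℓ := (f j).1) (hfA j) ?_
      rw [hjj]
      exact hfA j'
    have h2 : (f j).1 = (f j').1 := congrArg Subtype.val hjj
    rw [hf, hf] at h2
    have h3 : ∀ (i : Fin k) (hj : β j = i) (hj' : β j' = i),
        (e1 i ⟨j, hj⟩).1 = (e1 i ⟨j', hj'⟩).1 → j = j' := by
      intro i hj hj' h4
      have h5 := (e1 i).injective (Subtype.ext h4)
      exact congrArg Subtype.val h5
    have h6 : ∀ (i i' : Fin k) (hi : i = i') (p : {j // β j = i}),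
        (e1 i p).1 = (e1 i' ⟨p.1, p.2.trans hi⟩).1 := by
      intro i i' hi p
      subst hi
      rfl
    have h7 := h6 (β j) (β j') hβ ⟨j, rfl⟩
    exact h3 (β j') hβ rfl (h7.symm.trans h2)
  have hcard : Fintype.card (Fin m) = Fintype.card W := by
    rw [Fintype.card_fin, Fintype.card_coe, h.blk.card_W, ← h.bact.dim]
  have hbij := (Fintype.bijective_iff_injective_and_card f).2 ⟨hinj, hcard⟩
  exact ⟨Equiv.ofBijective f hbij, hfA⟩

/-- the simplicial description -/
theorem desc (h : StrB C G B β W A b) : ∃ b' : Fin m → Fin m → ℝ, LinearIndependent ℝ b' ∧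
    (∀ j, pr B β (β j) (b' j) = b' j) ∧
    (∀ x, x ∈ C ↔ ∃ a : Fin m → ℝ, (∀ j, 0 ≤ a j) ∧ x = ∑ j, a j • b' j) ∧
    ∀ x, x ∈ Bl W A b ↔ ∃ a : Fin m → ℝ, (∀ j, 0 ≤ a j) ∧
      (∀ j j', β j = β j' → a j = 0 → a j' = 0) ∧ x = ∑ j, a j • b' j := by
  classical
  obtain ⟨e, he⟩ := h.exists_equiv
  obtain ⟨b', hb'⟩ : ∃ b' : Module.Basis (Fin m) ℝ (Fin m → ℝ), b' = b.reindex e.symm := ⟨_, rfl⟩
  have hb1 : ∀ j, b' j = b (e j) := fun j => by
    rw [hb', Module.Basis.reindex_apply, Equiv.symm_symm]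
  have hb2 : ∀ x j, b'.repr x j = b.repr x (e j) := fun x j => by
    rw [hb', Module.Basis.repr_reindex_apply, Equiv.symm_symm]
  have hx1 : ∀ x, x = ∑ j, b.repr x (e j) • b' j := fun x => by
    conv_lhs => rw [← b'.sum_repr x]
    exact Finset.sum_congr rfl fun j _ => by rw [hb2]
  have hx2 : ∀ (a : Fin m → ℝ) x, x = ∑ j, a j • b' j → ∀ j, b.repr x (e j) = a j := by
    intro a x hx j
    rw [← hb2, hx, b'.repr_sum_self]
  refine ⟨b', b'.linearIndependent, fun j => ?_, fun x => ?_, fun x => ?_⟩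
  · rw [hb1]
    exact h.proj _ _ (he j)
  · constructor
    · intro hx
      exact ⟨fun j => b.repr x (e j), fun j => h.repr_nonneg hx _, hx1 x⟩
    · rintro ⟨a, ha, hx⟩
      rw [h.mem_iff]
      intro ℓ
      have h1 := hx2 a x hx (e.symm ℓ)
      rw [Equiv.apply_symm_apply] at h1
      rw [h1]
      exact ha _
  · constructor
    · intro hx
      refine ⟨fun j => b.repr x (e j), fun j => h.Bl_nonneg hx _, fun j j' hjj h0 => ?_, hx1 x⟩
      rcases hx (β j) with h1 | h1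
      · exact h1 (e j') (by rw [hjj]; exact he j')
      · have h2 := h1 (e j) (he j)
        have h0' : b.repr x (e j) = 0 := h0
        rw [h0'] at h2
        exact absurd h2 (lt_irrefl _)
    · rintro ⟨a, ha, ha2, hx⟩ i
      have h1 := hx2 a x hx
      by_cases h2 : ∃ j, β j = i ∧ a j = 0
      · obtain ⟨j, hj, hj0⟩ := h2
        refine Or.inl fun ℓ hℓ => ?_
        have h3 := h1 (e.symm ℓ)
        rw [Equiv.apply_symm_apply] at h3
        rw [h3]
        refine ha2 j _ ?_ hj0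
        rw [hj]
        have h4 := he (e.symm ℓ)
        rw [Equiv.apply_symm_apply] at h4
        exact h.blk.disj hℓ h4
      · push Not at h2
        refine Or.inr fun ℓ hℓ => ?_
        have h3 := h1 (e.symm ℓ)
        rw [Equiv.apply_symm_apply] at h3
        rw [h3]
        have h4 := he (e.symm ℓ)
        rw [Equiv.apply_symm_apply] at h4
        exact lt_of_le_of_ne (ha _) (Ne.symm (h2 _ (h.blk.disj h4 hℓ)))

end StrB

end Run7.h528.MB
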