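import Pool.Agent.Run7.h528.MB.SDefs
import Pool.Agent.N110.PA.NDefs
import Pool.Agent.N110.NV.Defs
import Pool.Agent.N110.CC.GStm

/-!
# Definitions: pull backs of divisor classes by finite morphisms, faces
-/

set_option autoImplicit false

open FF Pool.Agent.W602.GT Pool.Agent.Y172 Pool.Agent.R887
open Pool.Agent.N110 Pool.Agent.N110.PA Pool.Agent.N110.NV Pool.Agent.N492.PA Pool.Agent.N110.CC

namespace Run7.h528.MB

section

variable {K K' : Type} [Field K] [Algebra ℂ K] [Field K'] [Algebra ℂ K'] {N N' ρ k : ℕ}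

/-- The class `z` in `N¹(X') ⊗ ℝ` is the class of the pull back of the `ℚ`-divisor `L` by the
generically finite rational map `X' ⇢ X` given by the homomorphism `π` of the function fields: of
the divisor whose coefficient at the prime divisor `Q` of `X'` which lies over the prime divisor `P`
of `X`, with ramification index `e`, is `e` times the coefficient of `L` at `P`. -/
def IsPullBackClass (π : K →ₐ[ℂ] K') (y' : Fin (N' + 1) → K') (c' : Place ℂ K' → Fin ρ → ℤ)
    (L : Place ℂ K → ℚ) (z : Fin ρ → ℝ) : Prop :=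
  ∃ L' : Place ℂ K' → ℚ, {Q | IsPrimeDivisor y' Q ∧ L' Q ≠ 0}.Finite ∧
    (∀ Q P e, IsPrimeDivisor y' Q → LiesOver π Q P e → L' Q = e * L P) ∧
    z = toR (cls y' (cQ c') L')

/-- The rational map `X' ⇢ X` given by the homomorphism `π` of the function fields is a morphism: if
the place `Q` lies over the place `P` then `π` maps the local ring of `X` at the centre of `P` into
the local ring of `X'` at the centre of `Q`. -/
def IsMorphism (π : K →ₐ[ℂ] K') (y : Fin (N + 1) → K) (y' : Fin (N' + 1) → K') : Prop :=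
  ∀ Q P e, LiesOver π Q P e → ∀ f ∈ localRing y P, π f ∈ localRing y' Q

/-- The divisor `L` on `X`, `n` being the dimension of `X`, is `ℚ`-Cartier: for some `m ≥ 1` the
divisor `m L` is, at every point of `X` (the centre of a divisor `R` over `X`), the divisor of a
function `g⁻¹`. -/
def IsQCartier (y : Fin (N + 1) → K) (n : ℕ) (L : Place ℂ K → ℤ) : Prop :=
  ∃ m : ℕ, 1 ≤ m ∧ ∀ R, Divisorial n R → ∃ g : K, g ≠ 0 ∧
    ∀ P, IsPrimeDivisor y P → Through y P R → P.ord g + m * L P = 0

/-- `s` is the support of the class `z` (the set of the blocks where its component is not zero), and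
`z` and the sum of the `e i`, `i` in `s`, dominate each other with respect to the cone `D`: for some
`t ≥ 1` the classes `t z - ∑ e i` and `t ∑ e i - z` are in `D`. -/
def HasFace (u : Fin ρ → Fin ρ → ℤ) (β : Fin ρ → Fin k) (D : Set (Fin ρ → ℝ))
    (e : Fin k → Fin ρ → ℝ) (z : Fin ρ → ℝ) (s : Finset (Fin k)) : Prop :=
  IsBlockSupport u β z s ∧ ∃ t : ℕ, 1 ≤ t ∧ (t : ℝ) • z - ∑ i ∈ s, e i ∈ D ∧
    (t : ℝ) • ∑ i ∈ s, e i - z ∈ D

end

end Run7.h528.MB
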