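import Pool.Agent.Run7.h528.MB.SaFull
import Pool.Agent.Run7.h528.MB.QDefs
import Pool.Agent.N832.CC.NormA
import Pool.Agent.Y172.Loc3
import Pool.Agent.Y172.Cov2

/-!
# Semiample divisors and morphisms which are finite in codimension one
-/

set_option autoImplicit false
set_option linter.unusedSectionVars false
set_option linter.overlappingInstances false

open FF Pool.Agent.W602.GT Pool.Agent.Y172 Pool.Agent.R887 Pool.Agent.W619.PQ
open Pool.Agent.N110 Pool.Agent.N110.PA Pool.Agent.N110.NV Pool.Agent.N492.PA Pool.Agent.N110.CC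

namespace Run7.h528.MB

section

variable {K L : Type} [Field K] [Field L] [Algebra ℂ K] [Algebra ℂ L]
  [Algebra K L] [IsScalarTower ℂ K L] [FiniteDimensional K L]

/-- the coefficients of the minimal polynomial of a function which is regular over `P` -/
theorem coeff_reg (P : Place ℂ K) {u : L}
    (hu : ∀ (Q : Place ℂ L) (e : ℕ), Over Q P e → Q.Reg u) (i : ℕ) :
    P.Reg ((minpoly K u).coeff i) := by
  let iA : Algebra P.O L := ((algebraMap K L).comp P.O.subtype).toAlgebra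
  have hst : IsScalarTower P.O K L := IsScalarTower.of_algebraMap_eq fun _ => rfl
  have hint := Pool.Agent.N832.CC.integral_of_over P hu
  have hdvr : IsDiscreteValuationRing P.O := P.isDVR
  rw [minpoly.isIntegrallyClosed_eq_field_fractions' K hint, Polynomial.coeff_map]
  exact ((minpoly P.O u).coeff i).2

/-- the order of the coefficients of the minimal polynomial -/
theorem coeff_ord (P : Place ℂ K) {u : L} {c : ℤ} (hu0 : u ≠ 0)
    (hu : ∀ (Q : Place ℂ L) (e : ℕ), Over Q P e → -(e * c) ≤ Q.ord u) (i : ℕ)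
    (hi : (minpoly K u).coeff i ≠ 0) :
    -(((minpoly K u).natDegree - i : ℕ) * c) ≤ P.ord ((minpoly K u).coeff i) := by
  obtain ⟨τ, hτ0, hτ⟩ := P.surj
  have hτc : τ ^ c ≠ 0 := zpow_ne_zero _ hτ0
  have hτ0' : algebraMap K L (τ ^ c) ≠ 0 := by rwa [Ne, map_eq_zero]
  have h1 := coeff_reg P (u := (τ ^ c) • u) (fun Q e hQ => by
    right
    rw [Algebra.smul_def, Q.ord_mul hτ0' hu0, hQ.2, P.ord_zpow, hτ, mul_one]
    have := hu Q e hQ
    linarith) i
  rw [IsIntegrallyClosed.minpoly_smul hτc (Algebra.IsIntegral.isIntegral u),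
    Polynomial.coeff_scaleRoots] at h1
  have h2 := (P.reg_iff (mul_ne_zero hi (pow_ne_zero _ hτc))).1 h1
  rw [P.ord_mul hi (pow_ne_zero _ hτc), P.ord_pow, P.ord_zpow, hτ, mul_one] at h2
  linarith

/-- some coefficient of the minimal polynomial of a unit is a unit -/
theorem exists_unit_coeff {R' : Place ℂ L} {R : Place ℂ K} {e : ℕ} (h : Over R' R e) {u : L}
    (hu0 : u ≠ 0) (hu : R'.ord u = 0) {p : Polynomial K} (hp : p.Monic)
    (hroot : Polynomial.aeval u p = 0) (hreg : ∀ i, R.Reg (p.coeff i)) :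
    ∃ i, i < p.natDegree ∧ p.coeff i ≠ 0 ∧ R.ord (p.coeff i) = 0 := by
  classical
  by_contra hcon
  push Not at hcon
  obtain ⟨t, ht0, ht⟩ := R.surj
  have hc : ∀ i, i < p.natDegree → R.Reg (p.coeff i / t) := by
    intro i hi
    by_cases h0 : p.coeff i = 0
    · rw [h0, zero_div]
      exact R.reg_zero
    · right
      have h1 := (R.reg_iff h0).1 (hreg i)
      have h2 := hcon i hi h0
      rw [R.ord_div h0 ht0, ht]
      omega
  have hRreg : ∀ f : K, R.Reg f → R'.Reg (algebraMap K L f) := by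
    intro f hf
    rcases hf with hf | hf
    · rw [hf, map_zero]
      exact R'.reg_zero
    · right
      rw [h.2]
      have := h.1
      positivity
  have hS : R'.Reg (∑ i ∈ Finset.range p.natDegree,
      algebraMap K L (p.coeff i / t) * u ^ i) := by
    refine Finset.sum_induction _ R'.Reg (fun a b ha hb => R'.reg_add ha hb) R'.reg_zero
      fun i hi => R'.reg_mul (hRreg _ (hc i (Finset.mem_range.1 hi))) ?_
    right
    rw [R'.ord_pow, hu, mul_zero]
  have h1 : u ^ p.natDegree = -(algebraMap K L t * ∑ i ∈ Finset.range p.natDegree,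
      algebraMap K L (p.coeff i / t) * u ^ i) := by
    have h2 := hroot
    rw [Polynomial.aeval_eq_sum_range, Finset.sum_range_succ, hp.coeff_natDegree, one_smul] at h2
    rw [eq_neg_iff_add_eq_zero, Finset.mul_sum, ← h2, add_comm]
    congr 1
    refine Finset.sum_congr rfl fun i _ => ?_
    rw [← mul_assoc, ← map_mul, mul_div_cancel₀ _ ht0, Algebra.smul_def]
  have h3 : (∑ i ∈ Finset.range p.natDegree, algebraMap K L (p.coeff i / t) * u ^ i) ≠ 0 := by
    intro h4
    rw [h4, mul_zero, neg_zero] at h1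
    exact pow_ne_zero _ hu0 h1
  have ht0' : algebraMap K L t ≠ 0 := by rwa [Ne, map_eq_zero]
  have h5 := congrArg R'.ord h1
  rw [R'.ord_pow, hu, mul_zero, R'.ord_neg, R'.ord_mul ht0' h3, h.2, ht, mul_one] at h5
  have h6 := (R'.reg_iff h3).1 hS
  have h7 := h.1
  omega

end

section

variable {K : Type} [Field K] [Algebra ℂ K] {N : ℕ} {y : Fin (N + 1) → K}

/-- units of the local ring -/
theorem inv_mem_localRing {R : Place ℂ K} {f : K} (hf : f ∈ localRing y R) (hf0 : f ≠ 0)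
    (h0 : R.ord f = 0) : f⁻¹ ∈ localRing y R := by
  obtain ⟨j, h, a, ha, b, hb, hb0, hbo, hab⟩ := hf
  have ha0 : a ≠ 0 := by
    rw [← hab]
    exact mul_ne_zero hf0 hb0
  refine ⟨j, h, b, hb, a, ha, ha0, ?_, ?_⟩
  · rw [← hab, R.ord_mul hf0 hb0, h0, hbo, add_zero]
  · rw [← hab, ← mul_assoc, inv_mul_cancel₀ hf0, one_mul]

theorem ord_unit {R P : Place ℂ K} {f : K} (hf : f ∈ localRing y R) (hf0 : f ≠ 0)
    (h0 : R.ord f = 0) (hP : Through y P R) : P.ord f = 0 := by
  have h1 := (P.reg_iff hf0).1 (hP f hf)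
  have h2 := (P.reg_iff (inv_ne_zero hf0)).1 (hP _ (inv_mem_localRing hf hf0 h0))
  rw [P.ord_inv] at h2
  omega

end

section

variable {K K' : Type} [Field K] [Algebra ℂ K] [Field K'] [Algebra ℂ K'] {N N' n : ℕ}
  {y : Fin (N + 1) → K} {y' : Fin (N' + 1) → K'} {π : K →ₐ[ℂ] K'}

/-- a prime divisor through a point maps to a prime divisor through the image -/
theorem through_down (hmor : IsMorphism π y y') {R' Q : Place ℂ K'} {R P : Place ℂ K} {e e' : ℕ}
    (hR : LiesOver π R' R e) (hP : LiesOver π Q P e') (h : Through y' Q R') : Through y P R := by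
  intro f hf
  have h1 := h _ (hmor R' R e hR f hf)
  by_cases hf0 : f = 0
  · exact Or.inl hf0
  right
  have hf1 : π f ≠ 0 := by rwa [Ne, map_eq_zero]
  have h2 := (Q.reg_iff hf1).1 h1
  rw [hP.2] at h2
  have h3 : (0 : ℤ) < e' := by exact_mod_cast hP.1
  by_contra h4
  push Not at h4
  nlinarith

/-- the pull back of a base point free divisor -/
theorem free_up (hy' : NormalModel y') (hn : Algebra.trdeg ℂ K = n)
    (hn' : Algebra.trdeg ℂ K' = n) (hmor : IsMorphism π y y') (hπ : FiniteMap π y y')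
    {D : Place ℂ K → ℤ} (hD : IsFree y n D) {D' : Place ℂ K' → ℤ} (hD' : IsDiv y' D')
    (hrel : ∀ Q P e, IsPrimeDivisor y' Q → LiesOver π Q P e → D' Q = e * D P) :
    IsFree y' n D' := by
  have hess' := hy'.ess
  let _ : Algebra K K' := π.toRingHom.toAlgebra
  have hst : IsScalarTower ℂ K K' :=
    IsScalarTower.of_algebraMap_eq fun c => (π.commutes c).symm
  have hfd : FiniteDimensional K K' := finite_map hn hn'
  have hov : ∀ Q : Place ℂ K', LiesOver π Q (bel K Q) (ram K Q) := fun Q => over_bel K Q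
  refine ⟨hD', fun R' hR' => ?_⟩
  have hR : Divisorial n (bel K R') := divisorial_down (over_bel K R') hR'
  obtain ⟨f, hf0, h1, h2⟩ := hD.2 _ hR
  refine ⟨π f, by rwa [Ne, map_eq_zero], fun Q hQ => ?_, fun Q hQ hQR => ?_⟩
  · have h3 := h1 _ ((hπ Q _ _ (hov Q)).1 hQ)
    rw [(hov Q).2 f, hrel Q _ _ hQ (hov Q), ← mul_add]
    exact mul_nonneg (Nat.cast_nonneg _) h3
  · have h3 := h2 _ ((hπ Q _ _ (hov Q)).1 hQ) (through_down hmor (hov R') (hov Q) hQR)
    rw [(hov Q).2 f, hrel Q _ _ hQ (hov Q), ← mul_add, h3, mul_zero]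

/-- **Descent of semiampleness.** -/
theorem sa_down (hy : NormalModel y) (hy' : NormalModel y') (hn : Algebra.trdeg ℂ K = n)
    (hn' : Algebra.trdeg ℂ K' = n) (hmor : IsMorphism π y y') (hπ : FiniteMap π y y')
    {L : Place ℂ K → ℤ} (hL : IsDiv y L) (hC : IsQCartier y n L) {L' : Place ℂ K' → ℤ}
    (hrel : ∀ Q P e, IsPrimeDivisor y' Q → LiesOver π Q P e → L' Q = e * L P)
    (h : IsSemiample y' n L') : IsSemiample y n L := by
  classical
  have hess' := hy'.ess
  let _ : Algebra K K' := π.toRingHom.toAlgebra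
  have hst : IsScalarTower ℂ K K' :=
    IsScalarTower.of_algebraMap_eq fun c => (π.commutes c).symm
  have hfd : FiniteDimensional K K' := finite_map hn hn'
  obtain ⟨m₁, hm₁, hC⟩ := hC
  obtain ⟨m, hm, -, hfree⟩ := h
  obtain ⟨M, hM⟩ : ∃ M : ℕ, M = m * m₁ := ⟨_, rfl⟩
  obtain ⟨d, hd⟩ : ∃ d : ℕ, d = Module.finrank K K' := ⟨_, rfl⟩
  have hM1 : 1 ≤ M := by
    rw [hM]
    exact Nat.mul_pos hm hm₁
  refine ⟨d.factorial * M, Nat.mul_pos (Nat.factorial_pos d) hM1, ?_, fun R hR => ?_⟩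
  · refine hL.subset ?_
    rintro P ⟨hP, h4⟩
    exact ⟨hP, fun h5 => h4 (by
      show ((d.factorial * M : ℕ) : ℤ) * L P = 0
      rw [h5, mul_zero])⟩
  obtain ⟨g, hg0, hg⟩ := hC R hR
  obtain ⟨R', eR, hRR⟩ := exists_above (L := K') R
  have hRR' : LiesOver π R' R eR := hRR
  obtain ⟨f, hf0, hf1, hf2⟩ := hfree R' (divisorial_up hRR hR)
  beta_reduce at hf1 hf2
  have hov : ∀ Q : Place ℂ K', LiesOver π Q (bel K Q) (ram K Q) := fun Q => over_bel K Q
  have hbel : ∀ Q : Place ℂ K', IsPrimeDivisor y' Q → IsPrimeDivisor y (bel K Q) :=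
    fun Q hQ => (hπ Q _ _ (hov Q)).1 hQ
  obtain ⟨F, hF⟩ : ∃ F : K', F = f ^ m₁ := ⟨_, rfl⟩
  have hF0 : F ≠ 0 := by
    rw [hF]
    exact pow_ne_zero _ hf0
  obtain ⟨G, hG⟩ : ∃ G : K, G = g ^ m := ⟨_, rfl⟩
  have hG0 : G ≠ 0 := by
    rw [hG]
    exact pow_ne_zero _ hg0
  have hGi0 : G⁻¹ ≠ 0 := inv_ne_zero hG0
  have hGP : ∀ P, IsPrimeDivisor y P → Through y P R → P.ord G = -(M * L P) := by
    intro P hP hPR
    have h1 := hg P hP hPR
    rw [hG, P.ord_pow, hM]
    push_cast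
    have h2 : P.ord g = -(m₁ * L P) := by linarith
    rw [h2]
    ring
  -- the order of `F`
  have hFQ : ∀ Q P e, LiesOver π Q P e → IsPrimeDivisor y P → -(e * (M * L P)) ≤ Q.ord F := by
    intro Q P e hl hP
    have hQ : IsPrimeDivisor y' Q := (hπ Q P e hl).2 hP
    have h1 := hf1 Q hQ
    rw [hrel Q P e hQ hl] at h1
    rw [hF, Q.ord_pow, hM]
    push_cast
    have h2 : (0 : ℤ) ≤ m₁ := Nat.cast_nonneg _
    nlinarith
  have hFQ' : ∀ Q P e, LiesOver π Q P e → IsPrimeDivisor y P → Through y' Q R' →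
      Q.ord F = -(e * (M * L P)) := by
    intro Q P e hl hP hQR
    have hQ : IsPrimeDivisor y' Q := (hπ Q P e hl).2 hP
    have h1 := hf2 Q hQ hQR
    rw [hrel Q P e hQ hl] at h1
    rw [hF, Q.ord_pow, hM]
    push_cast
    have h2 : Q.ord f = -(m * (e * L P)) := by linarith
    rw [h2]
    ring
  -- the unit `u`
  obtain ⟨u, hu⟩ : ∃ u : K', u = G⁻¹ • F := ⟨_, rfl⟩
  have hπG : algebraMap K K' G⁻¹ ≠ 0 := by rwa [Ne, map_eq_zero]
  have hu0 : u ≠ 0 := by
    rw [hu, Algebra.smul_def]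
    exact mul_ne_zero hπG hF0
  have hordu : ∀ Q P e, LiesOver π Q P e → Q.ord u = Q.ord F - e * P.ord G := by
    intro Q P e hl
    rw [hu, Algebra.smul_def, Q.ord_mul hπG hF0]
    have h1 : Q.ord (algebraMap K K' G⁻¹) = e * P.ord G⁻¹ := hl.2 _
    rw [h1, P.ord_inv]
    ring
  have huQ : ∀ Q, IsPrimeDivisor y' Q → Through y' Q R' → Q.ord u = 0 := by
    intro Q hQ hQR
    have h1 := through_down hmor hRR' (hov Q) hQR
    rw [hordu Q _ _ (hov Q), hFQ' Q _ _ (hov Q) (hbel Q hQ) hQR, hGP _ (hbel Q hQ) h1]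
    ring
  have huR : R'.ord u = 0 := by
    have h1 : u ∈ localRing y' R' := mem_localRing_of_reg hy' fun Q hQ hQR =>
      Or.inr (huQ Q hQ hQR).ge
    have h2 : u⁻¹ ∈ localRing y' R' := mem_localRing_of_reg hy' fun Q hQ hQR =>
      Or.inr (by rw [Q.ord_inv, huQ Q hQ hQR, neg_zero])
    have h3 := (R'.reg_iff hu0).1 (localRing_reg h1)
    have h4 := (R'.reg_iff (inv_ne_zero hu0)).1 (localRing_reg h2)
    rw [R'.ord_inv] at h4
    omega
  -- the coefficients of its minimal polynomial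
  have hcoeff : ∀ i, (minpoly K u).coeff i ∈ localRing y R := by
    intro i
    refine mem_localRing_of_reg hy fun P hP hPR => coeff_reg P (fun Q e hQ => ?_) i
    have hl : LiesOver π Q P e := hQ
    right
    rw [hordu Q P e hl, hGP P hP hPR]
    have := hFQ Q P e hl hP
    linarith
  obtain ⟨i, hi, hi0, hiR⟩ := exists_unit_coeff hRR hu0 huR
    (minpoly.monic (Algebra.IsIntegral.isIntegral u)) (minpoly.aeval K u)
    fun i => localRing_reg (hcoeff i)
  have hmp : minpoly K u = (minpoly K F).scaleRoots G⁻¹ := by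
    rw [hu]
    exact IsIntegrallyClosed.minpoly_smul hGi0 (Algebra.IsIntegral.isIntegral F)
  have hdeg : (minpoly K u).natDegree = (minpoly K F).natDegree := by
    rw [hmp, Polynomial.natDegree_scaleRoots]
  obtain ⟨j, hj⟩ : ∃ j : ℕ, j = (minpoly K F).natDegree - i := ⟨_, rfl⟩
  have hj1 : 1 ≤ j := by omega
  have hjd : j ≤ d := by
    have h1 : (minpoly K F).natDegree ≤ Module.finrank K K' := minpoly.natDegree_le F
    omega
  obtain ⟨s, hs⟩ : ∃ s : K, s = (minpoly K F).coeff i := ⟨_, rfl⟩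
  have hsc : (minpoly K u).coeff i = s * (G⁻¹) ^ j := by
    rw [hmp, Polynomial.coeff_scaleRoots, hs, hj]
  have hs0 : s ≠ 0 := by
    intro h1
    rw [hsc, h1, zero_mul] at hi0
    exact hi0 rfl
  obtain ⟨w, hw⟩ : j ∣ d.factorial := Nat.dvd_factorial hj1 hjd
  have hsP : ∀ P, IsPrimeDivisor y P → 0 ≤ P.ord s + j * (M * L P) := by
    intro P hP
    have h1 := coeff_ord P (u := F) (c := M * L P) hF0 (fun Q e hQ => hFQ Q P e hQ hP) i
      (by rw [← hs]; exact hs0)
    rw [← hs, ← hj] at h1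
    linarith
  refine ⟨s ^ w, pow_ne_zero _ hs0, fun P hP => ?_, fun P hP hPR => ?_⟩
  · show 0 ≤ P.ord (s ^ w) + ((d.factorial * M : ℕ) : ℤ) * L P
    rw [P.ord_pow]
    have h1 := hsP P hP
    have h2 : (0 : ℤ) ≤ w := Nat.cast_nonneg _
    have h3 : ((d.factorial * M : ℕ) : ℤ) = j * w * M := by
      rw [hw]
      push_cast
      ring
    rw [h3]
    nlinarith
  · show P.ord (s ^ w) + ((d.factorial * M : ℕ) : ℤ) * L P = 0
    have h1 := ord_unit (hcoeff i) hi0 hiR hPR
    rw [hsc, P.ord_mul hs0 (pow_ne_zero _ hGi0), P.ord_pow, P.ord_inv, hGP P hP hPR] at h1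
    have h3 : ((d.factorial * M : ℕ) : ℤ) = j * w * M := by
      rw [hw]
      push_cast
      ring
    rw [P.ord_pow, h3]
    have h4 : P.ord s = -(j * (M * L P)) := by linarith
    rw [h4]
    ring

end

end Run7.h528.MB
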