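import Pool.Agent.Run7.h528.MB.QDefs

/-!
# Definitions: ample divisors and flips
-/

set_option autoImplicit false

open FF Pool.Agent.W602.GT Pool.Agent.Y172

namespace Run7.h528.MB

section

variable {K : Type} [Field K] [Algebra ℂ K] {N N' : ℕ}

/-- The divisor `D` on `X`, `n` being the dimension of `X`, is ample: for some `m, k ≥ 1` the divisor
`m D - k H`, `H` being a hyperplane section `y i = 0`, is base point free: for every point of `X`, the
centre of a divisor `R` over `X`, some section `g` of this divisor generates it there. -/
def IsAmple (y : Fin (N + 1) → K) (n : ℕ) (D : Place ℂ K → ℤ) : Prop :=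
  ∀ i, y i ≠ 0 → ∃ m : ℕ, 1 ≤ m ∧ ∃ k : ℕ, 1 ≤ k ∧ ∀ R, Divisorial n R → ∃ g : K, g ≠ 0 ∧
    (∀ P l, IsPrimeDivisor y P → Centred y l P → k * P.ord (y i / y l) - m * D P ≤ P.ord g) ∧
    ∀ P l, IsPrimeDivisor y P → Through y P R → Centred y l P →
      P.ord g = k * P.ord (y i / y l) - m * D P

/-- `X⁺` is a flip of `X` for the divisor `D`: there is a small contraction `φ : X → Z` onto a
projective variety `Z`, not an isomorphism, such that `- D` is `φ`-ample, and a small contraction
`φ⁺ : X⁺ → Z` such that the strict transform of `D` on `X⁺` is `φ⁺`-ample. (If `D = K_X + Δ` this is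
a flip in the sense of the minimal model program.) Here `A` is the pull back to `X` of a sufficiently
large multiple of an ample divisor on `Z`: `X` and `X⁺`, with the generic points `y` and `y⁺` with
coordinates in the same field, have the same prime divisors, `A - D` is ample on `X`, the strict
transform of `A + D` is ample on `X⁺`, and `A` is not ample on `X`. -/
structure IsFlip (y : Fin (N + 1) → K) (y' : Fin (N' + 1) → K) (n : ℕ) (D A : Place ℂ K → ℤ) :
    Prop where
  same : ∀ P, IsPrimeDivisor y P ↔ IsPrimeDivisor y' P
  neg : IsAmple y n (fun P => A P - D P)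
  pos : IsAmple y' n (fun P => A P + D P)
  contr : ¬ IsAmple y n A

end

end Run7.h528.MB
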