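import Pool.Agent.Run7.h528.MB.Cover

/-!
# Convex cones invariant by the action: the vectors with the same zero components
-/

set_option autoImplicit false

namespace Run7.h528.MB

open Pool.Agent.N110.CC (PC S_PF S_CE S_IND S_COV Frm ev ev_add ev_zero ev_neg ev_nsmul coneOf
  ratHull coneOf_self coneOf_smul coneOf_add coneOf_zero)
open Filter Topology

variable {r k m : ℕ} {C : Set (Fin m → ℝ)}
  {G : (Fin r → ℤ) → ((Fin m → ℝ) →ₗ[ℝ] (Fin m → ℝ))}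
  {B : Module.Basis (Fin m) ℝ (Fin m → ℝ)} {β : Fin m → Fin k}

namespace StrB

variable {W : Finset (Frm r)} {A : Fin k → Finset (Frm r)} {b : Module.Basis W ℝ (Fin m → ℝ)}

/-- the projection to the span of the `b ℓ`, `ℓ` in `S` -/
noncomputable def prS (b : Module.Basis W ℝ (Fin m → ℝ)) (S : Finset W) :
    (Fin m → ℝ) →ₗ[ℝ] (Fin m → ℝ) := ∑ ℓ ∈ S, (b.coord ℓ).smulRight (b ℓ)

theorem prS_apply (S : Finset W) (x : Fin m → ℝ) :
    prS b S x = ∑ ℓ ∈ S, b.repr x ℓ • b ℓ := by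
  unfold prS
  rw [LinearMap.sum_apply]
  rfl

theorem repr_prS (S : Finset W) (x : Fin m → ℝ) (ℓ : W) [Decidable (ℓ ∈ S)] :
    b.repr (prS b S x) ℓ = if ℓ ∈ S then b.repr x ℓ else 0 := by
  classical
  rw [prS_apply, map_sum, Finsupp.finsetSum_apply]
  simp only [map_smul, b.repr_self, Finsupp.smul_apply, smul_eq_mul]
  by_cases hℓ : ℓ ∈ S
  · rw [if_pos hℓ, Finset.sum_eq_single ℓ]
    · rw [Finsupp.single_eq_same, mul_one]
    · intro j _ hj
      rw [Finsupp.single_eq_of_ne (Ne.symm hj), mul_zero]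
    · intro h
      exact absurd hℓ h
  · rw [if_neg hℓ]
    refine Finset.sum_eq_zero fun j hj => ?_
    rw [Finsupp.single_eq_of_ne, mul_zero]
    rintro rfl
    exact hℓ hj

theorem prS_self {S : Finset W} {x : Fin m → ℝ} (hx : ∀ ℓ, ℓ ∉ S → b.repr x ℓ = 0) :
    prS b S x = x := by
  classical
  apply b.repr.injective
  ext ℓ
  rw [repr_prS]
  by_cases hℓ : ℓ ∈ S
  · rw [if_pos hℓ]
  · rw [if_neg hℓ, hx ℓ hℓ]

/-- **Faces.** -/
theorem face (h : StrB C G B β W A b) {E : Set (Fin m → ℝ)} (hEC : E ⊆ C)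
    (hadd : ∀ x ∈ E, ∀ z ∈ E, x + z ∈ E) (hsmul : ∀ t : ℝ, 0 ≤ t → ∀ x ∈ E, t • x ∈ E)
    (hpres : ∀ v, ∀ x ∈ E, G v x ∈ E) {e : Fin m → ℝ} (he : e ∈ E) {x : Fin m → ℝ} (hx : x ∈ C)
    (hpt : ∀ ℓ, b.repr x ℓ = 0 ↔ b.repr e ℓ = 0) : x ∈ E := by
  classical
  obtain ⟨S, hS⟩ : ∃ S : Finset W, S = Finset.univ.filter fun ℓ => b.repr e ℓ ≠ 0 := ⟨_, rfl⟩
  have hmS : ∀ ℓ, ℓ ∈ S ↔ b.repr e ℓ ≠ 0 := fun ℓ => by rw [hS]; simp
  obtain ⟨Q, hQ⟩ : ∃ Q : Set (Fin m → ℝ), Q = {x | prS b S x ∈ E} := ⟨_, rfl⟩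
  have hmem : ∀ x, x ∈ Q ↔ prS b S x ∈ E := fun x => by rw [hQ]; rfl
  have hE0 : (0 : Fin m → ℝ) ∈ E := by
    have := hsmul 0 le_rfl _ he
    rwa [zero_smul] at this
  have hconv : Convex ℝ Q := by
    intro a ha b' hb s t hs ht _
    rw [hmem] at ha hb ⊢
    rw [map_add, map_smul, map_smul]
    exact hadd _ (hsmul s hs _ ha) _ (hsmul t ht _ hb)
  have hcomm : ∀ v x, prS b S (G v x) = G v (prS b S x) := by
    intro v x
    apply b.repr.injective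
    ext ℓ
    rw [repr_prS, h.repr_G, h.repr_G, repr_prS]
    by_cases hℓ : ℓ ∈ S
    · rw [if_pos hℓ, if_pos hℓ]
    · rw [if_neg hℓ, if_neg hℓ, mul_zero]
  obtain ⟨D', hD'⟩ : ∃ D' : Set (Fin m → ℝ), D' = {x | x ∈ E ∧ prS b S x = x} := ⟨_, rfl⟩
  have hsm : ∀ t : ℝ, 0 ≤ t → ∀ x ∈ closure D', t • x ∈ closure D' := by
    intro t ht x hx
    refine map_mem_closure (f := fun x => t • x) (continuous_const_smul t) hx fun z hz => ?_
    rw [hD'] at hz ⊢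
    exact ⟨hsmul t ht _ hz.1, by rw [map_smul, hz.2]⟩
  have hpr : ∀ v, ∀ x ∈ closure D', G v x ∈ closure D' := by
    intro v x hx
    refine map_mem_closure (f := G v) (LinearMap.continuous_of_finiteDimensional (G v)) hx
      fun z hz => ?_
    rw [hD'] at hz ⊢
    exact ⟨hpres v _ hz.1, by rw [hcomm, hz.2]⟩
  have hDQ : D' ⊆ Q := by
    intro z hz
    rw [hD'] at hz
    rw [hmem, hz.2]
    exact hz.1
  have hepos : ∀ ℓ ∈ S, 0 < b.repr e ℓ := fun ℓ hℓ =>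
    lt_of_le_of_ne (h.repr_nonneg (hEC he) ℓ) (Ne.symm ((hmS ℓ).1 hℓ))
  have hbD : ∀ ℓ ∈ S, b ℓ ∈ closure Q := by
    intro ℓ hℓ
    have h1 := h.limit isClosed_closure hsm hpr (subset_closure (s := D') (by
      rw [hD']
      exact ⟨he, prS_self fun ℓ hℓ => by
        by_contra h0
        exact hℓ ((hmS ℓ).2 h0)⟩)) ℓ
    have h2 := hepos ℓ hℓ
    have h3 := hsm (b.repr e ℓ)⁻¹ (inv_nonneg.2 h2.le) _ h1
    rw [smul_smul, inv_mul_cancel₀ h2.ne', one_smul] at h3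
    exact closure_mono hDQ h3
  have hbN : ∀ ℓ, ℓ ∉ S → ∀ t : ℝ, t • b ℓ ∈ Q := by
    intro ℓ hℓ t
    have h0 : prS b S (t • b ℓ) = 0 := by
      apply b.repr.injective
      ext j
      rw [repr_prS, map_smul, b.repr_self, map_zero, Finsupp.zero_apply]
      by_cases hj : j ∈ S
      · rw [if_pos hj, Finsupp.smul_apply, Finsupp.single_eq_of_ne, smul_zero]
        rintro rfl
        exact hℓ hj
      · rw [if_neg hj]
    rw [hmem, h0]
    exact hE0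
  have hQadd : ∀ x ∈ closure Q, ∀ z ∈ closure Q, x + z ∈ closure Q := by
    intro x hx z hz
    have hQa : ∀ x ∈ Q, ∀ z ∈ Q, x + z ∈ Q := by
      intro x hx z hz
      rw [hmem] at hx hz ⊢
      rw [map_add]
      exact hadd _ hx _ hz
    exact map_mem_closure₂ continuous_add hx hz hQa
  have hQsm : ∀ t : ℝ, 0 ≤ t → ∀ x ∈ closure Q, t • x ∈ closure Q := by
    intro t ht x hx
    refine map_mem_closure (f := fun x => t • x) (continuous_const_smul t) hx fun z hz => ?_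
    rw [hmem] at hz ⊢
    rw [map_smul]
    exact hsmul t ht _ hz
  have hQ0 : (0 : Fin m → ℝ) ∈ Q := by
    rw [hmem, map_zero]
    exact hE0
  have hclo : ∀ x : Fin m → ℝ, (∀ ℓ ∈ S, 0 ≤ b.repr x ℓ) → x ∈ closure Q := by
    intro x hx
    rw [← b.sum_repr x]
    refine Finset.sum_induction _ (· ∈ closure Q) (fun a b ha hb => hQadd a ha b hb)
      (subset_closure hQ0) fun ℓ _ => ?_
    by_cases hℓ : ℓ ∈ S
    · exact hQsm _ (hx ℓ hℓ) _ (hbD ℓ hℓ)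
    · exact subset_closure (hbN ℓ hℓ _)
  have hspan : Submodule.span ℝ Q = ⊤ := by
    have hcl : IsClosed (Submodule.span ℝ Q : Set (Fin m → ℝ)) :=
      Submodule.closed_of_finiteDimensional _
    have h1 : closure Q ⊆ Submodule.span ℝ Q :=
      hcl.closure_subset_iff.2 Submodule.subset_span
    rw [eq_top_iff, ← b.span_eq, Submodule.span_le]
    rintro _ ⟨ℓ, rfl⟩
    by_cases hℓ : ℓ ∈ S
    · exact h1 (hbD ℓ hℓ)
    · have h2 := hbN ℓ hℓ 1
      rw [one_smul] at h2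
      exact Submodule.subset_span h2
  have hint : (interior Q).Nonempty := by
    rw [hconv.interior_nonempty_iff_affineSpan_eq_top,
      AffineSubspace.affineSpan_eq_top_iff_vectorSpan_eq_top_of_nonempty ℝ _ _ ⟨0, hQ0⟩,
      eq_top_iff, ← hspan, Submodule.span_le]
    intro z hz
    have h3 := vsub_mem_vectorSpan ℝ hz hQ0
    rw [vsub_eq_sub, sub_zero] at h3
    exact h3
  have hopen : IsOpen {z : Fin m → ℝ | ∀ ℓ ∈ S, 0 < b.repr z ℓ} := by
    have : {z : Fin m → ℝ | ∀ ℓ ∈ S, 0 < b.repr z ℓ} =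
        ⋂ ℓ : W, {z | ℓ ∈ S → 0 < b.repr z ℓ} := by
      ext z
      simp
    rw [this]
    refine isOpen_iInter_of_finite fun ℓ => ?_
    by_cases hℓ : ℓ ∈ S
    · have h2 : {z : Fin m → ℝ | ℓ ∈ S → 0 < b.repr z ℓ} = {z | 0 < b.repr z ℓ} := by
        ext z
        exact ⟨fun h3 => h3 hℓ, fun h3 _ => h3⟩
      rw [h2]
      exact isOpen_lt continuous_const (continuous_repr b ℓ)
    · have h2 : {z : Fin m → ℝ | ℓ ∈ S → 0 < b.repr z ℓ} = Set.univ := by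
        ext z
        exact ⟨fun _ => trivial, fun _ h3 => absurd h3 hℓ⟩
      rw [h2]
      exact isOpen_univ
  have hxS : ∀ ℓ ∈ S, 0 < b.repr x ℓ := fun ℓ hℓ => lt_of_le_of_ne (h.repr_nonneg hx ℓ)
    (Ne.symm fun h0 => (hmS ℓ).1 hℓ ((hpt ℓ).1 h0))
  have h1 : x ∈ interior (closure Q) :=
    interior_maximal (fun z hz => hclo z fun ℓ hℓ => (hz ℓ hℓ).le) hopen hxS
  rw [hconv.interior_closure_eq_interior_of_nonempty_interior hint] at h1
  have h2 := (hmem x).1 (interior_subset h1)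
  rwa [prS_self fun ℓ hℓ => (hpt ℓ).2 (by
    by_contra h0
    exact hℓ ((hmS ℓ).2 h0))] at h2

/-- vectors whose block components vanish at the same time have the same zero coordinates -/
theorem same (h : StrB C G B β W A b) {x e : Fin m → ℝ} (hx : x ∈ Bl W A b) (he : e ∈ Bl W A b)
    (hpt : ∀ i, pr B β i x = 0 ↔ pr B β i e = 0) (ℓ : W) :
    b.repr x ℓ = 0 ↔ b.repr e ℓ = 0 := by
  obtain ⟨i, hi⟩ := h.blk.ex ℓ.1 ℓ.2
  have key : ∀ z ∈ Bl W A b, b.repr z ℓ = 0 ↔ pr B β i z = 0 := by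
    intro z hz
    rcases hz i with h1 | h1
    · exact ⟨fun _ => h.pr_eq_zero_iff.2 h1, fun _ => h1 ℓ hi⟩
    · constructor
      · intro h2
        exact absurd h2 (h1 ℓ hi).ne'
      · intro h2
        exact h.pr_eq_zero_iff.1 h2 ℓ hi
  rw [key x hx, key e he]
  exact hpt i

/-- domination of vectors with the same zero coordinates -/
theorem dom (h : StrB C G B β W A b) {x e : Fin m → ℝ} (hx : x ∈ C)
    (hpt : ∀ ℓ, b.repr x ℓ = 0 → b.repr e ℓ = 0) :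
    ∃ t : ℕ, 1 ≤ t ∧ (t : ℝ) • x - e ∈ C := by
  classical
  have h1 : ∀ ℓ : W, ∃ t : ℕ, b.repr e ℓ ≤ t * b.repr x ℓ := by
    intro ℓ
    by_cases h0 : b.repr x ℓ = 0
    · refine ⟨0, ?_⟩
      rw [hpt ℓ h0]
      simp
    · have h2 : 0 < b.repr x ℓ := lt_of_le_of_ne (h.repr_nonneg hx ℓ) (Ne.symm h0)
      obtain ⟨t, ht⟩ := exists_nat_ge (b.repr e ℓ / b.repr x ℓ)
      exact ⟨t, (div_le_iff₀ h2).1 ht⟩
  choose t ht using h1
  refine ⟨∑ ℓ, t ℓ + 1, by omega, h.mem_iff.2 fun ℓ => ?_⟩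
  have h2 : t ℓ ≤ ∑ ℓ, t ℓ + 1 :=
    (Finset.single_le_sum (f := t) (fun _ _ => Nat.zero_le _) (Finset.mem_univ ℓ)).trans
      (Nat.le_succ _)
  have h3 : (t ℓ : ℝ) ≤ ((∑ ℓ, t ℓ + 1 : ℕ) : ℝ) := by exact_mod_cast h2
  have h4 := mul_le_mul_of_nonneg_right h3 (h.repr_nonneg hx ℓ)
  have h5 := ht ℓ
  rw [map_sub, map_smul, Finsupp.sub_apply, Finsupp.smul_apply, smul_eq_mul]
  linarith

end StrB

end Run7.h528.MB
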