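import Pool.Agent.Run7.h528.MB.Wrap

/-!
# Abelian groups of rank `ρ - k` with `k` invariant blocks of `N¹(X)`
-/

set_option autoImplicit false
set_option linter.unusedSectionVars false

open FF Pool.Agent.W602.GT Pool.Agent.Y172 Pool.Agent.R887
open Pool.Agent.N110 Pool.Agent.N110.PA Pool.Agent.N110.NV Pool.Agent.N492.PA Pool.Agent.N110.CC

namespace Run7.h528.MB

section

variable {K : Type} [Field K] [Algebra ℂ K] {N n r k ρ : ℕ} {y : Fin (N + 1) → K}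
  {c : Place ℂ K → Fin ρ → ℤ} {𝒮 : Subgroup (K ≃ₐ[ℂ] K)}

/-- the standard basis -/
def std (ρ : ℕ) : Fin ρ → Fin ρ → ℤ := fun j => Pi.single j 1

theorem comb_std (t : Fin ρ → ℝ) : comb (std ρ) t = t := by
  unfold comb std
  funext i
  rw [Finset.sum_apply, Finset.sum_eq_single i]
  · simp
  · intro j _ hj
    rw [Pi.smul_apply, Pi.single_eq_of_ne (Ne.symm hj)]
    simp
  · intro h
    exact absurd (Finset.mem_univ _) h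

theorem std_eq (j : Fin ρ) : (fun i => ((std ρ j i : ℤ) : ℝ)) = Pi.single j 1 := by
  funext i
  unfold std
  by_cases h : i = j
  · subst h
    simp
  · rw [Pi.single_eq_of_ne h, Pi.single_eq_of_ne h]
    simp

theorem std_li : LinearIndependent ℝ (fun (j : Fin ρ) i => ((std ρ j i : ℤ) : ℝ)) := by
  have h1 : (fun (j : Fin ρ) i => ((std ρ j i : ℤ) : ℝ)) = fun j => Pi.basisFun ℝ (Fin ρ) j := by
    funext j
    rw [std_eq, Pi.basisFun_apply]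
  rw [h1]
  exact (Pi.basisFun ℝ (Fin ρ)).linearIndependent

theorem std_span (hy : NormalModel y) (hc : PicardBasis y c) (h𝒮 : ∀ φ ∈ 𝒮, PseudoAut φ y) :
    ∀ ψ ∈ 𝒮, PreservesSpan y c (std ρ) ψ := by
  obtain ⟨M, hM⟩ := exists_rep hy hc h𝒮
  intro ψ hψ T hT j
  have h1 := pull_ext hc hT (hM.isPull ⟨ψ, hψ⟩)
  have h2 : ∀ i, ∃ m : ℤ, T (fun i => ((std ρ j i : ℤ) : ℝ)) i = m := by
    rw [h1, hM.TE_apply]
    exact TR_int _ fun i => ⟨_, rfl⟩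
  choose a ha using h2
  refine ⟨a, ?_⟩
  rw [comb_std]
  funext i
  exact ha i

theorem std_pull {ψ : K ≃ₐ[ℂ] K} {T : (Fin ρ → ℝ) ≃ₗ[ℝ] (Fin ρ → ℝ)} :
    IsPullBackOn y c (std ρ) ψ T ↔ IsPullBack y c ψ T := by
  constructor
  · rintro ⟨T', h1, h2⟩
    have h3 : T = T' := by
      apply LinearEquiv.ext
      intro t
      have h4 := h2 t
      rwa [comb_std, comb_std] at h4
    rw [h3]
    exact h1
  · intro h
    exact ⟨T, h, fun t => by rw [comb_std, comb_std]⟩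

/-- the conclusions about the cone `D` (the movable cone or the nef cone) -/
structure ConclF (y : Fin (N + 1) → K) (c : Place ℂ K → Fin ρ → ℤ) (𝒮 : Subgroup (K ≃ₐ[ℂ] K))
    (u : Fin ρ → Fin ρ → ℤ) (β : Fin ρ → Fin k) (D : Set (Fin ρ → ℝ)) : Prop where
  eq : D = closure (effCone y c)
  desc : ∃ b : Fin ρ → Fin ρ → ℝ, LinearIndependent ℝ b ∧
    (∀ j, ∃ a : Fin ρ → ℝ, (∀ l, β l ≠ β j → a l = 0) ∧ b j = comb u a) ∧
    (∀ x, x ∈ D ↔ ∃ a : Fin ρ → ℝ, (∀ j, 0 ≤ a j) ∧ x = ∑ j, a j • b j) ∧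
    ∀ x, x ∈ ratHull D ↔ ∃ a : Fin ρ → ℝ, (∀ j, 0 ≤ a j) ∧
      (∀ j j', β j = β j' → a j = 0 → a j' = 0) ∧ x = ∑ j, a j • b j
  fd : HasFundDomain {T | ∃ ψ ∈ 𝒮, IsPullBack y c ψ T} (ratHull D)
  sub : D ∩ effCone y c ⊆ ratHull D
  iff : (∀ i, ∃ a : Fin ρ → ℝ, a ≠ 0 ∧ (∀ l, β l ≠ i → a l = 0) ∧ comb u a ∈ effCone y c) ↔
    D ∩ effCone y c = ratHull D

theorem Concl.toF {u : Fin ρ → Fin ρ → ℤ} {β : Fin ρ → Fin k} {D : Set (Fin ρ → ℝ)}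
    (h : Concl y c 𝒮 (std ρ) u β D) : ConclF y c 𝒮 u β D := by
  have h1 : {t | comb (std ρ) t ∈ D} = D := by
    ext t
    show comb (std ρ) t ∈ D ↔ _
    rw [comb_std]
  have h2 : {t | comb (std ρ) t ∈ D ∩ effCone y c} = D ∩ effCone y c := by
    ext t
    show comb (std ρ) t ∈ D ∩ effCone y c ↔ _
    rw [comb_std]
  have h3 : {T | ∃ ψ ∈ 𝒮, IsPullBackOn y c (std ρ) ψ T} = {T | ∃ ψ ∈ 𝒮, IsPullBack y c ψ T} := by
    ext T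
    exact ⟨fun ⟨ψ, a, b⟩ => ⟨ψ, a, std_pull.1 b⟩, fun ⟨ψ, a, b⟩ => ⟨ψ, a, std_pull.2 b⟩⟩
  refine ⟨?_, ?_, ?_, ?_, ?_⟩
  · ext x
    have := h.eq x
    rwa [comb_std] at this
  · obtain ⟨b, h4, h5, h6, h7⟩ := h.desc
    refine ⟨b, h4, fun j => ?_, fun x => ?_, fun x => ?_⟩
    · obtain ⟨a, h8, h9⟩ := h5 j
      exact ⟨a, h8, by rwa [comb_std] at h9⟩
    · have := h6 x
      rwa [comb_std] at this
    · have := h7 x
      rwa [h1] at this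
  · have := h.fd
    rwa [h1, h3] at this
  · have := h.sub
    rwa [h1, h2] at this
  · have := h.iff
    rwa [h1, h2] at this

theorem ConclF.fde {u : Fin ρ → Fin ρ → ℤ} {β : Fin ρ → Fin k} {D : Set (Fin ρ → ℝ)}
    (h : ConclF y c 𝒮 u β D)
    (h' : ∀ i, ∃ a : Fin ρ → ℝ, a ≠ 0 ∧ (∀ l, β l ≠ i → a l = 0) ∧ comb u a ∈ effCone y c) :
    HasFundDomain {T | ∃ ψ ∈ 𝒮, IsPullBack y c ψ T} (D ∩ effCone y c) := by
  rw [h.iff.1 h']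
  exact h.fd

theorem full_mov (hy : NormalModel y) (hn : Algebra.trdeg ℂ K = n) (hn0 : 0 < n) (hr : 0 < r)
    (hc : PicardBasis y c) (h𝒮 : ∀ φ ∈ 𝒮, PseudoAut φ y) {φ : (Fin r → ℤ) → (K ≃ₐ[ℂ] K)}
    (hφ : ∀ u v, φ (u + v) = φ u * φ v) (hφ𝒮 : ∀ v, φ v ∈ 𝒮)
    (hent : ∀ v, v ≠ 0 → 1 < dynDegree (φ v) y n 1)
    {u : Fin ρ → Fin ρ → ℤ} (hu : LinearIndependent ℝ (fun j i => (u j i : ℝ)))
    {β : Fin ρ → Fin k} (hβ : ∀ i, ∃ j j', j ≠ j' ∧ β j = i ∧ β j' = i) (hρ : ρ = r + k)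
    (hbl : ∀ v, PreservesBlocks y c u β (φ v)) : ConclF y c 𝒮 u β (movCone y c) := by
  obtain ⟨i, hi⟩ := hy.ne
  obtain ⟨Hy, hHe, hH⟩ := exists_hyp hy hi
  obtain ⟨D, hDf, hDm, hD⟩ := Pool.Agent.N93.CC.leafHYP K N n ρ y hy hn hn0 c i hi Hy hHe hH
  obtain ⟨hE1, hE2⟩ := Pool.Agent.N40.CC.leafEFF K N ρ y hy c hc
  have h1 : toR (cls y (cQ c) Hy) ∈ interior (effCone y c) :=
    interior_maximal hE2 isOpen_interior (hyp_intN hy hc hi hHe hH)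
  refine Concl.toF (blocks_mov hy hn hn0 hr hc h𝒮 hφ hφ𝒮 hent std_li (std_span hy hc h𝒮) hu
    (fun j => ⟨u j, by rw [comb_std]⟩) hβ hρ hbl (t₀ := toR (cls y (cQ c) Hy)) ?_ ?_)
  · rw [comb_std]
    exact h1
  · rw [comb_std, ← hD]
    exact subset_closure (coneOf_self ⟨D, hDm, rfl⟩)

theorem full_nef (hy : NormalModel y) (hn : Algebra.trdeg ℂ K = n) (hn0 : 0 < n) (hr : 0 < r)
    (hc : PicardBasis y c) (h𝒮 : ∀ φ ∈ 𝒮, IsAut φ y) {φ : (Fin r → ℤ) → (K ≃ₐ[ℂ] K)}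
    (hφ : ∀ u v, φ (u + v) = φ u * φ v) (hφ𝒮 : ∀ v, φ v ∈ 𝒮)
    (hent : ∀ v, v ≠ 0 → 1 < dynDegree (φ v) y n 1)
    {u : Fin ρ → Fin ρ → ℤ} (hu : LinearIndependent ℝ (fun j i => (u j i : ℝ)))
    {β : Fin ρ → Fin k} (hβ : ∀ i, ∃ j j', j ≠ j' ∧ β j = i ∧ β j' = i) (hρ : ρ = r + k)
    (hbl : ∀ v, PreservesBlocks y c u β (φ v)) : ConclF y c 𝒮 u β (nefCone y n c) := by
  obtain ⟨i, hi⟩ := hy.ne
  obtain ⟨Hy, hHe, hH⟩ := exists_hyp hy hi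
  obtain ⟨D, hDf, hDm, hD⟩ := Pool.Agent.N93.CC.leafHYP K N n ρ y hy hn hn0 c i hi Hy hHe hH
  obtain ⟨hE1, hE2⟩ := Pool.Agent.N40.CC.leafEFF K N ρ y hy c hc
  have h1 : toR (cls y (cQ c) Hy) ∈ interior (effCone y c) :=
    interior_maximal hE2 isOpen_interior (hyp_intN hy hc hi hHe hH)
  refine Concl.toF (blocks_nef hy hn hn0 hr hc h𝒮 hφ hφ𝒮 hent std_li
    (std_span hy hc fun ψ hψ => isAut_psM hy (h𝒮 ψ hψ)) hu
    (fun j => ⟨u j, by rw [comb_std]⟩) hβ hρ hbl (t₀ := toR (cls y (cQ c) Hy)) ?_ ?_)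
  · rw [comb_std]
    exact h1
  · rw [comb_std, ← hD]
    exact subset_closure (coneOf_self ⟨D, hDf, rfl⟩)

end

end Run7.h528.MB
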