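import Pool.Agent.Run7.h528.MB.Appr
import Pool.Agent.Run7.h528.MB.Defs
import Pool.Agent.Run7.h528.MB.Desc

/-!
# The cones in a subspace of `N¹(X)` with an abelian group of rank `m - k` and `k` invariant blocks

Parts of the proof are those of helper110 and helper340 for groups of rank `m - 1`
(`Pool.Agent.N110.CC.mainW`).
-/

set_option autoImplicit false
set_option linter.unusedSectionVars false

open FF Pool.Agent.W602.GT Pool.Agent.Y172 Pool.Agent.R887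
open Pool.Agent.Y167 (cone cone_image cone_ind zero_mem_cone mem_cone_self cone_add cone_smul
  cone_mono)
open Pool.Agent.N110 Pool.Agent.N110.PA Pool.Agent.N110.NV Pool.Agent.N492.PA Pool.Agent.N110.CC
open Pool.Agent.N165.KM (interior_add_mem interior_smul_mem interior_sub exists_pos_functional HasFD
  Sandwich IntL)
open Filter Topology

namespace Run7.h528.MB

section

variable {K : Type} [Field K] [Algebra ℂ K] {N n r k m ρ : ℕ} {y : Fin (N + 1) → K}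
  {c : Place ℂ K → Fin ρ → ℤ} {𝒮 : Subgroup (K ≃ₐ[ℂ] K)}

/-- **The cones in a subspace with invariant blocks.** -/
theorem mainB (hy : NormalModel y) (hn : Algebra.trdeg ℂ K = n) (hn0 : 0 < n) (hr : 0 < r)
    (hc : PicardBasis y c) (h𝒮 : ∀ φ ∈ 𝒮, PseudoAut φ y) {φ : (Fin r → ℤ) → (K ≃ₐ[ℂ] K)}
    (hφ : ∀ u v, φ (u + v) = φ u * φ v) (hφ𝒮 : ∀ v, φ v ∈ 𝒮)
    (hent : ∀ v, v ≠ 0 → 1 < dynDegree (φ v) y n 1)
    {s : Fin m → Fin ρ → ℤ} (hli : LinearIndependent ℝ (fun j i => (s j i : ℝ)))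
    (hst : ∀ ψ ∈ 𝒮, PreservesSpan y c s ψ)
    {u : Fin m → Fin ρ → ℤ} (hu : LinearIndependent ℝ (fun j i => (u j i : ℝ)))
    (hus : ∀ j, ∃ a : Fin m → ℤ, (fun i => (u j i : ℝ)) = comb s (fun l => (a l : ℝ)))
    {β : Fin m → Fin k} (hβ : ∀ i, ∃ j j', j ≠ j' ∧ β j = i ∧ β j' = i) (hm : m = r + k)
    (hbl : ∀ v, PreservesBlocks y c u β (φ v)) {t₀ : Fin m → ℝ}
    (ht₀ : comb s t₀ ∈ interior (CE y c)) :
    (∀ D : Set (Fin ρ → ℝ), IsClosed D → (∀ x ∈ D, ∀ z ∈ D, x + z ∈ D) →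
      (∀ t : ℝ, 0 ≤ t → ∀ x ∈ D, t • x ∈ D) →
      (∀ ψ ∈ 𝒮, ∀ T, IsPullBack y c ψ T → ∀ x ∈ D, T x ∈ D) → comb s t₀ ∈ D →
      ∀ t, comb s t ∈ CE y c → comb s t ∈ D) ∧
    (∃ b : Fin m → Fin m → ℝ, LinearIndependent ℝ b ∧
      (∀ j, ∃ a : Fin m → ℝ, (∀ l, β l ≠ β j → a l = 0) ∧ comb s (b j) = comb u a) ∧
      (∀ t, comb s t ∈ CE y c ↔ ∃ a : Fin m → ℝ, (∀ j, 0 ≤ a j) ∧ t = ∑ j, a j • b j) ∧
      ∀ t, t ∈ ratHull {t | comb s t ∈ CE y c} ↔ ∃ a : Fin m → ℝ, (∀ j, 0 ≤ a j) ∧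
        (∀ j j', β j = β j' → a j = 0 → a j' = 0) ∧ t = ∑ j, a j • b j) ∧
    HasFundDomain {T' | ∃ ψ ∈ 𝒮, IsPullBackOn y c s ψ T'} (ratHull {t | comb s t ∈ CE y c}) ∧
    {t | comb s t ∈ effCone y c} ⊆ ratHull {t | comb s t ∈ CE y c} ∧
    ((∀ i, ∃ a : Fin m → ℝ, a ≠ 0 ∧ (∀ l, β l ≠ i → a l = 0) ∧ comb u a ∈ effCone y c) ↔
      {t | comb s t ∈ effCone y c} = ratHull {t | comb s t ∈ CE y c}) := by
  classical
  have hm0 : 0 < m := by omega
  have hρ : 0 < ρ := by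
    rcases Nat.eq_zero_or_pos ρ with h | h
    · exfalso
      subst h
      have h1 := hli.ne_zero (⟨0, hm0⟩ : Fin m)
      exact h1 (funext fun i => i.elim0)
    · exact h
  obtain ⟨M, hM⟩ := exists_rep hy hc h𝒮
  have hpc := pc_eff hc.numClasses
  obtain ⟨hE1, hE2⟩ := Pool.Agent.N40.CC.leafEFF K N ρ y hy c hc
  obtain ⟨e, he⟩ : ∃ e : Fin m → Fin ρ → ℝ, e = fun j i => (s j i : ℝ) := ⟨_, rfl⟩
  rw [← he] at hli
  obtain ⟨ι, hι⟩ : ∃ ι : (Fin m → ℝ) →ₗ[ℝ] (Fin ρ → ℝ), ∀ t, ι t = ∑ i, t i • e i :=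
    ⟨Fintype.linearCombination ℝ e, fun t => Fintype.linearCombination_apply ℝ e t⟩
  have hcomb : ∀ t, comb s t = ι t := fun t => by
    rw [hι, he]
    rfl
  have hιinj : ∀ t, ι t = 0 → t = 0 := by
    intro t ht
    rw [hι] at ht
    exact funext fun i => Fintype.linearIndependent_iff.1 hli t ht i
  have hinj : ∀ t u, ι t = ι u → t = u := fun t u h =>
    sub_eq_zero.1 (hιinj _ (by rw [map_sub, h, sub_self]))
  have hιs : ∀ j, ι (Pi.single j 1) = e j := by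
    intro j
    rw [hι, Finset.sum_eq_single j]
    · simp
    · intro i _ hij
      rw [Pi.single_eq_of_ne hij, zero_smul]
    · intro h
      exact absurd (Finset.mem_univ _) h
  have hιc : Continuous ι := LinearMap.continuous_of_finiteDimensional ι
  -- the matrices
  have hex : ∀ ψ ∈ 𝒮, ∀ j, ∃ a : Fin m → ℤ, TR (M ψ) (e j) = ι (fun i => (a i : ℝ)) := by
    intro ψ hψ j
    obtain ⟨a, ha⟩ := hst ψ hψ (hM.TE ⟨ψ, hψ⟩) (hM.isPull ⟨ψ, hψ⟩) j
    refine ⟨a, ?_⟩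
    rw [hM.TE_apply, hcomb] at ha
    rw [he]
    exact ha
  choose! a ha using hex
  obtain ⟨M', hM'⟩ : ∃ M' : (K ≃ₐ[ℂ] K) → Matrix (Fin m) (Fin m) ℤ,
      ∀ ψ i j, M' ψ i j = a ψ j i := ⟨fun ψ => Matrix.of fun i j => a ψ j i, fun _ _ _ => rfl⟩
  have hcomp : ∀ ψ ∈ 𝒮, ∀ t, ι (TR (M' ψ) t) = TR (M ψ) (ι t) := by
    intro ψ hψ
    have h1 : ι ∘ₗ TR (M' ψ) = TR (M ψ) ∘ₗ ι := by
      refine (Pi.basisFun ℝ (Fin m)).ext fun j => ?_
      rw [LinearMap.comp_apply, LinearMap.comp_apply, Pi.basisFun_apply, hιs, ha ψ hψ j]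
      congr 1
      funext i
      rw [TR, Matrix.toLin'_apply, Matrix.mulVec_single_one]
      show ((M' ψ i j : ℤ) : ℝ) = _
      rw [hM']
    exact fun t => LinearMap.congr_fun h1 t
  have hone : TR (M' 1) = 1 := LinearMap.ext fun t => hinj _ _ (by
    rw [hcomp 1 𝒮.one_mem, hM.one, TR_one]
    rfl)
  have hmul : ∀ ψ ∈ 𝒮, ∀ χ ∈ 𝒮, TR (M' (ψ * χ)) = TR (M' ψ) * TR (M' χ) := by
    intro ψ hψ χ hχ
    refine LinearMap.ext fun t => hinj _ _ ?_
    rw [hcomp _ (𝒮.mul_mem hψ hχ), hM.mul ψ hψ χ hχ, TR_mul]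
    show TR (M ψ) (TR (M χ) (ι t)) = ι (TR (M' ψ) (TR (M' χ) t))
    rw [hcomp ψ hψ, hcomp χ hχ]
  obtain ⟨TE', hTE'⟩ : ∃ TE' : 𝒮 → ((Fin m → ℝ) ≃ₗ[ℝ] (Fin m → ℝ)),
      ∀ ψ t, TE' ψ t = TR (M' ψ) t :=
    ⟨fun ψ => LinearEquiv.ofLinear (TR (M' ψ)) (TR (M' (ψ : K ≃ₐ[ℂ] K)⁻¹))
      (by
        show TR (M' ψ) * TR (M' (ψ : K ≃ₐ[ℂ] K)⁻¹) = 1
        rw [← hmul _ ψ.2 _ (𝒮.inv_mem ψ.2), mul_inv_cancel, hone])
      (by
        show TR (M' (ψ : K ≃ₐ[ℂ] K)⁻¹) * TR (M' ψ) = 1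
        rw [← hmul _ (𝒮.inv_mem ψ.2) _ ψ.2, inv_mul_cancel, hone]), fun _ _ => rfl⟩
  -- the cones
  obtain ⟨C', hC'⟩ : ∃ C' : Set (Fin m → ℝ), C' = ι ⁻¹' CE y c := ⟨_, rfl⟩
  obtain ⟨E', hE'⟩ : ∃ E' : Set (Fin m → ℝ), E' = ι ⁻¹' effCone y c := ⟨_, rfl⟩
  have hmem : ∀ t, t ∈ C' ↔ ι t ∈ CE y c := fun t => by rw [hC']; rfl
  have hmemE : ∀ t, t ∈ E' ↔ ι t ∈ effCone y c := fun t => by rw [hE']; rfl
  have hPC : PC C' := by
    refine ⟨?_, ?_, ?_, ?_⟩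
    · rw [hC']
      exact hpc.closed.preimage hιc
    · intro x hx z hz
      rw [hmem] at hx hz ⊢
      rw [map_add]
      exact hpc.add _ hx _ hz
    · intro b hb x hx
      rw [hmem] at hx ⊢
      rw [map_smul]
      exact hpc.smul b hb _ hx
    · intro x hx hx'
      rw [hmem] at hx hx'
      rw [map_neg] at hx'
      exact hιinj x (hpc.pointed _ hx hx')
  obtain ⟨x₀, hx₀⟩ : ∃ x₀ : Fin ρ → ℝ, x₀ = ι t₀ := ⟨_, rfl⟩
  have hq₀ : x₀ ∈ interior (CE y c) := by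
    rw [hx₀, ← hcomb]
    exact ht₀
  have ht₀int : t₀ ∈ interior C' := by
    rw [mem_interior]
    refine ⟨ι ⁻¹' interior (CE y c), ?_, isOpen_interior.preimage hιc, ?_⟩
    · rw [hC']
      exact Set.preimage_mono interior_subset
    · show ι t₀ ∈ interior (CE y c)
      rwa [← hx₀]
  have hint : ∀ x ∈ interior C', ι x ∈ interior (CE y c) := by
    intro x hx
    obtain ⟨ε, hε, hx'⟩ := interior_sub hx t₀
    have h1 : ι (x - ε • t₀) ∈ CE y c := (hmem _).1 (interior_subset hx')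
    have h2 : ι x = ε • x₀ + ι (x - ε • t₀) := by
      rw [map_sub, map_smul, ← hx₀]
      abel
    rw [h2]
    exact interior_add_mem hpc.add (interior_smul_mem hpc.smul hε hq₀) h1
  have hpres := pres_S hy hc hM
  have hpresE := presE_S hM
  -- growth
  have hφ0 : φ 0 = 1 := phi_zero hφ
  have hφn : ∀ v, φ (-v) = (φ v)⁻¹ := by
    intro v
    rw [eq_inv_iff_mul_eq_one, ← hφ, neg_add_cancel, hφ0]
  obtain ⟨a0, δ, ha0, hδ, hg⟩ := Pool.Agent.N27.CC.leafGROW K N n ρ r y hy hn hn0 hr hρ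
    c hc φ hφ (fun v => h𝒮 _ (hφ𝒮 v)) hent (fun v => M (φ v)) (by
      show M (φ 0) = 1
      rw [hφ0, hM.one]) (fun u v => by
      show M (φ (u + v)) = M (φ u) * M (φ v)
      rw [hφ, hM.mul _ (hφ𝒮 u) _ (hφ𝒮 v)]) (fun v P hP => by
      show (M (φ v)).mulVec (c P) = c (comap (φ (-v)) P)
      rw [hM.pull _ (hφ𝒮 v) P hP, hφn])
  obtain ⟨f, κ, hκ, hf⟩ := exists_pos_functional hpc.closed hpc.add hpc.smul hpc.pointed
  have hnorm : ∀ j, ∃ κ' : ℝ, 0 ≤ κ' ∧ ∀ v, ‖TR (M (φ v)) (Pi.single j 1)‖ ≤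
      κ' * ‖TR (M (φ v)) x₀‖ := by
    intro j
    obtain ⟨τ, hτ, hτ1⟩ := interior_sub hq₀ (Pi.single j 1)
    obtain ⟨τ', hτ', hτ2⟩ := interior_sub hq₀ (-(Pi.single j 1))
    refine ⟨τ'⁻¹ * ((τ + τ') / τ * ‖f‖ / κ + 1), by positivity, fun v => ?_⟩
    obtain ⟨z, hz⟩ : ∃ z, z = TR (M (φ v)) (Pi.single j 1) := ⟨_, rfl⟩
    obtain ⟨w, hw⟩ : ∃ w, w = TR (M (φ v)) x₀ := ⟨_, rfl⟩
    have h1 : w - τ • z ∈ CE y c := by
      have := hpres _ (hφ𝒮 v) _ (interior_subset hτ1)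
      rwa [map_sub, map_smul, ← hz, ← hw] at this
    have h2 : w + τ' • z ∈ CE y c := by
      have := hpres _ (hφ𝒮 v) _ (interior_subset hτ2)
      rw [map_sub, map_smul, map_neg, ← hz, ← hw, smul_neg, sub_neg_eq_add] at this
      exact this
    rw [← hz, ← hw]
    have h3 := hf _ h1
    have h4 := hf _ h2
    have h5 : τ' * f (w - τ • z) + τ * f (w + τ' • z) = (τ + τ') * f w := by
      rw [map_sub, map_add, map_smul, map_smul, smul_eq_mul, smul_eq_mul]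
      ring
    have h6 : f w ≤ ‖f‖ * ‖w‖ := (le_abs_self _).trans (f.le_opNorm w)
    have h7 : 0 ≤ f (w - τ • z) := le_trans (by positivity) h3
    have h8 : τ * (κ * ‖w + τ' • z‖) ≤ (τ + τ') * (‖f‖ * ‖w‖) := by
      have h9 := mul_le_mul_of_nonneg_left h4 hτ.le
      have h10 := mul_le_mul_of_nonneg_left h6 (add_pos hτ hτ').le
      have h11 := mul_nonneg hτ'.le h7
      linarith
    have h9 : ‖w + τ' • z‖ ≤ (τ + τ') / τ * ‖f‖ / κ * ‖w‖ := by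
      have e1 : (τ + τ') / τ * ‖f‖ / κ * ‖w‖ = (τ + τ') * (‖f‖ * ‖w‖) / (τ * κ) := by
        field_simp
      rw [e1, le_div_iff₀ (by positivity)]
      linarith
    have h10 : τ' * ‖z‖ ≤ ‖w + τ' • z‖ + ‖w‖ := by
      have e1 : ‖τ' • z‖ = τ' * ‖z‖ := by rw [norm_smul, Real.norm_eq_abs, abs_of_pos hτ']
      have e2 : τ' • z = (w + τ' • z) - w := by abel
      rw [← e1]
      conv_lhs => rw [e2]
      exact norm_sub_le _ _
    rw [mul_assoc, inv_mul_eq_div, le_div_iff₀ hτ']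
    linarith
  choose κ' hK0 hK using hnorm
  obtain ⟨Kt, hKt⟩ : ∃ Kt : ℝ, Kt = (∑ j, (ρ : ℝ) * κ' j) *
      (‖LinearMap.toContinuousLinearMap ι‖ * ‖t₀‖) + 1 := ⟨_, rfl⟩
  have hKs : 0 ≤ ∑ j, (ρ : ℝ) * κ' j := Finset.sum_nonneg fun j _ =>
    mul_nonneg (Nat.cast_nonneg _) (hK0 j)
  have hKt0 : 0 < Kt := by rw [hKt]; positivity
  have hgr : ∀ v, ∑ i, ∑ j, |(M (φ v) i j : ℝ)| ≤
      Kt * ∑ j, ‖TR (M' (φ v)) (Pi.single j 1)‖ := by
    intro v
    have h1 : ∑ i, ∑ j, |(M (φ v) i j : ℝ)| ≤ (∑ j, (ρ : ℝ) * κ' j) * ‖TR (M (φ v)) x₀‖ := by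
      rw [Finset.sum_comm, Finset.sum_mul]
      refine Finset.sum_le_sum fun j _ => ?_
      have h3 : ∀ i, |(M (φ v) i j : ℝ)| ≤ κ' j * ‖TR (M (φ v)) x₀‖ := by
        intro i
        have h4 := norm_le_pi_norm (TR (M (φ v)) (Pi.single j 1)) i
        have h5 : TR (M (φ v)) (Pi.single j 1) i = (M (φ v) i j : ℝ) := by
          rw [TR, Matrix.toLin'_apply, Matrix.mulVec_single_one]
          rfl
        rw [h5, Real.norm_eq_abs] at h4
        exact h4.trans (hK j v)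
      refine (Finset.sum_le_sum fun i _ => h3 i).trans (le_of_eq ?_)
      rw [Finset.sum_const, Finset.card_univ, Fintype.card_fin, nsmul_eq_mul]
      ring
    have h2 : ‖TR (M (φ v)) x₀‖ ≤ (‖LinearMap.toContinuousLinearMap ι‖ * ‖t₀‖) *
        ∑ j, ‖TR (M' (φ v)) (Pi.single j 1)‖ := by
      rw [hx₀, ← hcomp _ (hφ𝒮 v), mul_assoc]
      refine ((LinearMap.toContinuousLinearMap ι).le_opNorm (TR (M' (φ v)) t₀)).trans ?_
      refine mul_le_mul_of_nonneg_left ?_ (norm_nonneg _)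
      have h3 : TR (M' (φ v)) t₀ = ∑ j, t₀ j • TR (M' (φ v)) (Pi.single j 1) := by
        conv_lhs => rw [← Finset.univ_sum_single t₀]
        rw [map_sum]
        refine Finset.sum_congr rfl fun j _ => ?_
        rw [← map_smul]
        congr 1
        funext i
        by_cases hij : i = j
        · subst hij
          simp
        · rw [Pi.single_eq_of_ne hij, Pi.smul_apply, Pi.single_eq_of_ne hij, smul_zero]
      rw [h3, Finset.mul_sum]
      refine norm_sum_le_of_le _ fun j _ => ?_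
      rw [norm_smul]
      exact mul_le_mul_of_nonneg_right (norm_le_pi_norm t₀ j) (norm_nonneg _)
    have h3 : 0 ≤ ∑ j, ‖TR (M' (φ v)) (Pi.single j 1)‖ :=
      Finset.sum_nonneg fun _ _ => norm_nonneg _
    rw [hKt, add_mul, one_mul]
    have h4 := mul_le_mul_of_nonneg_left h2 hKs
    rw [← mul_assoc] at h4
    linarith
  have hact : ActM r m C' (fun v => TR (M' (φ v))) := by
    refine ⟨hm0, hPC, ⟨t₀, ht₀int⟩, ?_, fun u v => ?_, fun v x hx => ?_, a0 / Kt, δ,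
      div_pos ha0 hKt0, hδ, fun v => ?_⟩
    · show TR (M' (φ 0)) = 1
      rw [hφ0, hone]
    · show TR (M' (φ (u + v))) = TR (M' (φ u)) * TR (M' (φ v))
      rw [hφ, hmul _ (hφ𝒮 u) _ (hφ𝒮 v)]
    · rw [hmem] at hx ⊢
      rw [hcomp _ (hφ𝒮 v)]
      exact hpres _ (hφ𝒮 v) _ hx
    · rw [div_mul_eq_mul_div, div_le_iff₀ hKt0]
      have h1 := hg v
      have h2 := hgr v
      linarith
  -- the blocks
  choose p hp using hus
  have hpι : ∀ j, ι (fun l => (p j l : ℝ)) = fun i => (u j i : ℝ) := fun j => by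
    rw [← hcomb, hp j]
  have hpli : LinearIndependent ℝ (fun j => (fun l => (p j l : ℝ) : Fin m → ℝ)) := by
    refine LinearIndependent.of_comp ι ?_
    have h1 : (⇑ι ∘ fun j => (fun l => (p j l : ℝ) : Fin m → ℝ)) = fun j i => (u j i : ℝ) := by
      funext j
      exact hpι j
    rwa [h1]
  have hne : Nonempty (Fin m) := ⟨⟨0, hm0⟩⟩
  obtain ⟨B, hB⟩ : ∃ B : Module.Basis (Fin m) ℝ (Fin m → ℝ), ∀ j, B j = fun l => (p j l : ℝ) :=
    ⟨basisOfLinearIndependentOfCardEqFinrank hpli (by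
      rw [Fintype.card_fin, Module.finrank_fin_fun]), fun j => by
        rw [coe_basisOfLinearIndependentOfCardEqFinrank]⟩
  have hBι : ∀ j, ι (B j) = fun i => (u j i : ℝ) := fun j => by rw [hB, hpι]
  have hcombu : ∀ a : Fin m → ℝ, comb u a = ι (∑ l, a l • B l) := by
    intro a
    rw [map_sum]
    unfold comb
    refine Finset.sum_congr rfl fun l _ => ?_
    rw [map_smul, hBι]
  have hbact : BAct r k m C' (fun v => TR (M' (φ v))) B β := by
    refine ⟨hact, fun j i => ⟨p j i, by rw [hB]⟩, fun v j => ?_, hβ, hm, fun v x hx =>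
      TR_int _ hx⟩
    obtain ⟨a, ha0, ha1⟩ := hbl v (hM.TE ⟨φ v, hφ𝒮 v⟩) (hM.isPull ⟨φ v, hφ𝒮 v⟩) j
    refine ⟨a, ha0, hinj _ _ ?_⟩
    rw [hM.TE_apply, hcombu] at ha1
    rw [← ha1, hcomp _ (hφ𝒮 v), hBι]
  obtain ⟨W, A, b, st⟩ := exists_strB Pool.Agent.N386.CC.leafPF
    (Pool.Agent.N707.CC.leafCE Pool.Agent.N386.CC.leafPF)
    (Pool.Agent.N394.CC.leafIND Pool.Agent.N395.CC.leafSEP) hbact
  have hCOV := Pool.Agent.N362.CC.leafCOV
  have hsetC : {t | comb s t ∈ CE y c} = C' := by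
    ext t
    rw [hmem, ← hcomb]
    exact Iff.rfl
  have hsetE : {t | comb s t ∈ effCone y c} = E' := by
    ext t
    rw [hmemE, ← hcomb]
    exact Iff.rfl
  rw [hsetC, hsetE]
  -- effective classes
  have hEB : StrB.EffB C' (fun v => TR (M' (φ v))) E' := by
    refine ⟨fun x hx => (hmem x).2 (hE1 ((hmemE x).1 hx)),
      fun x hx => (hmemE x).2 (hE2 (hint x hx)), fun x hx z hz => ?_, fun t ht x hx => ?_,
      fun v x hx => ?_, fun x hx ε hε => ?_⟩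
    · rw [hmemE] at hx hz ⊢
      rw [map_add]
      exact coneOf_add hx hz
    · rw [hmemE] at hx ⊢
      rw [map_smul]
      exact coneOf_smul hx ht
    · rw [hmemE] at hx ⊢
      rw [hcomp _ (hφ𝒮 v)]
      exact hpresE _ (hφ𝒮 v) _ hx
    · rw [hmemE, ← hcomb] at hx
      obtain ⟨t', h1, h2, ε', hε', h3⟩ := eff_approxM hx hε
      refine ⟨t', h1, ?_, ε', hε', ?_⟩
      · rw [hmemE, ← hcomb]
        exact h2
      · rw [hmemE, ← hcomb]
        exact h3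
  refine ⟨fun D hcl hadd hsmul hD hx t ht => ?_, ?_, ?_, ?_, ?_⟩
  · have h1 := st.rigid (D := ι ⁻¹' D) (hcl.preimage hιc) (fun x hx z hz => by
      show ι (x + z) ∈ D
      rw [map_add]
      exact hadd _ hx _ hz) (fun b hb x hx => by
      show ι (b • x) ∈ D
      rw [map_smul]
      exact hsmul b hb _ hx) (fun v x hx => by
      show ι (TR (M' (φ v)) x) ∈ D
      rw [hcomp _ (hφ𝒮 v)]
      exact hD (φ v) (hφ𝒮 v) (hM.TE ⟨φ v, hφ𝒮 v⟩) (hM.isPull ⟨φ v, hφ𝒮 v⟩) _ hx)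
      (x := t₀) (by
        show ι t₀ ∈ D
        rw [← hcomb]
        exact hx) ht₀int
    rw [hcomb] at ht ⊢
    exact h1 ((hmem t).2 ht)
  · obtain ⟨b', h1, h2, h3, h4⟩ := st.desc
    refine ⟨b', h1, fun j => ?_, fun t => ?_, fun t => ?_⟩
    · refine ⟨fun l => if β l = β j then B.repr (b' j) l else 0, fun l hl => if_neg hl, ?_⟩
      rw [hcomb, hcombu]
      congr 1
      conv_lhs => rw [← h2 j, ← B.sum_repr (pr B β (β j) (b' j))]
      exact Finset.sum_congr rfl fun l _ => by rw [repr_pr]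
    · rw [hcomb, ← hmem]
      exact h3 t
    · rw [st.ratHull_eq hCOV]
      exact h4 t
  · -- the fundamental domain
    obtain ⟨pull, hpull⟩ : ∃ pull : 𝒮 → ((Fin m → ℝ) ≃ₗ[ℝ] (Fin m → ℝ)),
      ∀ ψ, pull ψ = TE' ψ⁻¹ := ⟨_, fun _ => rfl⟩
    obtain ⟨S, hS, hU, hdis⟩ := st.hasFD hCOV (pull := pull) (fun f g => by
      rw [hpull, hpull, hpull]
      apply LinearEquiv.ext
      intro t
      show TE' (f * g)⁻¹ t = TE' g⁻¹ (TE' f⁻¹ t)
      rw [hTE', hTE', hTE', mul_inv_rev]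
      have h1 := hmul _ (g⁻¹).2 _ (f⁻¹).2
      exact LinearMap.congr_fun h1 t) (fun f x hx => by
      rw [hpull, hTE']
      exact TR_int _ hx) (fun f x hx => by
      rw [hpull, hTE', hmem, hcomp _ (f⁻¹).2]
      exact hpres _ (f⁻¹).2 _ ((hmem x).1 hx)) (fun v => ⟨(⟨φ v, hφ𝒮 v⟩ : 𝒮)⁻¹, fun x => by
        rw [hpull, inv_inv, hTE']⟩)
    have hset : ∀ T, (∃ ψ ∈ 𝒮, IsPullBackOn y c s ψ T) ↔ ∃ f : 𝒮, T = pull f := by
      intro T
      constructor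
      · rintro ⟨ψ, hψ, T₁, hT₁, hT⟩
        refine ⟨(⟨ψ, hψ⟩ : 𝒮)⁻¹, ?_⟩
        rw [hpull, inv_inv]
        apply LinearEquiv.ext
        intro t
        apply hinj
        have h1 := pull_ext hc hT₁ (hM.isPull ⟨ψ, hψ⟩)
        have h2 := hT t
        rw [hcomb, hcomb, h1, hM.TE_apply] at h2
        rw [h2, hTE', hcomp ψ hψ]
      · rintro ⟨f, rfl⟩
        rw [hpull]
        refine ⟨_, (f⁻¹).2, hM.TE f⁻¹, hM.isPull f⁻¹, fun t => ?_⟩
        rw [hcomb, hcomb, hTE', hM.TE_apply, hcomp _ (f⁻¹).2]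
    refine ⟨S, hS, ?_, fun T hT hT1 => ?_⟩
    · rw [hU]
      ext x
      simp only [Set.mem_iUnion, Set.mem_setOf_eq]
      constructor
      · rintro ⟨f, hf⟩
        exact ⟨pull f, (hset _).2 ⟨f, rfl⟩, hf⟩
      · rintro ⟨T, hT, hx⟩
        obtain ⟨f, rfl⟩ := (hset T).1 hT
        exact ⟨f, hx⟩
    · obtain ⟨f, rfl⟩ := (hset T).1 hT
      exact hdis f hT1
  · rw [st.ratHull_eq hCOV]
    exact st.eff_sub hCOV hEB
  · rw [← st.eff_iff hCOV hEB]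
    refine forall_congr' fun i => ?_
    constructor
    · rintro ⟨a, ha0, ha1, ha2⟩
      refine ⟨∑ l, a l • B l, ?_, fun h0 => ?_, ?_⟩
      · rw [hmemE, ← hcombu]
        exact ha2
      · apply ha0
        funext l
        have h1 : B.repr (∑ l, a l • B l) l = 0 := by
          rw [h0, map_zero, Finsupp.zero_apply]
        rwa [B.repr_sum_self] at h1
      · rw [map_sum]
        refine Finset.sum_congr rfl fun l _ => ?_
        rw [map_smul, pr_basis]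
        by_cases hl : β l = i
        · rw [if_pos hl]
        · rw [if_neg hl, ha1 l hl, zero_smul, zero_smul]
    · rintro ⟨e', he', he0, hei⟩
      refine ⟨fun l => B.repr e' l, fun h0 => ?_, fun l hl => ?_, ?_⟩
      · apply he0
        rw [← B.sum_repr e']
        exact Finset.sum_eq_zero fun l _ => by
          have h1 : B.repr e' l = 0 := congrFun h0 l
          rw [h1, zero_smul]
      · show B.repr e' l = 0
        rw [← hei, repr_pr, if_neg hl]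
      · rw [hcombu, B.sum_repr]
        exact (hmemE e').1 he'

end

end Run7.h528.MB
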