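import Pool.Agent.Run7.h528.MB.Down
import Pool.Agent.N110.DV.Defs

/-!
# Nef divisors on images of varieties with invariant blocks
-/

set_option autoImplicit false
set_option linter.unusedSectionVars false
set_option linter.overlappingInstances false

open FF Pool.Agent.W602.GT Pool.Agent.Y172 Pool.Agent.R887 Pool.Agent.W619.PQ
open Pool.Agent.N110 Pool.Agent.N110.PA Pool.Agent.N110.NV Pool.Agent.N492.PA Pool.Agent.N110.CC
open Pool.Agent.N110.DV (NefD)
open Filter Topology

namespace Run7.h528.MB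

section

variable {K K' : Type} [Field K] [Algebra ℂ K] [Field K'] [Algebra ℂ K'] {N N' n ρ : ℕ}
  {y : Fin (N + 1) → K} {y' : Fin (N' + 1) → K'} {π : K →ₐ[ℂ] K'}

/-- the pull back of a divisor -/
theorem exists_pull (hy' : NormalModel y') (hn : Algebra.trdeg ℂ K = n)
    (hn' : Algebra.trdeg ℂ K' = n) (hπ : FiniteMap π y y') {D : Place ℂ K → ℤ} (hD : IsDiv y D) :
    ∃ D' : Place ℂ K' → ℤ, IsDiv y' D' ∧
      ∀ Q P e, IsPrimeDivisor y' Q → LiesOver π Q P e → D' Q = e * D P := by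
  have hess' := hy'.ess
  let _ : Algebra K K' := π.toRingHom.toAlgebra
  have hst : IsScalarTower ℂ K K' :=
    IsScalarTower.of_algebraMap_eq fun c => (π.commutes c).symm
  have hfd : FiniteDimensional K K' := finite_map hn hn'
  have hov : ∀ Q : Place ℂ K', LiesOver π Q (bel K Q) (ram K Q) := fun Q => over_bel K Q
  refine ⟨fun Q => (ram K Q : ℤ) * D (bel K Q), ?_, ?_⟩
  · refine (finite_bel (K := K) (L := K') hD).subset ?_
    rintro Q ⟨hQ, h0⟩
    exact ⟨(hπ Q _ _ (hov Q)).1 hQ, fun h1 => h0 (by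
      show (ram K Q : ℤ) * D (bel K Q) = 0
      rw [h1, mul_zero])⟩
  · intro Q P e _ h
    obtain ⟨h1, h2⟩ := bel_eq K (Q := Q) (P := P) (e := e) h
    change (ram K Q : ℤ) * D (bel K Q) = e * D P
    rw [h1, h2]

/-- **The class of the pull back of a nef divisor is nef.** -/
theorem nef_up (hy : NormalModel y) (hy' : NormalModel y') (hn : Algebra.trdeg ℂ K = n)
    (hn' : Algebra.trdeg ℂ K' = n) (hmor : IsMorphism π y y') (hπ : FiniteMap π y y')
    {c' : Place ℂ K' → Fin ρ → ℤ} {L : Place ℂ K → ℤ} (hL : IsDiv y L)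
    (hnef : NefD y n (fun P => (L P : ℚ))) {L' : Place ℂ K' → ℤ} (hL' : IsDiv y' L')
    (hrel : ∀ Q P e, IsPrimeDivisor y' Q → LiesOver π Q P e → L' Q = e * L P) :
    divClass y' c' L' ∈ nefCone y' n c' := by
  classical
  have hess' := hy'.ess
  let _ : Algebra K K' := π.toRingHom.toAlgebra
  have hst : IsScalarTower ℂ K K' :=
    IsScalarTower.of_algebraMap_eq fun c => (π.commutes c).symm
  have hfd : FiniteDimensional K K' := finite_map hn hn'
  have hov : ∀ Q : Place ℂ K', LiesOver π Q (bel K Q) (ram K Q) := fun Q => over_bel K Q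
  obtain ⟨i, hi⟩ := hy.ne
  obtain ⟨A, hA, hAP⟩ := exists_hyp hy hi
  choose l hl using fun P : Place ℂ K => exists_centred hy P
  obtain ⟨H, hH⟩ : ∃ H : Place ℂ K → ℤ, H = fun P => P.ord (y i / y (l P)) := ⟨_, rfl⟩
  have hHA : ∀ P, IsPrimeDivisor y P → (H P : ℚ) = A P := fun P hP => by
    rw [hAP P (l P) hP (hl P), hH]
  have hHl : ∀ P l', IsPrimeDivisor y P → Centred y l' P → H P = P.ord (y i / y l') := by
    intro P l' hP hl'
    have h1 := hAP P l' hP hl'
    rw [← hHA P hP] at h1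
    exact_mod_cast h1
  have hHd : IsDiv y H := by
    refine hA.2.subset ?_
    rintro P ⟨hP, h0⟩
    exact ⟨hP, fun h1 => h0 (by
      have h2 := hHA P hP
      rw [h1] at h2
      exact_mod_cast h2)⟩
  obtain ⟨H', hH', hHrel⟩ := exists_pull hy' hn hn' hπ hHd
  have key : ∀ q : ℕ, 1 ≤ q → (q : ℝ) • divClass y' c' L' + divClass y' c' H' ∈
      nefCone y' n c' := by
    intro q hq
    obtain ⟨m, hm, h1⟩ := hnef i hi q hq
    have hm0 : (0 : ℝ) < m := by exact_mod_cast hm
    obtain ⟨D, hD⟩ : ∃ D : Place ℂ K → ℤ, D = fun P => m * (q * L P + H P) := ⟨_, rfl⟩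
    have hfree : IsFree y n D := by
      refine ⟨?_, fun R hR => ?_⟩
      · refine (hL.union hHd).subset ?_
        rintro P ⟨hP, h0⟩
        by_cases h2 : L P = 0
        · refine Or.inr ⟨hP, fun h3 => h0 ?_⟩
          rw [hD]
          show (m : ℤ) * (q * L P + H P) = 0
          rw [h2, h3]
          ring
        · exact Or.inl ⟨hP, h2⟩
      · obtain ⟨g, hg0, h2, h3⟩ := h1 R hR
        refine ⟨g, hg0, fun P hP => ?_, fun P hP hPR => ?_⟩
        · have h4 := h2 P (l P) hP (hl P)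
          rw [← hHl P (l P) hP (hl P)] at h4
          beta_reduce at h4
          have h5 : -((m : ℤ) * q * L P) - m * H P ≤ P.ord g := by exact_mod_cast h4
          rw [hD]
          show 0 ≤ P.ord g + (m : ℤ) * (q * L P + H P)
          linarith
        · have h4 := h3 P (l P) hP hPR (hl P)
          rw [← hHl P (l P) hP (hl P)] at h4
          beta_reduce at h4
          have h5 : P.ord g = -((m : ℤ) * q * L P) - m * H P := by exact_mod_cast h4
          rw [hD]
          show P.ord g + (m : ℤ) * (q * L P + H P) = 0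
          rw [h5]
          ring
    obtain ⟨D', hD', hDrel⟩ := exists_pull hy' hn hn' hπ hfree.1
    have hf' := free_up hy' hn hn' hmor hπ hfree hD' hDrel
    have h6 : divClass y' c' D' ∈ nefCone y' n c' :=
      subset_closure (coneOf_self ⟨D', hf', rfl⟩)
    have h7 : divClass y' c' D' = (m : ℝ) • ((q : ℝ) • divClass y' c' L' +
        divClass y' c' H') := by
      have h8 : cls y' (cQ c') (fun Q => (D' Q : ℚ)) = cls y' (cQ c')
          (fun Q => (m : ℚ) * ((q : ℚ) * (L' Q : ℚ) + (H' Q : ℚ))) := by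
        refine cls_congr fun Q hQ => ?_
        rw [hDrel Q _ _ hQ (hov Q), hrel Q _ _ hQ (hov Q), hHrel Q _ _ hQ (hov Q), hD]
        push_cast
        ring
      have h9 : Fin0 y' (fun Q => (q : ℚ) * (L' Q : ℚ)) := (fin0_div hL').smul (q : ℚ)
      rw [divClass_div hD', h8, cls_smul, cls_add h9 (fin0_div hH'), cls_smul, toR_smul, toR_add,
        toR_smul, divClass_div hL', divClass_div hH']
      push_cast
      rfl
    have h8 := closure_coneOf_smul h6 (inv_nonneg.2 hm0.le)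
    rw [h7, smul_smul, inv_mul_cancel₀ hm0.ne', one_smul] at h8
    exact h8
  have hcl : IsClosed (nefCone y' n c') := isClosed_closure
  have hlim : Tendsto (fun q : ℕ => divClass y' c' L' + ((q : ℝ) + 1)⁻¹ • divClass y' c' H')
      atTop (𝓝 (divClass y' c' L' + (0 : ℝ) • divClass y' c' H')) := by
    refine tendsto_const_nhds.add (Tendsto.smul_const ?_ _)
    have h1 := tendsto_one_div_add_atTop_nhds_zero_nat (𝕜 := ℝ)
    simpa [one_div] using h1
  rw [zero_smul, add_zero] at hlim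
  refine hcl.mem_of_tendsto hlim (Eventually.of_forall fun q => ?_)
  have h1 := key (q + 1) (by omega)
  have h2 : (0 : ℝ) < (q : ℝ) + 1 := by positivity
  have h3 := closure_coneOf_smul h1 (inv_nonneg.2 h2.le)
  rw [smul_add, smul_smul] at h3
  push_cast at h3
  rw [inv_mul_cancel₀ h2.ne', one_smul] at h3
  exact h3

/-- a divisor is semiample if and only if its pull back is -/
theorem sa_iff (hy : NormalModel y) (hy' : NormalModel y') (hn : Algebra.trdeg ℂ K = n)
    (hn' : Algebra.trdeg ℂ K' = n) (hmor : IsMorphism π y y') (hπ : FiniteMap π y y')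
    {L : Place ℂ K → ℤ} (hL : IsDiv y L) (hC : IsQCartier y n L) {L' : Place ℂ K' → ℤ}
    (hL' : IsDiv y' L')
    (hrel : ∀ Q P e, IsPrimeDivisor y' Q → LiesOver π Q P e → L' Q = e * L P) :
    IsSemiample y n L ↔ IsSemiample y' n L' := by
  refine ⟨?_, sa_down hy hy' hn hn' hmor hπ hL hC hrel⟩
  rintro ⟨m, hm, h⟩
  refine ⟨m, hm, free_up hy' hn hn' hmor hπ h ?_ fun Q P e hQ hl => ?_⟩
  · refine hL'.subset ?_
    rintro Q ⟨hQ, h0⟩
    exact ⟨hQ, fun h1 => h0 (by
      show (m : ℤ) * L' Q = 0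
      rw [h1, mul_zero])⟩
  · show (m : ℤ) * L' Q = e * (m * L P)
    rw [hrel Q P e hQ hl]
    ring

end

section

variable {K' : Type} [Field K'] [Algebra ℂ K'] {N' n r k ρ : ℕ} {y' : Fin (N' + 1) → K'}

/-- **Nef divisors on the images.** -/
theorem images_blocks (hy' : NormalModel y') (hn' : Algebra.trdeg ℂ K' = n) (hn0 : 0 < n)
    (hr : 0 < r) {c' : Place ℂ K' → Fin ρ → ℤ} (hc' : PicardBasis y' c')
    (hq : IrregularityZero y') {φ : (Fin r → ℤ) → (K' ≃ₐ[ℂ] K')}
    (hφ : ∀ u v, φ (u + v) = φ u * φ v) (haut : ∀ v, IsAut (φ v) y')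
    (hent : ∀ v, v ≠ 0 → 1 < dynDegree (φ v) y' n 1)
    {u : Fin ρ → Fin ρ → ℤ} (hu : LinearIndependent ℝ (fun j i => (u j i : ℝ)))
    {β : Fin ρ → Fin k} (hβ : ∀ i, ∃ j j', j ≠ j' ∧ β j = i ∧ β j' = i) (hρ : ρ = r + k)
    (hbl : ∀ v, PreservesBlocks y' c' u β (φ v)) :
    ∃ e : Fin k → Place ℂ K' → ℤ,
      (∀ i, IsDiv y' (e i) ∧ divClass y' c' (e i) ∈ nefCone y' n c' ∧
        IsBlockSupport u β (divClass y' c' (e i)) {i}) ∧
      ∀ (K : Type) [Field K] [Algebra ℂ K] (N : ℕ) (y : Fin (N + 1) → K) (π : K →ₐ[ℂ] K'),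
        NormalModel y → Algebra.trdeg ℂ K = n → IsMorphism π y y' → FiniteMap π y y' →
        ∀ L : Place ℂ K → ℤ, IsDiv y L → IsQCartier y n L → NefD y n (fun P => (L P : ℚ)) →
          ∃ z s, IsPullBackClass π y' c' (fun P => (L P : ℚ)) z ∧
            HasFace u β (nefCone y' n c') (fun i => divClass y' c' (e i)) z s ∧
            (IsSemiample y n L ↔ IsSemiample y' n (fun P => ∑ i ∈ s, e i P)) ∧
            ((∀ i ∈ s, IsSemiample y' n (e i)) → IsSemiample y n L) ∧
            (s = Finset.univ → z ∈ interior (nefCone y' n c') ∧ IsSemiample y n L) := by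
  obtain ⟨e, he, h⟩ := core hy' hn' hn0 hr hc' hφ haut hent hu hβ hρ hbl
  refine ⟨e, he, ?_⟩
  intro K _ _ N y π hy hn hmor hπ L hL hC hnef
  obtain ⟨L', hL', hrel⟩ := exists_pull hy' hn hn' hπ hL
  have h0 := nef_up hy hy' hn hn' hmor hπ (c' := c') hL hnef hL' hrel
  obtain ⟨s, h1, h2, h3, h4, h5, -⟩ := h _ (isRat_divClass hL') h0
  have hs := divClass_sum (c := c') s fun i => (he i).1
  have hiff := sa_iff hy hy' hn hn' hmor hπ hL hC hL' hrel
  refine ⟨_, s, ⟨fun Q => (L' Q : ℚ), fin0_div hL', fun Q P e hQ hl => ?_, divClass_div hL'⟩,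
    ⟨h1, h2⟩, ?_, fun h6 => ?_, fun h6 => ?_⟩
  · show ((L' Q : ℤ) : ℚ) = e * ((L P : ℤ) : ℚ)
    rw [hrel Q P e hQ hl]
    push_cast
    rfl
  · rw [hiff, semiample_iff hy' hc' hq hL', semiample_iff hy' hc' hq hs.1, hs.2]
    exact h3
  · rw [hiff, semiample_iff hy' hc' hq hL']
    exact h4 fun i hi => (semiample_iff hy' hc' hq (he i).1).1 (h6 i hi)
  · rw [hiff, semiample_iff hy' hc' hq hL']
    exact h5 h6

end

end Run7.h528.MB
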