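import Pool.Agent.Run7.h528.MB.Contr

/-!
# Birational maps of images of varieties with invariant blocks
-/

set_option autoImplicit false
set_option linter.unusedSectionVars false
set_option linter.overlappingInstances false

open FF Pool.Agent.W602.GT Pool.Agent.Y172 Pool.Agent.R887
open Pool.Agent.N110 Pool.Agent.N110.CC
open Pool.Agent.N110.DV (NefD)

namespace Run7.h528.MB

section

variable {K : Type} [Field K] [Algebra ℂ K] {N M n : ℕ} {y : Fin (N + 1) → K}
  {z : Fin (M + 1) → K}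

/-- if the functions of the chart `l` of `X` are regular at the prime divisors of `Z` through the
centre of `R`, then so are the functions of the local ring -/
theorem local_le (hz : NormalModel z) {R : Place ℂ K} {l : Fin (N + 1)} (hl : Centred y l R)
    (hc : ∀ P, IsPrimeDivisor z P → Through z P R → Centred y l P) :
    localRing y R ⊆ localRing z R := by
  intro f hf
  obtain ⟨a, ha, b, hb, hb0, hbo, hab⟩ := (mem_localRing hl).1 hf
  by_cases hf0 : f = 0
  · rw [hf0]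
    exact mem_localRing_of_reg hz fun P _ _ => P.reg_zero
  have hbz : b ∈ localRing z R := mem_localRing_of_reg hz fun P hP hPR =>
    (hc P hP hPR).reg b hb
  refine mem_localRing_of_reg hz fun P hP hPR => ?_
  have h1 := (hc P hP hPR).reg a ha
  have h2 := ord_unit hbz hb0 hbo hPR
  rw [← hab, P.reg_iff (mul_ne_zero hf0 hb0), P.ord_mul hf0 hb0, h2, add_zero] at h1
  exact (P.reg_iff hf0).2 h1

/-- the divisor of the hyperplane section `z i₀ = 0` -/
theorem exists_hypM (hy : NormalModel y) (hz : NormalModel z) {i₀ : Fin (M + 1)}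
    (hi₀ : z i₀ ≠ 0) : ∃ A : Place ℂ K → ℤ, IsDiv y A ∧
      ∀ P l, Centred z l P → A P = P.ord (z i₀ / z l) := by
  classical
  choose l hl using fun P : Place ℂ K => exists_centred hz P
  refine ⟨fun P => P.ord (z i₀ / z (l P)), ?_, ?_⟩
  · have h1 : ∀ j ∈ Finset.univ.filter (fun j => z j ≠ 0),
        {P | IsPrimeDivisor y P ∧ P.ord (z i₀ / z j) ≠ 0}.Finite := by
      intro j hj
      exact finite_ord hy (div_ne_zero hi₀ (Finset.mem_filter.1 hj).2)
    refine (Set.Finite.biUnion (Finset.finite_toSet _) h1).subset ?_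
    rintro P ⟨hP, h0⟩
    refine Set.mem_biUnion (x := l P) ?_ ⟨hP, h0⟩
    exact Finset.mem_coe.2 (Finset.mem_filter.2 ⟨Finset.mem_univ _, (hl P).1⟩)
  · intro P l' hl'
    have h1 := (hl P).unit hl'
    show P.ord (z i₀ / z (l P)) = P.ord (z i₀ / z l')
    rw [P.ord_div hi₀ (hl P).1, P.ord_div hi₀ hl'.1]
    rw [P.ord_div hl'.1 (hl P).1] at h1
    linarith

/-- **A birational map whose inverse contracts no divisor is an isomorphism** if the pull back of
an ample divisor is ample. -/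
theorem model_iso (hy : NormalModel y) (hz : NormalModel z)
    (hsub : ∀ P, IsPrimeDivisor z P → IsPrimeDivisor y P) {i₀ : Fin (M + 1)} (hi₀ : z i₀ ≠ 0)
    {A : Place ℂ K → ℤ} (hA : ∀ P l, Centred z l P → A P = P.ord (z i₀ / z l))
    (hamp : IsAmple y n A) (R : Place ℂ K) (hR : Divisorial n R) :
    localRing z R = localRing y R := by
  classical
  obtain ⟨i, hi⟩ := hy.ne
  obtain ⟨m, hm, k, hk, h⟩ := hamp i hi
  obtain ⟨g, hg0, hg1, hg2⟩ := h R hR
  obtain ⟨l₀, hl₀⟩ := exists_centred hy R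
  obtain ⟨q, hq⟩ := exists_centred hz R
  have hk0 : (0 : ℤ) ≤ k := Nat.cast_nonneg k
  have hk1 : (0 : ℤ) < k := by exact_mod_cast hk
  have hm1 : (0 : ℤ) < m := by exact_mod_cast hm
  -- the sections `s j` and `t p`
  obtain ⟨s, hs⟩ : ∃ s : Fin (N + 1) → K, ∀ j, s j = g * (y j / y i) ^ k := ⟨_, fun _ => rfl⟩
  obtain ⟨t, ht⟩ : ∃ t : Fin (M + 1) → K, ∀ p, t p = (z p / z q) * (z q / z i₀) ^ m :=
    ⟨_, fun _ => rfl⟩
  have hs0 : ∀ j, y j ≠ 0 → s j ≠ 0 := fun j hj => by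
    rw [hs]
    exact mul_ne_zero hg0 (pow_ne_zero _ (div_ne_zero hj hi))
  have ht0 : ∀ p, z p ≠ 0 → t p ≠ 0 := fun p hp => by
    rw [ht]
    exact mul_ne_zero (div_ne_zero hp hq.1) (pow_ne_zero _ (div_ne_zero hq.1 hi₀))
  have hso : ∀ (P : Place ℂ K) j, y j ≠ 0 →
      P.ord (s j) = P.ord g + k * (P.ord (y j) - P.ord (y i)) := by
    intro P j hj
    rw [hs, P.ord_mul hg0 (pow_ne_zero _ (div_ne_zero hj hi)), P.ord_pow, P.ord_div hj hi]
  have hto : ∀ (P : Place ℂ K) p, z p ≠ 0 →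
      P.ord (t p) = P.ord (z p) - P.ord (z q) + m * (P.ord (z q) - P.ord (z i₀)) := by
    intro P p hp
    rw [ht, P.ord_mul (div_ne_zero hp hq.1) (pow_ne_zero _ (div_ne_zero hq.1 hi₀)), P.ord_pow,
      P.ord_div hp hq.1, P.ord_div hq.1 hi₀]
  -- the `s j` are sections of `m A`
  have hs1 : ∀ P, IsPrimeDivisor y P → ∀ j, y j ≠ 0 → -(m * A P) ≤ P.ord (s j) := by
    intro P hP j hj
    obtain ⟨l₁, hl₁⟩ := exists_centred hy P
    have h1 := hg1 P l₁ hP hl₁
    rw [P.ord_div hi hl₁.1] at h1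
    have h2 := (P.reg_iff (div_ne_zero hj hl₁.1)).1 (hl₁.2 j)
    rw [P.ord_div hj hl₁.1] at h2
    rw [hso P j hj]
    have h3 := mul_nonneg hk0 h2
    linarith
  have hs2 : ∀ P, IsPrimeDivisor y P → Through y P R → P.ord (s l₀) = -(m * A P) := by
    intro P hP hPR
    have h1 := hg2 P l₀ hP hPR (hPR.centred hl₀)
    rw [P.ord_div hi hl₀.1] at h1
    rw [hso P l₀ hl₀.1, h1]
    ring
  -- the `t p` are sections of `m A`
  have ht1 : ∀ (P : Place ℂ K) p, z p ≠ 0 → -(m * A P) ≤ P.ord (t p) := by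
    intro P p hp
    obtain ⟨l₁, hl₁⟩ := exists_centred hz P
    have h2 := (P.reg_iff (div_ne_zero hp hl₁.1)).1 (hl₁.2 p)
    have h3 := (P.reg_iff (div_ne_zero hq.1 hl₁.1)).1 (hl₁.2 q)
    rw [P.ord_div hp hl₁.1] at h2
    rw [P.ord_div hq.1 hl₁.1] at h3
    rw [hto P p hp, hA P l₁ hl₁, P.ord_div hi₀ hl₁.1]
    have h4 : 0 ≤ ((m : ℤ) - 1) * (P.ord (z q) - P.ord (z l₁)) := mul_nonneg (by linarith) h3
    linarith
  have ht2 : ∀ P : Place ℂ K, Centred z q P → P.ord (t q) = -(m * A P) := by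
    intro P hP
    rw [hto P q hq.1, hA P q hP, P.ord_div hi₀ hq.1]
    ring
  -- quotients
  have hst : ∀ j, y j ≠ 0 → s j / t q ∈ localRing z R := by
    intro j hj
    refine mem_localRing_of_reg hz fun P hP hPR => ?_
    rw [P.reg_iff (div_ne_zero (hs0 j hj) (ht0 q hq.1)), P.ord_div (hs0 j hj) (ht0 q hq.1),
      ht2 P (hPR.centred hq)]
    have h1 := hs1 P (hsub P hP) j hj
    linarith
  have hts : ∀ p, z p ≠ 0 → t p / s l₀ ∈ localRing y R := by
    intro p hp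
    refine mem_localRing_of_reg hy fun P hP hPR => ?_
    rw [P.reg_iff (div_ne_zero (ht0 p hp) (hs0 l₀ hl₀.1)), P.ord_div (ht0 p hp) (hs0 l₀ hl₀.1),
      hs2 P hP hPR]
    have h1 := ht1 P p hp
    linarith
  have hR0 : R.ord (s l₀) = R.ord (t q) := by
    have h1 := (R.reg_iff (div_ne_zero (hs0 l₀ hl₀.1) (ht0 q hq.1))).1
      (localRing_reg (hst l₀ hl₀.1))
    have h2 := (R.reg_iff (div_ne_zero (ht0 q hq.1) (hs0 l₀ hl₀.1))).1
      (localRing_reg (hts q hq.1))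
    rw [R.ord_div (hs0 l₀ hl₀.1) (ht0 q hq.1)] at h1
    rw [R.ord_div (ht0 q hq.1) (hs0 l₀ hl₀.1)] at h2
    omega
  refine Set.Subset.antisymm ?_ ?_
  · refine local_le hy hq fun P hP hPR => ⟨hq.1, fun p => ?_⟩
    by_cases hp : z p = 0
    · rw [hp, zero_div]
      exact P.reg_zero
    have h1 := (P.reg_iff (div_ne_zero (ht0 p hp) (hs0 l₀ hl₀.1))).1 (hPR _ (hts p hp))
    have h2 := ord_unit (hts q hq.1) (div_ne_zero (ht0 q hq.1) (hs0 l₀ hl₀.1))
      (by rw [R.ord_div (ht0 q hq.1) (hs0 l₀ hl₀.1), hR0, sub_self]) hPR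
    rw [P.ord_div (ht0 p hp) (hs0 l₀ hl₀.1), hto P p hp] at h1
    rw [P.ord_div (ht0 q hq.1) (hs0 l₀ hl₀.1), hto P q hq.1] at h2
    rw [P.reg_iff (div_ne_zero hp hq.1), P.ord_div hp hq.1]
    linarith
  · refine local_le hz hl₀ fun P hP hPR => ⟨hl₀.1, fun j => ?_⟩
    by_cases hj : y j = 0
    · rw [hj, zero_div]
      exact P.reg_zero
    have h1 := (P.reg_iff (div_ne_zero (hs0 j hj) (ht0 q hq.1))).1 (hPR _ (hst j hj))
    have h2 := ord_unit (hst l₀ hl₀.1) (div_ne_zero (hs0 l₀ hl₀.1) (ht0 q hq.1))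
      (by rw [R.ord_div (hs0 l₀ hl₀.1) (ht0 q hq.1), hR0, sub_self]) hPR
    rw [P.ord_div (hs0 j hj) (ht0 q hq.1), hso P j hj] at h1
    rw [P.ord_div (hs0 l₀ hl₀.1) (ht0 q hq.1), hso P l₀ hl₀.1] at h2
    rw [P.reg_iff (div_ne_zero hj hl₀.1), P.ord_div hj hl₀.1]
    have h3 : 0 ≤ (k : ℤ) * (P.ord (y j) - P.ord (y l₀)) := by linarith
    exact nonneg_of_mul_nonneg_right h3 hk1

/-- **Birational maps.** -/
theorem maps_iso (hy : NormalModel y)
    (hbig : ∀ L : Place ℂ K → ℤ, IsDiv y L → IsQCartier y n L →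
      BigD y (fun P => (L P : ℚ)) → IsAmple y n L) (hz : NormalModel z)
    (h : (∀ P : Place ℂ K, localRing z P ⊆ localRing y P) ∨
      ((∀ P, IsPrimeDivisor z P → IsPrimeDivisor y P) ∧
        ∀ D : Place ℂ K → ℤ, IsDiv y D → IsQCartier y n D)) (R : Place ℂ K)
    (hR : Divisorial n R) : localRing z R = localRing y R := by
  rcases h with h | ⟨h, hQ⟩
  · exact contr_iso hy hz hbig h R hR
  · obtain ⟨i₀, hi₀⟩ := hz.ne
    obtain ⟨A, hAd, hA⟩ := exists_hypM hy hz hi₀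
    exact model_iso hy hz h hi₀ hA (hbig A hAd (hQ A hAd) (contr_big hz hi₀ hA)) R hR

end

end Run7.h528.MB
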