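import Pool.Agent.Run7.h528.MB.Img
import Pool.Agent.Run7.h528.MB.FDefs

/-!
# Pseudo-effective divisors on images of varieties with invariant blocks
-/

set_option autoImplicit false
set_option linter.unusedSectionVars false
set_option linter.overlappingInstances false

open FF Pool.Agent.W602.GT Pool.Agent.Y172 Pool.Agent.R887 Pool.Agent.W619.PQ
open Pool.Agent.N110 Pool.Agent.N110.PA Pool.Agent.N110.NV Pool.Agent.N492.PA Pool.Agent.N110.CC
open Pool.Agent.N110.DV (NefD)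

namespace Run7.h528.MB

section

variable {K : Type} [Field K] [Algebra ℂ K] {N n ρ : ℕ} {y : Fin (N + 1) → K}

/-- the hyperplane section `y i = 0` as a divisor with integral coefficients -/
theorem exists_hypZ (hy : NormalModel y) {i : Fin (N + 1)} (hi : y i ≠ 0) :
    ∃ H : Place ℂ K → ℤ, IsDiv y H ∧ (∀ P, IsPrimeDivisor y P → 0 ≤ H P) ∧
      ∀ P l, IsPrimeDivisor y P → Centred y l P → H P = P.ord (y i / y l) := by
  obtain ⟨A, hA, hAP⟩ := exists_hyp hy hi
  choose l hl using fun P : Place ℂ K => exists_centred hy P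
  have hHA : ∀ P, IsPrimeDivisor y P → ((P.ord (y i / y (l P)) : ℤ) : ℚ) = A P := fun P hP =>
    (hAP P (l P) hP (hl P)).symm
  refine ⟨fun P => P.ord (y i / y (l P)), ?_, fun P hP => ?_, fun P l' hP hl' => ?_⟩
  · refine hA.2.subset ?_
    rintro P ⟨hP, h0⟩
    refine ⟨hP, fun h1 => h0 ?_⟩
    have h2 := hHA P hP
    rw [h1] at h2
    exact_mod_cast h2
  · have h2 := hHA P hP
    have h3 := hA.1 P hP
    rw [← h2] at h3
    exact_mod_cast h3
  · have h1 := hAP P l' hP hl'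
    rw [← hHA P hP] at h1
    exact_mod_cast h1

/-- hyperplane sections are Cartier -/
theorem hyp_gen (hy : NormalModel y) {i : Fin (N + 1)} (hi : y i ≠ 0) {H : Place ℂ K → ℤ}
    (hH : ∀ P l, IsPrimeDivisor y P → Centred y l P → H P = P.ord (y i / y l)) (R : Place ℂ K) :
    ∃ g : K, g ≠ 0 ∧ (∀ P, IsPrimeDivisor y P → 0 ≤ P.ord g + H P) ∧
      ∀ P, IsPrimeDivisor y P → Through y P R → P.ord g + H P = 0 := by
  obtain ⟨j, hj⟩ := exists_centred hy R
  refine ⟨y j / y i, div_ne_zero hj.1 hi, fun P hP => ?_, fun P hP hPR => ?_⟩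
  · obtain ⟨l, hl⟩ := exists_centred hy P
    rw [hH P l hP hl, P.ord_div hj.1 hi, P.ord_div hi hl.1]
    have h1 := (P.reg_iff (div_ne_zero hj.1 hl.1)).1 (hl.2 j)
    rw [P.ord_div hj.1 hl.1] at h1
    linarith
  · rw [hH P j hP (hPR.centred hj), P.ord_div hj.1 hi, P.ord_div hi hj.1]
    ring

theorem div_add {D E : Place ℂ K → ℤ} (hD : IsDiv y D) (hE : IsDiv y E) (a b : ℤ) :
    IsDiv y (fun P => a * D P + b * E P) := by
  refine (hD.union hE).subset ?_
  rintro P ⟨hP, h0⟩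
  by_cases h2 : D P = 0
  · refine Or.inr ⟨hP, fun h3 => h0 ?_⟩
    show a * D P + b * E P = 0
    rw [h2, h3]
    ring
  · exact Or.inl ⟨hP, h2⟩

theorem qcartier_add {D E : Place ℂ K → ℤ} (hD : IsQCartier y n D) (hE : IsQCartier y n E)
    (a b : ℕ) : IsQCartier y n (fun P => a * D P + b * E P) := by
  obtain ⟨m, hm, hD⟩ := hD
  obtain ⟨m', hm', hE⟩ := hE
  refine ⟨m * m', Nat.mul_pos hm hm', fun R hR => ?_⟩
  obtain ⟨g, hg0, hg⟩ := hD R hR
  obtain ⟨g', hg0', hg'⟩ := hE R hR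
  refine ⟨g ^ (m' * a) * g' ^ (m * b), mul_ne_zero (pow_ne_zero _ hg0) (pow_ne_zero _ hg0'),
    fun P hP hPR => ?_⟩
  have h1 := hg P hP hPR
  have h2 := hg' P hP hPR
  rw [P.ord_mul (pow_ne_zero _ hg0) (pow_ne_zero _ hg0'), P.ord_pow, P.ord_pow]
  push_cast
  have h3 : P.ord g = -(m * D P) := by linarith
  have h4 : P.ord g' = -(m' * E P) := by linarith
  rw [h3, h4]
  ring

theorem interior_add {C : Set (Fin ρ → ℝ)} (hadd : ∀ x ∈ C, ∀ z ∈ C, x + z ∈ C)
    {x z : Fin ρ → ℝ} (hx : x ∈ interior C) (hz : z ∈ C) : x + z ∈ interior C := by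
  have h1 : IsOpen ((fun w => w + z) '' interior C) :=
    (Homeomorph.addRight z).isOpenMap _ isOpen_interior
  refine interior_maximal ?_ h1 ⟨x, hx, rfl⟩
  rintro _ ⟨w, hw, rfl⟩
  exact hadd _ (interior_subset hw) _ hz

end

section

variable {K K' : Type} [Field K] [Algebra ℂ K] [Field K'] [Algebra ℂ K'] {N N' n ρ : ℕ}
  {y : Fin (N + 1) → K} {y' : Fin (N' + 1) → K'} {π : K →ₐ[ℂ] K'}

/-- the pull back of a hyperplane section is big -/
theorem hyp_pull_int (hy : NormalModel y) (hy' : NormalModel y') (hn : Algebra.trdeg ℂ K = n)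
    (hn' : Algebra.trdeg ℂ K' = n) (hπ : FiniteMap π y y') {c' : Place ℂ K' → Fin ρ → ℤ}
    (hc' : PicardBasis y' c') {i : Fin (N + 1)} (hi : y i ≠ 0) {H : Place ℂ K → ℤ}
    (hHd : IsDiv y H) (hH0 : ∀ P, IsPrimeDivisor y P → 0 ≤ H P)
    (hH : ∀ P l, IsPrimeDivisor y P → Centred y l P → H P = P.ord (y i / y l))
    {H' : Place ℂ K' → ℤ} (hH' : IsDiv y' H')
    (hrel : ∀ Q P e, IsPrimeDivisor y' Q → LiesOver π Q P e → H' Q = e * H P) :
    divClass y' c' H' ∈ interior (CE y' c') := by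
  classical
  have hess' := hy'.ess
  let _ : Algebra K K' := π.toRingHom.toAlgebra
  have hst : IsScalarTower ℂ K K' :=
    IsScalarTower.of_algebraMap_eq fun c => (π.commutes c).symm
  have hfd : FiniteDimensional K K' := finite_map hn hn'
  have hov : ∀ Q : Place ℂ K', LiesOver π Q (bel K Q) (ram K Q) := fun Q => over_bel K Q
  have hbel : ∀ Q : Place ℂ K', IsPrimeDivisor y' Q → IsPrimeDivisor y (bel K Q) :=
    fun Q hQ => (hπ Q _ _ (hov Q)).1 hQ
  have hpc := pc_eff hc'.numClasses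
  obtain ⟨i₀, hi₀⟩ := hy'.ne
  obtain ⟨Hy, hHe, hHy⟩ := exists_hyp hy' hi₀
  have hint : toR (cls y' (cQ c') Hy) ∈ interior (CE y' c') := hyp_intN hy' hc' hi₀ hHe hHy
  obtain ⟨A, hA, hAle⟩ := Pool.Agent.N252.CC.leafPUSH K K' N N' n y y' hy hy' hn hn' π hπ Hy hHe
  have hHeff : Effective y (fun P => (H P : ℚ)) :=
    ⟨fun P hP => by
      show (0 : ℚ) ≤ ((H P : ℤ) : ℚ)
      exact_mod_cast hH0 P hP, fin0_div hHd⟩
  obtain ⟨f, s, hf, hs⟩ := Pool.Agent.N110.dominate hy hA hi hHeff fun P l hP hl => by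
    rw [hH P l hP hl]
  have hπf : π f ≠ 0 := by rwa [Ne, map_eq_zero]
  -- `s H' + div (π f) - Hy` is effective
  have hfs : Fin0 y' (fun Q => (s : ℚ) * (H' Q : ℚ)) := (fin0_div hH').smul (s : ℚ)
  have hff : Fin0 y' (fun Q => (Q.ord (π f) : ℚ)) := fin_cast (finite_ord hy' hπf)
  have heff : Effective y' (fun Q => ((s : ℚ) * (H' Q : ℚ) + (Q.ord (π f) : ℚ)) - Hy Q) := by
    refine ⟨fun Q hQ => ?_, (Fin0.add hfs hff).sub hHe.2⟩
    have h1 := hAle Q _ _ hQ (hov Q)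
    have h2 := hs _ (hbel Q hQ)
    have h3 : (Q.ord (π f) : ℚ) = ram K Q * ((bel K Q).ord f : ℚ) := by
      rw [(hov Q).2 f]
      push_cast
      rfl
    have h4 := hrel Q _ _ hQ (hov Q)
    beta_reduce
    rw [h4, h3]
    push_cast
    have h5 : (0 : ℚ) ≤ ram K Q := Nat.cast_nonneg _
    have h6 := mul_le_mul_of_nonneg_left h2 h5
    beta_reduce at h6
    nlinarith
  have h1 : toR (cls y' (cQ c') (fun Q => ((s : ℚ) * (H' Q : ℚ) + (Q.ord (π f) : ℚ)) - Hy Q)) ∈
      CE y' c' := subset_closure (eff_mem heff)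
  have h2 : cls y' (cQ c') (fun Q => (Q.ord (π f) : ℚ)) = 0 := hc'.numClasses.principal _ hπf
  rw [cls_sub (Fin0.add hfs hff) hHe.2, cls_add hfs hff, h2, add_zero, cls_smul] at h1
  have h3 := interior_add hpc.add hint h1
  rw [toR_sub, toR_smul, ← divClass_div hH'] at h3
  have h4 : (((s : ℕ) : ℚ) : ℝ) • divClass y' c' H' ∈ interior (CE y' c') := by
    have e : toR (cls y' (cQ c') Hy) + ((((s : ℕ) : ℚ) : ℝ) • divClass y' c' H' -
        toR (cls y' (cQ c') Hy)) = (((s : ℕ) : ℚ) : ℝ) • divClass y' c' H' := by abel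
    rwa [e] at h3
  have heff' : Effective y' (fun Q => (H' Q : ℚ)) := by
    refine ⟨fun Q hQ => ?_, fin0_div hH'⟩
    show (0 : ℚ) ≤ ((H' Q : ℤ) : ℚ)
    have h5 : 0 ≤ H' Q := by
      rw [hrel Q _ _ hQ (hov Q)]
      exact mul_nonneg (Nat.cast_nonneg _) (hH0 _ (hbel Q hQ))
    exact_mod_cast h5
  have h5 : divClass y' c' H' ∈ CE y' c' := by
    rw [divClass_div hH']
    exact subset_closure (eff_mem heff')
  have h6 := interior_add hpc.add h4 h5
  have h7 : (((s : ℕ) : ℚ) : ℝ) • divClass y' c' H' + divClass y' c' H' =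
      ((s : ℝ) + 1) • divClass y' c' H' := by
    rw [add_smul, one_smul]
    push_cast
    rfl
  rw [h7] at h6
  have h8 : (0 : ℝ) < (s : ℝ) + 1 := by positivity
  have h9 := Pool.Agent.N165.KM.interior_smul_mem hpc.smul (inv_pos.2 h8) h6
  rwa [smul_smul, inv_mul_cancel₀ h8.ne', one_smul] at h9

/-- **Pseudo-effective divisors are nef**, if this is true for the classes on `X'`. -/
theorem nef_of_psef (hy : NormalModel y) (hy' : NormalModel y') (hn : Algebra.trdeg ℂ K = n)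
    (hn' : Algebra.trdeg ℂ K' = n) (hn0 : 0 < n) (hmor : IsMorphism π y y')
    (hπ : FiniteMap π y y') {c' : Place ℂ K' → Fin ρ → ℤ} (hc' : PicardBasis y' c')
    (hq : IrregularityZero y') (hps : CE y' c' = nefCone y' n c')
    {L : Place ℂ K → ℤ} (hL : IsDiv y L) (hC : IsQCartier y n L)
    (hpsef : PsefD y (fun P => (L P : ℚ))) : NefD y n (fun P => (L P : ℚ)) := by
  classical
  have hess' := hy'.ess
  let _ : Algebra K K' := π.toRingHom.toAlgebra
  have hst : IsScalarTower ℂ K K' :=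
    IsScalarTower.of_algebraMap_eq fun c => (π.commutes c).symm
  have hfd : FiniteDimensional K K' := finite_map hn hn'
  have hov : ∀ Q : Place ℂ K', LiesOver π Q (bel K Q) (ram K Q) := fun Q => over_bel K Q
  have hpc := pc_eff hc'.numClasses
  -- the class of the pull back of `L`
  obtain ⟨L', hL', hrel⟩ := exists_pull hy' hn hn' hπ hL
  obtain ⟨L'', hL'', hrel'', h1⟩ := Pool.Agent.N340.CC.leafPSUP K K' N N' n y y' hy hy' hn hn' hn0
    π hπ (fun P => (L P : ℚ)) (fin0_div hL)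
  have hz : divClass y' c' L' ∈ CE y' c' := by
    have h2 := Pool.Agent.N618.CC.leafPSCL K' N' ρ y' hy' (cQ c') hc'.numClasses.principal L''
      hL'' (h1 hpsef)
    have h3 : cls y' (cQ c') L'' = cls y' (cQ c') (fun Q => (L' Q : ℚ)) := by
      refine cls_congr fun Q hQ => ?_
      rw [hrel'' Q _ _ hQ (hov Q), hrel Q _ _ hQ (hov Q)]
      push_cast
      rfl
    rw [h3, ← divClass_div hL'] at h2
    exact h2
  intro i hi q hq1
  obtain ⟨H, hHd, hH0, hH⟩ := exists_hypZ hy hi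
  obtain ⟨H', hH', hHrel⟩ := exists_pull hy' hn hn' hπ hHd
  have hint := hyp_pull_int hy hy' hn hn' hπ hc' hi hHd hH0 hH hH' hHrel
  -- the divisor `q L + H`
  have hHC : IsQCartier y n H := ⟨1, le_rfl, fun R _ => by
    obtain ⟨g, hg0, -, hg⟩ := hyp_gen hy hi hH R
    exact ⟨g, hg0, fun P hP hPR => by
      push_cast
      rw [one_mul]
      exact hg P hP hPR⟩⟩
  have hM : IsDiv y (fun P => (q : ℤ) * L P + (1 : ℤ) * H P) := div_add hL hHd _ _
  have hMC : IsQCartier y n (fun P => ((q : ℕ) : ℤ) * L P + ((1 : ℕ) : ℤ) * H P) :=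
    qcartier_add hC hHC q 1
  have hM' : IsDiv y' (fun P => (q : ℤ) * L' P + (1 : ℤ) * H' P) := div_add hL' hH' _ _
  have hMrel : ∀ Q P e, IsPrimeDivisor y' Q → LiesOver π Q P e →
      (fun P => (q : ℤ) * L' P + (1 : ℤ) * H' P) Q =
        e * (fun P => (q : ℤ) * L P + (1 : ℤ) * H P) P := by
    intro Q P e hQ hl
    show (q : ℤ) * L' Q + 1 * H' Q = e * (q * L P + 1 * H P)
    rw [hrel Q P e hQ hl, hHrel Q P e hQ hl]
    ring
  have hcls : divClass y' c' (fun P => (q : ℤ) * L' P + (1 : ℤ) * H' P) =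
      divClass y' c' H' + (q : ℝ) • divClass y' c' L' := by
    have h2 : (fun P => (((q : ℤ) * L' P + (1 : ℤ) * H' P : ℤ) : ℚ)) =
        fun P => (q : ℚ) * (L' P : ℚ) + (H' P : ℚ) := by
      funext P
      push_cast
      ring
    rw [divClass_div hM', h2, cls_add ((fin0_div hL').smul (q : ℚ)) (fin0_div hH'), cls_smul,
      toR_add, toR_smul, divClass_div hL', divClass_div hH', add_comm]
    push_cast
    rfl
  have h2 : divClass y' c' (fun P => (q : ℤ) * L' P + (1 : ℤ) * H' P) ∈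
      interior (nefCone y' n c') := by
    rw [hcls, ← hps]
    exact interior_add hpc.add hint (hpc.smul _ (Nat.cast_nonneg q) _ hz)
  have h3 : divClass y' c' (fun P => (q : ℤ) * L' P + (1 : ℤ) * H' P) ∈ freeCone y' n c' :=
    interior_closure_sub ⟨_, h2⟩ h2
  have h4 : IsSemiample y' n (fun P => (q : ℤ) * L' P + (1 : ℤ) * H' P) :=
    (semiample_iff hy' hc' hq hM').2 (sa_of_cone hy' hc' (isRat_divClass hM') h3)
  obtain ⟨m, hm, hfree⟩ := sa_down hy hy' hn hn' hmor hπ hM (by simpa using hMC) hMrel h4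
  refine ⟨m, hm, fun R hR => ?_⟩
  obtain ⟨g, hg0, hg1, hg2⟩ := hfree.2 R hR
  refine ⟨g, hg0, fun P l hP hl => ?_, fun P l hP hPR hl => ?_⟩
  · have h5 : 0 ≤ P.ord g + (m : ℤ) * (q * L P + 1 * H P) := hg1 P hP
    rw [hH P l hP hl] at h5
    have h6 : -((m : ℤ) * q * L P) - m * P.ord (y i / y l) ≤ P.ord g := by linarith
    show -((m : ℚ) * q * ((L P : ℤ) : ℚ)) - m * P.ord (y i / y l) ≤ P.ord g
    exact_mod_cast h6
  · have h5 : P.ord g + (m : ℤ) * (q * L P + 1 * H P) = 0 := hg2 P hP hPR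
    rw [hH P l hP hl] at h5
    have h6 : P.ord g = -((m : ℤ) * q * L P) - m * P.ord (y i / y l) := by linarith
    show ((P.ord g : ℤ) : ℚ) = -((m : ℚ) * q * ((L P : ℤ) : ℚ)) - m * P.ord (y i / y l)
    exact_mod_cast h6

end

section

variable {K : Type} [Field K] [Algebra ℂ K] {N N' n : ℕ} {y : Fin (N + 1) → K}
  {y' : Fin (N' + 1) → K}

/-- ample divisors on a small modification are pseudo-effective -/
theorem psef_of_ample (hy' : NormalModel y')
    (hsame : ∀ P, IsPrimeDivisor y P ↔ IsPrimeDivisor y' P)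
    {R : Place ℂ K} (hR : Divisorial n R) {D : Place ℂ K → ℤ} (hD : IsAmple y' n D) :
    PsefD y (fun P => (D P : ℚ)) := by
  obtain ⟨i', hi'⟩ := hy'.ne
  obtain ⟨m, hm, k, hk, h⟩ := hD i' hi'
  obtain ⟨g, hg0, hg, -⟩ := h R hR
  have h1 : ∀ P, IsPrimeDivisor y P → 0 ≤ P.ord g + m * D P := by
    intro P hP
    have hP' := (hsame P).1 hP
    obtain ⟨l, hl⟩ := exists_centred hy' P
    have h2 := hg P l hP' hl
    have h3 := (P.reg_iff (div_ne_zero hi' hl.1)).1 (hl.2 i')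
    have h4 : (0 : ℤ) ≤ k * P.ord (y' i' / y' l) := mul_nonneg (Nat.cast_nonneg _) h3
    linarith
  intro i hi q _
  refine ⟨m, hm, g ^ q, pow_ne_zero _ hg0, fun P l hP hl => ?_⟩
  have h2 := h1 P hP
  have h3 := (P.reg_iff (div_ne_zero hi hl.1)).1 (hl.2 i)
  have h4 : 0 ≤ P.ord (g ^ q) + m * (q * D P + P.ord (y i / y l)) := by
    rw [P.ord_pow]
    have h5 : (0 : ℤ) ≤ q := Nat.cast_nonneg _
    have h6 : (0 : ℤ) ≤ m := Nat.cast_nonneg _
    have h7 := mul_nonneg h5 h2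
    have h8 := mul_nonneg h6 h3
    linarith
  show (0 : ℚ) ≤ ((P.ord (g ^ q) : ℤ) : ℚ) + m * (q * ((D P : ℤ) : ℚ) + P.ord (y i / y l))
  exact_mod_cast h4

/-- the sum of a nef and an ample divisor -/
theorem ample_add (hy : NormalModel y) {A D : Place ℂ K → ℤ}
    (hnef : NefD y n (fun P => ((A P + D P : ℤ) : ℚ)))
    (hamp : IsAmple y n (fun P => A P - D P)) : IsAmple y n A := by
  intro i hi
  obtain ⟨m, hm, k, hk, h1⟩ := hamp i hi
  -- `a = m'`, and `q = m + 1`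
  obtain ⟨m', hm', h2⟩ := hnef i hi (m * (m + 1)) (Nat.mul_pos hm (Nat.succ_pos m))
  refine ⟨2 * m * m' * (m + 1) * 1, Nat.one_le_iff_ne_zero.2 (by positivity),
    m' * ((m + 1) * k) - m', ?_, fun R hR => ?_⟩
  · have h3 : 2 ≤ (m + 1) * k := by nlinarith
    have h4 : m' * 2 ≤ m' * ((m + 1) * k) := Nat.mul_le_mul_left _ h3
    omega
  obtain ⟨g, hg0, hg1, hg2⟩ := h1 R hR
  obtain ⟨g', hg0', hg1', hg2'⟩ := h2 R hR
  have hle : m' ≤ m' * ((m + 1) * k) := by
    have h3 : 1 ≤ (m + 1) * k := by nlinarith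
    calc m' = m' * 1 := (mul_one _).symm
      _ ≤ m' * ((m + 1) * k) := Nat.mul_le_mul_left _ h3
  have hcast : ((m' * ((m + 1) * k) - m' : ℕ) : ℤ) = m' * ((m + 1) * k) - m' := by
    rw [Nat.cast_sub hle]
    push_cast
    ring
  refine ⟨g ^ (m' * (m + 1)) * g', mul_ne_zero (pow_ne_zero _ hg0) hg0', fun P l hP hl => ?_,
    fun P l hP hPR hl => ?_⟩
  · have h3 := hg1 P l hP hl
    have h4 : -((m' : ℤ) * (m * (m + 1)) * (A P + D P)) - m' * P.ord (y i / y l) ≤ P.ord g' := by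
      have h5 := hg1' P l hP hl
      beta_reduce at h5
      push_cast at h5
      exact_mod_cast h5
    rw [P.ord_mul (pow_ne_zero _ hg0) hg0', P.ord_pow, hcast]
    have h5 : (0 : ℤ) ≤ ((m' * (m + 1) : ℕ) : ℤ) := Nat.cast_nonneg _
    have h6 := mul_le_mul_of_nonneg_left h3 h5
    beta_reduce at h6
    push_cast at h6 ⊢
    linarith
  · have h3 := hg2 P l hP hPR hl
    have h4 : P.ord g' = -((m' : ℤ) * (m * (m + 1)) * (A P + D P)) - m' * P.ord (y i / y l) := by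
      have h5 := hg2' P l hP hPR hl
      beta_reduce at h5
      push_cast at h5
      exact_mod_cast h5
    rw [P.ord_mul (pow_ne_zero _ hg0) hg0', P.ord_pow, hcast, h4, h3]
    beta_reduce
    push_cast
    ring

end

section

variable {K' : Type} [Field K'] [Algebra ℂ K'] {N' n r k ρ : ℕ} {y' : Fin (N' + 1) → K'}

/-- **No flips.** -/
theorem no_flips (hy' : NormalModel y') (hn' : Algebra.trdeg ℂ K' = n) (hn0 : 0 < n)
    (hr : 0 < r) {c' : Place ℂ K' → Fin ρ → ℤ} (hc' : PicardBasis y' c')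
    (hq : IrregularityZero y') {φ : (Fin r → ℤ) → (K' ≃ₐ[ℂ] K')}
    (hφ : ∀ u v, φ (u + v) = φ u * φ v) (haut : ∀ v, IsAut (φ v) y')
    (hent : ∀ v, v ≠ 0 → 1 < dynDegree (φ v) y' n 1)
    {u : Fin ρ → Fin ρ → ℤ} (hu : LinearIndependent ℝ (fun j i => (u j i : ℝ)))
    {β : Fin ρ → Fin k} (hβ : ∀ i, ∃ j j', j ≠ j' ∧ β j = i ∧ β j' = i) (hρ : ρ = r + k)
    (hbl : ∀ v, PreservesBlocks y' c' u β (φ v))
    (K : Type) [Field K] [Algebra ℂ K] (N : ℕ) (y : Fin (N + 1) → K) (π : K →ₐ[ℂ] K')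
    (hy : NormalModel y) (hn : Algebra.trdeg ℂ K = n) (hmor : IsMorphism π y y')
    (hπ : FiniteMap π y y') :
    (∀ L : Place ℂ K → ℤ, IsDiv y L → IsQCartier y n L → PsefD y (fun P => (L P : ℚ)) →
      NefD y n (fun P => (L P : ℚ))) ∧
    ∀ (N₁ : ℕ) (y₁ : Fin (N₁ + 1) → K), NormalModel y₁ →
      ∀ D A : Place ℂ K → ℤ, IsDiv y D → IsDiv y A → IsQCartier y n D → IsQCartier y n A →
        ¬ IsFlip y y₁ n D A := by
  obtain ⟨B, hB, h⟩ := blocks_sa hy' hn' hn0 hr hc' hφ haut hent hu hβ hρ hbl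
  have hnef : ∀ L : Place ℂ K → ℤ, IsDiv y L → IsQCartier y n L → PsefD y (fun P => (L P : ℚ)) →
      NefD y n (fun P => (L P : ℚ)) := fun L hL hC hps =>
    nef_of_psef hy hy' hn hn' hn0 hmor hπ hc' hq h.psef hL hC hps
  refine ⟨hnef, fun N₁ y₁ hy₁ D A hD hA hDC hAC hfl => hfl.contr ?_⟩
  -- a divisorial place
  have hρ0 : 0 < ρ := by omega
  obtain ⟨Q, hQ⟩ := exists_primeM hρ0 hc'
  have hess' := hy'.ess
  let _ : Algebra K K' := π.toRingHom.toAlgebra
  have hst : IsScalarTower ℂ K K' :=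
    IsScalarTower.of_algebraMap_eq fun c => (π.commutes c).symm
  have hfd : FiniteDimensional K K' := finite_map hn hn'
  have hR : Divisorial n (bel K Q) := divisorial_down (over_bel K Q) (hQ.divisorial hy' hn')
  have h1 : PsefD y (fun P => ((A P + D P : ℤ) : ℚ)) := psef_of_ample hy₁ hfl.same hR hfl.pos
  have h2 : IsQCartier y n (fun P => A P + D P) := by
    have h3 := qcartier_add hAC hDC 1 1
    simpa using h3
  have h3 : IsDiv y (fun P => A P + D P) := by
    have h4 := div_add hA hD 1 1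
    simpa using h4
  exact ample_add hy (hnef _ h3 h2 h1) hfl.neg

end

end Run7.h528.MB
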