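import Pool.Agent.Run7.h528.MB.SaFull
import Pool.Agent.Run7.h528.MB.QDefs
import Pool.Agent.N110.CC.K2

/-!
# The canonical divisor of finite images of varieties with invariant blocks
-/

set_option autoImplicit false
set_option linter.unusedSectionVars false

open FF Pool.Agent.W602.GT Pool.Agent.Y172 Pool.Agent.R887
open Pool.Agent.N110 Pool.Agent.N110.PA Pool.Agent.N110.NV Pool.Agent.N492.PA Pool.Agent.N110.CC

namespace Run7.h528.MB

section

variable {K : Type} [Field K] [Algebra ℂ K] {N n r k ρ : ℕ} {y : Fin (N + 1) → K}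
  {c : Place ℂ K → Fin ρ → ℤ}

/-- rational classes in the closed effective cone, for groups of pseudo-automorphisms -/
theorem core_ps (hy : NormalModel y) (hn : Algebra.trdeg ℂ K = n) (hn0 : 0 < n) (hr : 0 < r)
    (hc : PicardBasis y c) {φ : (Fin r → ℤ) → (K ≃ₐ[ℂ] K)}
    (hφ : ∀ u v, φ (u + v) = φ u * φ v) (hps : ∀ v, PseudoAut (φ v) y)
    (hent : ∀ v, v ≠ 0 → 1 < dynDegree (φ v) y n 1)
    {u : Fin ρ → Fin ρ → ℤ} (hu : LinearIndependent ℝ (fun j i => (u j i : ℝ)))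
    {β : Fin ρ → Fin k} (hβ : ∀ i, ∃ j j', j ≠ j' ∧ β j = i ∧ β j' = i) (hρ : ρ = r + k)
    (hbl : ∀ v, PreservesBlocks y c u β (φ v)) :
    ∃ e : Fin k → Fin ρ → ℝ,
      (∀ i, IsRat (e i) ∧ e i ∈ closure (effCone y c) ∧ IsBlockSupport u β (e i) {i}) ∧
      ∀ x, IsRat x → x ∈ closure (effCone y c) → ∃ s, IsBlockSupport u β x s ∧
        (∃ t : ℕ, 1 ≤ t ∧ (t : ℝ) • x - ∑ i ∈ s, e i ∈ closure (effCone y c) ∧
          (t : ℝ) • ∑ i ∈ s, e i - x ∈ closure (effCone y c)) ∧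
        (s = Finset.univ → x ∈ interior (closure (effCone y c))) ∧ (s = ∅ ↔ x = 0) := by
  classical
  rw [← ce_eq hy hc]
  obtain ⟨G, B, W, A, b, hB, st, hG, hGE⟩ := setup hy hn hn0 hr hc (𝒮 := psGroup y)
    (fun ψ h => h) hφ hps hent hu hβ hρ hbl
  have hrat : ∀ x, IsRat x → x ∈ CE y c → x ∈ StrB.Bl W A b := by
    intro x hx hxC
    rw [← st.ratHull_eq Pool.Agent.N362.CC.leafCOV]
    obtain ⟨q, rfl⟩ := hx
    exact coneOf_self ⟨hxC, fun i => ⟨q i, rfl⟩⟩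
  have hadd := st.bact.act.pc.add
  have hsm := st.bact.act.pc.smul
  have h0 : (0 : Fin ρ → ℝ) ∈ CE y c := st.zero_mem
  -- an integral class in the interior and its components
  obtain ⟨D, hD, hDi⟩ := exists_den (B := B) β st.bact.int
  have hD' : (0 : ℝ) < D := by exact_mod_cast hD
  obtain ⟨i₀, hi₀⟩ := hy.ne
  obtain ⟨Hy, hHe, hH⟩ := exists_hyp hy hi₀
  obtain ⟨x₀, hx₀⟩ : ∃ x₀, x₀ = toR (cls y (cQ c) Hy) := ⟨_, rfl⟩
  have hx₀i : x₀ ∈ interior (CE y c) := hx₀ ▸ hyp_intN hy hc hi₀ hHe hH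
  have hx₀r : IsRat x₀ := ⟨_, hx₀⟩
  obtain ⟨d, z, hd, hz⟩ := hx₀r.exists_int
  have hd' : (0 : ℝ) < d := by exact_mod_cast hd
  have hzi : (d : ℝ) • x₀ ∈ interior (CE y c) :=
    Pool.Agent.N165.KM.interior_smul_mem st.bact.act.pc.smul hd' hx₀i
  have hpos : ∀ ℓ : W, 0 < b.repr ((d : ℝ) • x₀) ℓ := fun ℓ => st.interior_iff.1 hzi ℓ
  obtain ⟨E, hE⟩ : ∃ E : Fin k → Fin ρ → ℝ, E = fun i => (D : ℝ) • pr B β i ((d : ℝ) • x₀) :=
    ⟨_, rfl⟩
  have hEr : ∀ i, IsRat (E i) := by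
    intro i
    have h2 := hDi i ((d : ℝ) • x₀) fun j => ⟨z j, congrFun hz j⟩
    choose w hw using h2
    refine ⟨fun j => (w j : ℚ), ?_⟩
    rw [hE]
    funext j
    show ((D : ℝ) • pr B β i ((d : ℝ) • x₀)) j = _
    rw [hw j]
    simp [toR]
  have hE0 : ∀ i, E i ≠ 0 := by
    intro i h2
    rw [hE] at h2
    obtain ⟨ℓ, hℓ⟩ := st.A_ne i
    have h3 : pr B β i ((d : ℝ) • x₀) = 0 := by
      rcases smul_eq_zero.1 h2 with h4 | h4
      · exact absurd h4 hD'.ne'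
      · exact h4
    exact (hpos ℓ).ne' (st.pr_eq_zero_iff.1 h3 ℓ hℓ)
  have hEp : ∀ i, pr B β i (E i) = E i := by
    intro i
    rw [hE]
    show pr B β i ((D : ℝ) • pr B β i ((d : ℝ) • x₀)) = (D : ℝ) • pr B β i ((d : ℝ) • x₀)
    rw [map_smul, pr_pr, if_pos rfl]
  have hEn : ∀ i, E i ∈ CE y c := by
    intro i
    rw [hE]
    exact hsm _ hD'.le _ (st.Bl_sub (st.pr_Bl fun ℓ _ => hpos ℓ))
  have hpre : ∀ (s : Finset (Fin k)) i, pr B β i (∑ j ∈ s, E j) = if i ∈ s then E i else 0 := by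
    intro s i
    rw [map_sum]
    have h2 : ∀ j ∈ s, pr B β i (E j) = if i = j then E i else 0 := by
      intro j _
      rw [← hEp j, pr_pr]
      by_cases hij : i = j
      · subst hij
        rw [if_pos rfl, if_pos rfl, hEp]
      · rw [if_neg hij, if_neg hij]
    rw [Finset.sum_congr rfl h2, Finset.sum_ite_eq]
  have hsn : ∀ s : Finset (Fin k), ∑ j ∈ s, E j ∈ CE y c := fun s =>
    Finset.sum_induction _ (· ∈ CE y c) (fun a b ha hb => hadd a ha b hb) h0 fun i _ => hEn i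
  have hdom : ∀ x e, IsRat x → IsRat e → x ∈ CE y c → e ∈ CE y c →
      (∀ i, pr B β i x = 0 → pr B β i e = 0) →
      ∃ t : ℕ, 1 ≤ t ∧ (t : ℝ) • x - e ∈ CE y c := by
    intro x e hx he hxC heC hpt
    refine st.dom hxC fun ℓ hℓ => ?_
    obtain ⟨i, hi⟩ := st.blk.ex ℓ.1 ℓ.2
    rcases hrat x hx hxC i with h2 | h2
    · exact st.pr_eq_zero_iff.1 (hpt i (st.pr_eq_zero_iff.2 h2)) ℓ hi
    · exact absurd hℓ (h2 ℓ hi).ne'
  refine ⟨E, fun i => ⟨hEr i, hEn i, ?_⟩, fun x hx hxC => ?_⟩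
  · rw [support_iff hB]
    intro j
    rw [Finset.mem_singleton]
    constructor
    · rintro rfl
      rw [hEp]
      exact hE0 j
    · intro h1
      by_contra h2
      apply h1
      rw [← hEp i, pr_pr, if_neg h2]
  · obtain ⟨s, hs⟩ : ∃ s : Finset (Fin k), s = Finset.univ.filter fun i => pr B β i x ≠ 0 :=
      ⟨_, rfl⟩
    have hms : ∀ i, i ∈ s ↔ pr B β i x ≠ 0 := fun i => by rw [hs]; simp
    have hpt : ∀ i, pr B β i x = 0 ↔ pr B β i (∑ j ∈ s, E j) = 0 := by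
      intro i
      rw [hpre]
      by_cases hi : i ∈ s
      · rw [if_pos hi]
        exact ⟨fun h2 => absurd h2 ((hms i).1 hi), fun h2 => absurd h2 (hE0 i)⟩
      · rw [if_neg hi]
        refine ⟨fun _ => rfl, fun _ => ?_⟩
        by_contra h2
        exact hi ((hms i).2 h2)
    have hsr : IsRat (∑ j ∈ s, E j) := IsRat.sum s hEr
    refine ⟨s, (support_iff hB).2 hms, ?_, fun h1 => ?_, fun h1 => ?_, fun h1 => ?_⟩
    · obtain ⟨t, ht, h1⟩ := hdom x (∑ j ∈ s, E j) hx hsr hxC (hsn s) fun i => (hpt i).1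
      obtain ⟨t', ht', h2⟩ := hdom (∑ j ∈ s, E j) x hsr hx (hsn s) hxC fun i => (hpt i).2
      refine ⟨t + t', by omega, ?_, ?_⟩
      · have e1 : ((t + t' : ℕ) : ℝ) • x - ∑ j ∈ s, E j = ((t : ℝ) • x - ∑ j ∈ s, E j) +
            (t' : ℝ) • x := by
          push_cast
          rw [add_smul]
          abel
        rw [e1]
        exact hadd _ h1 _ (hsm _ (Nat.cast_nonneg _) _ hxC)
      · have e1 : ((t + t' : ℕ) : ℝ) • ∑ j ∈ s, E j - x = ((t' : ℝ) • ∑ j ∈ s, E j - x) +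
            (t : ℝ) • ∑ j ∈ s, E j := by
          push_cast
          rw [add_smul]
          abel
        rw [e1]
        exact hadd _ h2 _ (hsm _ (Nat.cast_nonneg _) _ (hsn s))
    · rw [st.interior_iff]
      intro ℓ
      obtain ⟨i, hi⟩ := st.blk.ex ℓ.1 ℓ.2
      have h3 : pr B β i x ≠ 0 := (hms i).1 (by rw [h1]; exact Finset.mem_univ i)
      rcases hrat x hx hxC i with h2 | h2
      · exact absurd (st.pr_eq_zero_iff.2 h2) h3
      · exact h2 ℓ hi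
    · rw [← sum_pr (B := B) (β := β) x]
      refine Finset.sum_eq_zero fun i _ => ?_
      by_contra h2
      have h3 := (hms i).2 h2
      rw [h1] at h3
      exact absurd h3 (Finset.notMem_empty i)
    · rw [hs, h1, Finset.filter_eq_empty_iff]
      intro i _ h2
      exact h2 (map_zero _)

end

section

variable {K K' : Type} [Field K] [Algebra ℂ K] [Field K'] [Algebra ℂ K'] {N N' n ρ : ℕ}
  {y : Fin (N + 1) → K} {y' : Fin (N' + 1) → K'}

/-- the anticanonical divisor of a finite image of a variety with numerically trivial canonical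
class -/
theorem anti_image (hy : NormalModel y) (hy' : NormalModel y') (hn : Algebra.trdeg ℂ K = n)
    (hn' : Algebra.trdeg ℂ K' = n) (hn0 : 0 < n) {c' : Place ℂ K' → Fin ρ → ℤ}
    (hc' : PicardBasis y' c')
    (hk0 : ∀ (x' : Fin n → K') (E' : Fin n → Derivation ℂ K' K') (κ' : Place ℂ K' → ℤ),
      Can y' x' E' κ' → divClass y' c' κ' = 0)
    {π : K →ₐ[ℂ] K'} (hπ : FiniteMap π y y') {Δ : Place ℂ K → ℚ}
    (hΔ : {P | IsPrimeDivisor y P ∧ Δ P ≠ 0}.Finite)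
    (hbr : ∀ Q P e, IsPrimeDivisor y' Q → LiesOver π Q P e → 1 ≤ (e : ℚ) * (1 - Δ P))
    {x : Fin n → K} {E : Fin n → Derivation ℂ K K} {κ : Place ℂ K → ℤ} (hx : Can y x E κ)
    (hxt : IsTranscendenceBasis ℂ x)
    {L' : Place ℂ K' → ℚ} (hL' : {Q | IsPrimeDivisor y' Q ∧ L' Q ≠ 0}.Finite)
    (hrel : ∀ Q P e, IsPrimeDivisor y' Q → LiesOver π Q P e → L' Q = -(e * (κ P + Δ P))) :
    toR (cls y' (cQ c') L') ∈ closure (effCone y' c') ∧
      (LogPsef y n Δ ↔ cls y' (cQ c') L' = 0) ∧ LogAntiPsef y n Δ ∧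
      (toR (cls y' (cQ c') L') ∈ interior (closure (effCone y' c')) → LogAntiBig y n Δ) := by
  have hess := hy.ess
  have hess' := hy'.ess
  obtain ⟨x', E', k', h'⟩ := exists_can hy' hn'
  obtain ⟨J, hJ0, hJ⟩ := can_pull hy hy' hn hn' hxt hx h' hπ
  have hk1 : cls y' (cQ c') (fun Q => (k' Q : ℚ)) = 0 := by
    have h1 := hk0 x' E' k' h'
    rw [divClass_div h'.fin] at h1
    apply toR_inj
    rw [h1]
    funext i
    simp [toR]
  obtain ⟨L'', hL'', hrel'', h1''⟩ := Pool.Agent.N340.CC.leafPSUP K K' N N' n y y' hy hy' hn hn'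
    hn0 π hπ (fun P => (κ P : ℚ) + Δ P) (hx.finD hΔ)
  let _ : Algebra K K' := π.toRingHom.toAlgebra
  have hst : IsScalarTower ℂ K K' :=
    IsScalarTower.of_algebraMap_eq fun c => (π.commutes c).symm
  have hfd : FiniteDimensional K K' := finite_map hn hn'
  have hov : ∀ Q : Place ℂ K', LiesOver π Q (bel K Q) (ram K Q) := fun Q => over_bel K Q
  have hJf : Fin0 y' (fun Q => (Q.ord J : ℚ)) := fin_cast (finite_ord hy' hJ0)
  have hk'f : Fin0 y' (fun Q => (k' Q : ℚ)) := fin_cast h'.fin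
  have hR : Effective y' (fun Q => ((k' Q : ℚ) + (Q.ord J : ℚ)) + L' Q) := by
    refine ⟨fun Q hQ => ?_, Fin0.add (Fin0.add hk'f hJf) hL'⟩
    have h2 := hJ Q _ _ hQ (hov Q)
    have h3 := hbr Q _ _ hQ (hov Q)
    have h4 := hrel Q _ _ hQ (hov Q)
    have h5 : (((ram K Q : ℤ) - 1 + ram K Q * κ (bel K Q) : ℤ) : ℚ) ≤
        ((k' Q + Q.ord J : ℤ) : ℚ) := by
      exact_mod_cast h2
    push_cast at h5
    beta_reduce
    rw [h4]
    linarith
  have hcls : cls y' (cQ c') (fun Q => ((k' Q : ℚ) + (Q.ord J : ℚ)) + L' Q) =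
      cls y' (cQ c') L' := by
    have h2 : cls y' (cQ c') (fun Q => (Q.ord J : ℚ)) = 0 := hc'.numClasses.principal J hJ0
    rw [cls_add (Fin0.add hk'f hJf) hL', cls_add hk'f hJf, hk1, h2, zero_add, zero_add]
  have hce : toR (cls y' (cQ c') L') ∈ CE y' c' := by
    rw [← hcls]
    exact subset_closure (eff_mem hR)
  have hneg : cls y' (cQ c') L'' = -cls y' (cQ c') L' := by
    rw [← cls_neg]
    refine cls_congr fun Q hQ => ?_
    rw [hrel'' Q _ _ hQ (hov Q), hrel Q _ _ hQ (hov Q)]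
    ring
  have hrelN : ∀ Q P e, IsPrimeDivisor y' Q → LiesOver π Q P e →
      L' Q = e * (fun P => -((κ P : ℚ) + Δ P)) P := fun Q P e hQ hl => by
    rw [hrel Q P e hQ hl]
    ring
  refine ⟨(ce_eq hy' hc') ▸ hce, ⟨fun hps' => ?_, fun h0 => ?_⟩, ?_, fun hint => ?_⟩
  · have h2 := Pool.Agent.N618.CC.leafPSCL K' N' ρ y' hy' (cQ c')
      hc'.numClasses.principal L'' hL'' (h1'' (hx.psef hps'))
    rw [hneg, toR_neg] at h2
    exact toR_inj (((pc_eff hc'.numClasses).pointed _ hce h2).trans (by funext i; simp [toR]))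
  · exact hx.logPsef (Pool.Agent.N701.CC.leafPSDN Pool.Agent.N832.CC.leafNORM
      Pool.Agent.N252.CC.leafPUSH K K' N N' n y y' hy hy' hn hn' hn0 π hπ _ L'' hrel''
      (psef_of_zero hc'.numClasses hL'' (by rw [hneg, h0, neg_zero])))
  · refine hx.anti (Pool.Agent.N701.CC.leafPSDN Pool.Agent.N832.CC.leafNORM
      Pool.Agent.N252.CC.leafPUSH K K' N N' n y y' hy hy' hn hn' hn0 π hπ _ L' hrelN ?_)
    intro i hi q hq
    obtain ⟨m, hm, f, hf, h1⟩ := psef_of_zero hc'.numClasses (fin_neg hk'f)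
      (by rw [cls_neg, hk1, neg_zero]) i hi q hq
    refine ⟨m, hm, f * J ^ (m * q), mul_ne_zero hf (pow_ne_zero _ hJ0), fun P l hP hl => ?_⟩
    have h2 := h1 P l hP hl
    have h3 := hR.1 P hP
    have h4 : (0 : ℚ) ≤ m * q := by positivity
    have h5 := mul_nonneg h4 h3
    rw [P.ord_mul hf (pow_ne_zero _ hJ0), P.ord_pow]
    push_cast
    linarith
  · exact hx.antiBig (Pool.Agent.N8.CC.leafBGDN Pool.Agent.N832.CC.leafNORM
      Pool.Agent.N340.CC.leafPSUP K K' N N' n y y' hy hy' hn hn' hn0 π hπ _ L' hrelN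
      (Pool.Agent.N619.CC.leafBIG K' N' ρ y' hy' c' hc' L' hL' (by
        rw [← ce_eq hy' hc'] at hint
        exact hint)))

end

section

variable {K' : Type} [Field K'] [Algebra ℂ K'] {N' n r k ρ : ℕ} {y' : Fin (N' + 1) → K'}

/-- **The canonical divisors of the finite images.** -/
theorem quotients_blocks
    (hy' : NormalModel y') (hn' : Algebra.trdeg ℂ K' = n) (hn0 : 0 < n) (hr : 0 < r)
    {c' : Place ℂ K' → Fin ρ → ℤ} (hc' : PicardBasis y' c')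
    {φ : (Fin r → ℤ) → (K' ≃ₐ[ℂ] K')} (hφ : ∀ u v, φ (u + v) = φ u * φ v)
    (hps : ∀ v, PseudoAut (φ v) y') (hent : ∀ v, v ≠ 0 → 1 < dynDegree (φ v) y' n 1)
    {u : Fin ρ → Fin ρ → ℤ} (hu : LinearIndependent ℝ (fun j i => (u j i : ℝ)))
    {β : Fin ρ → Fin k} (hβ : ∀ i, ∃ j j', j ≠ j' ∧ β j = i ∧ β j' = i) (hρ : ρ = r + k)
    (hbl : ∀ v, PreservesBlocks y' c' u β (φ v)) :
    ∃ e : Fin k → Fin ρ → ℝ,
      (∀ i, IsRat (e i) ∧ e i ∈ closure (effCone y' c') ∧ IsBlockSupport u β (e i) {i}) ∧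
      ∀ (K : Type) [Field K] [Algebra ℂ K] (N : ℕ) (y : Fin (N + 1) → K) (π : K →ₐ[ℂ] K')
        (Δ : Place ℂ K → ℚ), NormalModel y → Algebra.trdeg ℂ K = n → FiniteMap π y y' →
        {P | IsPrimeDivisor y P ∧ Δ P ≠ 0}.Finite →
        (∀ Q P e, IsPrimeDivisor y' Q → LiesOver π Q P e → 1 ≤ (e : ℚ) * (1 - Δ P)) →
        LogAntiPsef y n Δ ∧ (LogPsef y n Δ → IrregularityZero y → LogTorsion y n Δ) ∧
        ∀ (x : Fin n → K) (E : Fin n → Derivation ℂ K K) (κ : Place ℂ K → ℤ) (z : Fin ρ → ℝ),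
          IsTranscendenceBasis ℂ x → Can y x E κ →
          IsPullBackClass π y' c' (fun P => -(κ P + Δ P)) z →
          ∃ s, HasFace u β (closure (effCone y' c')) e z s ∧ (s = ∅ ↔ LogPsef y n Δ) ∧
            (s = Finset.univ → LogAntiBig y n Δ) := by
  obtain ⟨e, he, h⟩ := core_ps hy' hn' hn0 hr hc' hφ hps hent hu hβ hρ hbl
  have hk0 : ∀ (x' : Fin n → K') (E' : Fin n → Derivation ℂ K' K') (κ' : Place ℂ K' → ℤ),
      Can y' x' E' κ' → divClass y' c' κ' = 0 := fun x' E' κ' h' =>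
    can_zeroB hy' hn' hn0 hr hc' hφ hps hent hu hβ hρ hbl h'
  refine ⟨e, he, ?_⟩
  intro K _ _ N y π Δ hy hn hπ hΔ hbr
  have hrelN : ∀ (κ : Place ℂ K → ℤ) (L' : Place ℂ K' → ℚ),
      (∀ Q P e, IsPrimeDivisor y' Q → LiesOver π Q P e →
        L' Q = e * (fun P => -((κ P : ℚ) + Δ P)) P) →
      ∀ Q P e, IsPrimeDivisor y' Q → LiesOver π Q P e → L' Q = -(e * (κ P + Δ P)) := by
    intro κ L' hrel Q P e hQ hl
    rw [hrel Q P e hQ hl]
    ring
  have hess := hy.ess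
  obtain ⟨x, E, hx, hE⟩ := exists_crd hn (k := ℂ) (K := K)
  have hfr : IsFrame E := fun F => ⟨fun j => F (x j),
    (Pool.Agent.W73.PG.PULL.expand x hx E hE F).symm⟩
  obtain ⟨κ, hkf, hk⟩ := exists_ordc hy hn hx hE
  have hcan : Can y x E κ := ⟨hfr, hE, hkf, hk⟩
  obtain ⟨L', hL', hrel, -⟩ := Pool.Agent.N340.CC.leafPSUP K K' N N' n y y' hy hy' hn hn' hn0 π hπ
    (fun P => -((κ P : ℚ) + Δ P)) (fin_neg (hcan.finD hΔ))
  obtain ⟨g1, g2, g3, g4⟩ := anti_image hy hy' hn hn' hn0 hc' hk0 hπ hΔ hbr hcan hx hL'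
    (hrelN κ L' hrel)
  refine ⟨g3, fun h1 hq0 => ?_, ?_⟩
  · have h2 := hcan.psef h1
    have h3 : PsefD y (fun P => -((κ P : ℚ) + Δ P)) :=
      Pool.Agent.N701.CC.leafPSDN Pool.Agent.N832.CC.leafNORM Pool.Agent.N252.CC.leafPUSH
        K K' N N' n y y' hy hy' hn hn' hn0 π hπ _ L' hrel
        (psef_of_zero hc'.numClasses hL' (g2.1 h1))
    exact hcan.torsion (Pool.Agent.N110.CC.torsion hy hq0 (hcan.finD hΔ) h2 h3)
  · rintro x E κ _ hxt hx ⟨L', hL', hrel, rfl⟩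
    obtain ⟨h1, h2, h3, h4⟩ := anti_image hy hy' hn hn' hn0 hc' hk0 hπ hΔ hbr hx hxt hL'
      (hrelN κ L' hrel)
    obtain ⟨s, h5, h6, h7, h8⟩ := h _ ⟨_, rfl⟩ h1
    refine ⟨s, ⟨h5, h6⟩, ?_, fun h9 => h4 (h7 h9)⟩
    rw [h2, h8]
    constructor
    · intro h9
      apply toR_inj
      rw [h9]
      funext i
      simp [toR]
    · intro h9
      rw [h9]
      funext i
      simp [toR]

end

end Run7.h528.MB
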