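import Pool.Agent.Run7.h528.MB.Defs

/-!
# Definitions: numerically semiample divisors
-/

set_option autoImplicit false

open FF Pool.Agent.W602.GT Pool.Agent.Y172 Pool.Agent.R887 Pool.Agent.N110.CC

namespace Run7.h528.MB

section

variable {K : Type} [Field K] [Algebra ℂ K] {N ρ k : ℕ}

/-- The class `x` in `N¹(X) ⊗ ℝ`, `n` being the dimension of `X`, is the class of a semiample
`ℚ`-divisor: for some `m ≥ 1` the class `m x` is the class of a base point free divisor. -/
def SemiampleClass (y : Fin (N + 1) → K) (n : ℕ) (c : Place ℂ K → Fin ρ → ℤ) (x : Fin ρ → ℝ) :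
    Prop :=
  ∃ m : ℕ, 1 ≤ m ∧ ∃ D : Place ℂ K → ℤ, IsFree y n D ∧ divClass y c D = (m : ℝ) • x

/-- `s` is the set of the `i` such that the component of the class `x` in the block `i` is not zero.
(The classes `u j` are a basis of `N¹(X) ⊗ ℝ`, and the block `i` is generated by the `u j` with
`β j = i`.) -/
def IsBlockSupport (u : Fin ρ → Fin ρ → ℤ) (β : Fin ρ → Fin k) (x : Fin ρ → ℝ)
    (s : Finset (Fin k)) : Prop :=
  ∃ a : Fin ρ → ℝ, x = comb u a ∧ ∀ i, i ∈ s ↔ ∃ l, β l = i ∧ a l ≠ 0

/-- `L` is a divisor on `X`, up to its values on places which are not prime divisors: finitely many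
prime divisors have a nonzero coefficient. -/
def IsDiv (y : Fin (N + 1) → K) (L : Place ℂ K → ℤ) : Prop :=
  {P | IsPrimeDivisor y P ∧ L P ≠ 0}.Finite

/-- The divisor `L` is semiample: for some `m ≥ 1` the divisor `m L` is base point free. -/
def IsSemiample (y : Fin (N + 1) → K) (n : ℕ) (L : Place ℂ K → ℤ) : Prop :=
  ∃ m : ℕ, 1 ≤ m ∧ IsFree y n (fun P => m * L P)

end

end Run7.h528.MB
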