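import Pool.Agent.Run7.h528.MB.Face
import Pool.Agent.Run7.h528.MB.Full
import Pool.Agent.Run7.h528.MB.SDefs
import Pool.Agent.N110.CC.SA

/-!
# Semiampleness for abelian groups of rank `ρ - k` with `k` invariant blocks of `N¹(X)`
-/

set_option autoImplicit false
set_option linter.unusedSectionVars false

open FF Pool.Agent.W602.GT Pool.Agent.Y172 Pool.Agent.R887
open Pool.Agent.N110 Pool.Agent.N110.PA Pool.Agent.N110.NV Pool.Agent.N492.PA Pool.Agent.N110.CC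

namespace Run7.h528.MB

section

variable {K : Type} [Field K] [Algebra ℂ K] {N n r k ρ : ℕ} {y : Fin (N + 1) → K}
  {c : Place ℂ K → Fin ρ → ℤ} {𝒮 : Subgroup (K ≃ₐ[ℂ] K)}

/-- the action on `N¹(X)` -/
theorem setup (hy : NormalModel y) (hn : Algebra.trdeg ℂ K = n) (hn0 : 0 < n) (hr : 0 < r)
    (hc : PicardBasis y c) (h𝒮 : ∀ φ ∈ 𝒮, PseudoAut φ y) {φ : (Fin r → ℤ) → (K ≃ₐ[ℂ] K)}
    (hφ : ∀ u v, φ (u + v) = φ u * φ v) (hφ𝒮 : ∀ v, φ v ∈ 𝒮)
    (hent : ∀ v, v ≠ 0 → 1 < dynDegree (φ v) y n 1)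
    {u : Fin ρ → Fin ρ → ℤ} (hu : LinearIndependent ℝ (fun j i => (u j i : ℝ)))
    {β : Fin ρ → Fin k} (hβ : ∀ i, ∃ j j', j ≠ j' ∧ β j = i ∧ β j' = i) (hρ : ρ = r + k)
    (hbl : ∀ v, PreservesBlocks y c u β (φ v)) :
    ∃ (G : (Fin r → ℤ) → ((Fin ρ → ℝ) →ₗ[ℝ] (Fin ρ → ℝ)))
      (B : Module.Basis (Fin ρ) ℝ (Fin ρ → ℝ)) (W : Finset (Frm r)) (A : Fin k → Finset (Frm r))
      (b : Module.Basis W ℝ (Fin ρ → ℝ)), (∀ j, B j = fun i => (u j i : ℝ)) ∧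
      StrB (CE y c) G B β W A b ∧ (∀ v, ∃ T : (Fin ρ → ℝ) ≃ₗ[ℝ] (Fin ρ → ℝ),
        IsPullBack y c (φ v) T ∧ ∀ x, G v x = T x) ∧
      ∀ v, ∀ x ∈ effCone y c, G v x ∈ effCone y c := by
  classical
  have hρ0 : 0 < ρ := by omega
  obtain ⟨M, hM⟩ := exists_rep hy hc h𝒮
  have hpc := pc_eff hc.numClasses
  have hpres := pres_S hy hc hM
  have hφ0 : φ 0 = 1 := phi_zero hφ
  have hφn : ∀ v, φ (-v) = (φ v)⁻¹ := by
    intro v
    rw [eq_inv_iff_mul_eq_one, ← hφ, neg_add_cancel, hφ0]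
  obtain ⟨a0, δ, ha0, hδ, hg⟩ := Pool.Agent.N27.CC.leafGROW K N n ρ r y hy hn hn0 hr hρ0
    c hc φ hφ (fun v => h𝒮 _ (hφ𝒮 v)) hent (fun v => M (φ v)) (by
      show M (φ 0) = 1
      rw [hφ0, hM.one]) (fun u v => by
      show M (φ (u + v)) = M (φ u) * M (φ v)
      rw [hφ, hM.mul _ (hφ𝒮 u) _ (hφ𝒮 v)]) (fun v P hP => by
      show (M (φ v)).mulVec (c P) = c (comap (φ (-v)) P)
      rw [hM.pull _ (hφ𝒮 v) P hP, hφn])
  obtain ⟨i₀, hi₀⟩ := hy.ne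
  obtain ⟨Hy, hHe, hH⟩ := exists_hyp hy hi₀
  have hρR : (0 : ℝ) < ρ := by exact_mod_cast hρ0
  have hact : ActM r ρ (CE y c) (fun v => TR (M (φ v))) := by
    refine ⟨hρ0, hpc, ⟨_, hyp_intN hy hc hi₀ hHe hH⟩, ?_, fun u v => ?_,
      fun v x hx => hpres _ (hφ𝒮 v) x hx, a0 / ρ, δ, div_pos ha0 hρR, hδ, fun v => ?_⟩
    · show TR (M (φ 0)) = 1
      rw [hφ0, hM.one, TR_one]
    · show TR (M (φ (u + v))) = TR (M (φ u)) * TR (M (φ v))
      rw [hφ, hM.mul _ (hφ𝒮 u) _ (hφ𝒮 v), TR_mul]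
    · rw [div_mul_eq_mul_div, div_le_iff₀ hρR]
      refine (hg v).trans ?_
      rw [Finset.sum_comm, Finset.sum_mul]
      refine Finset.sum_le_sum fun j _ => ?_
      have h3 : ∀ i, |(M (φ v) i j : ℝ)| ≤ ‖TR (M (φ v)) (Pi.single j 1)‖ := by
        intro i
        have h4 := norm_le_pi_norm (TR (M (φ v)) (Pi.single j 1)) i
        have h5 : TR (M (φ v)) (Pi.single j 1) i = (M (φ v) i j : ℝ) := by
          rw [TR, Matrix.toLin'_apply, Matrix.mulVec_single_one]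
          rfl
        rwa [h5, Real.norm_eq_abs] at h4
      refine (Finset.sum_le_sum fun i _ => h3 i).trans (le_of_eq ?_)
      rw [Finset.sum_const, Finset.card_univ, Fintype.card_fin, nsmul_eq_mul]
      ring
  have hne : Nonempty (Fin ρ) := ⟨⟨0, hρ0⟩⟩
  obtain ⟨B, hB⟩ : ∃ B : Module.Basis (Fin ρ) ℝ (Fin ρ → ℝ), ∀ j, B j = fun i => (u j i : ℝ) :=
    ⟨basisOfLinearIndependentOfCardEqFinrank hu (by
      rw [Fintype.card_fin, Module.finrank_fin_fun]), fun j => by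
        rw [coe_basisOfLinearIndependentOfCardEqFinrank]⟩
  have hbact : BAct r k ρ (CE y c) (fun v => TR (M (φ v))) B β := by
    refine ⟨hact, fun j i => ⟨u j i, by rw [hB]⟩, fun v j => ?_, hβ, hρ, fun v x hx =>
      TR_int _ hx⟩
    obtain ⟨a, ha0, ha1⟩ := hbl v (hM.TE ⟨φ v, hφ𝒮 v⟩) (hM.isPull ⟨φ v, hφ𝒮 v⟩) j
    refine ⟨a, ha0, ?_⟩
    rw [hM.TE_apply] at ha1
    rw [hB, ha1]
    unfold comb
    exact Finset.sum_congr rfl fun l _ => by rw [hB]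
  obtain ⟨W, A, b, st⟩ := exists_strB Pool.Agent.N386.CC.leafPF
    (Pool.Agent.N707.CC.leafCE Pool.Agent.N386.CC.leafPF)
    (Pool.Agent.N394.CC.leafIND Pool.Agent.N395.CC.leafSEP) hbact
  exact ⟨_, B, W, A, b, hB, st, fun v => ⟨hM.TE ⟨φ v, hφ𝒮 v⟩, hM.isPull ⟨φ v, hφ𝒮 v⟩,
    fun x => rfl⟩, fun v => presE_S hM (φ v) (hφ𝒮 v)⟩

/-- the cone generated by the classes of the base point free divisors -/
def freeCone (y : Fin (N + 1) → K) (n : ℕ) (c : Place ℂ K → Fin ρ → ℤ) : Set (Fin ρ → ℝ) :=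
  coneOf {z | ∃ D, IsFree y n D ∧ z = divClass y c D}

/-- classes with rational coordinates -/
def IsRat (x : Fin ρ → ℝ) : Prop := ∃ q : Fin ρ → ℚ, x = toR q

theorem exists_divisor (hc : PicardBasis y c) (x : Fin ρ → ℤ) :
    ∃ L : Place ℂ K → ℤ, IsDiv y L ∧ cls y (cQ c) (fun P => (L P : ℚ)) = fun i => (x i : ℚ) := by
  classical
  have hf : ∀ {L : Place ℂ K → ℤ}, IsDiv y L → Fin0 y (fun P => (L P : ℚ)) := fun {L} hL => by
    refine hL.subset ?_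
    rintro P ⟨h1, h2⟩
    exact ⟨h1, fun h3 => h2 (by show ((L P : ℤ) : ℚ) = 0; rw [h3]; simp)⟩
  refine AddSubgroup.closure_induction (p := fun x _ => ∃ L : Place ℂ K → ℤ, IsDiv y L ∧
    cls y (cQ c) (fun P => (L P : ℚ)) = fun i => (x i : ℚ)) ?_ ?_ ?_ ?_ (hc.generate x)
  · rintro _ ⟨P, hP, rfl⟩
    refine ⟨fun Q => if Q = P then 1 else 0, ?_, ?_⟩
    · refine (Set.finite_singleton P).subset ?_
      rintro Q ⟨-, h2⟩
      by_contra h3
      exact h2 (if_neg h3)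
    · rw [cls_finset (T := {P}) (fun Q hQ => by
        rw [Finset.mem_singleton] at hQ
        rw [hQ]
        exact hP) (fun Q _ hQ => by
        rw [Finset.mem_singleton] at hQ
        show (((if Q = P then 1 else 0 : ℤ) : ℤ) : ℚ) = 0
        rw [if_neg hQ]
        simp)]
      rw [Finset.sum_singleton]
      show (((if P = P then 1 else 0 : ℤ) : ℤ) : ℚ) • cQ c P = _
      rw [if_pos rfl, Int.cast_one, one_smul]
      rfl
  · refine ⟨fun _ => 0, ?_, ?_⟩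
    · refine Set.finite_empty.subset ?_
      rintro Q ⟨-, h2⟩
      exact h2 rfl
    · rw [cls_finset (T := ∅) (fun Q hQ => absurd hQ (Finset.notMem_empty Q)) fun Q _ _ => by
        simp]
      rw [Finset.sum_empty]
      funext i
      simp
  · rintro x z _ _ ⟨L, hL, h1⟩ ⟨L', hL', h2⟩
    refine ⟨fun P => L P + L' P, ?_, ?_⟩
    · refine (hL.union hL').subset ?_
      rintro P ⟨hP, h0⟩
      by_cases h3 : L P = 0
      · exact Or.inr ⟨hP, fun h4 => h0 (by show L P + L' P = 0; rw [h3, h4, add_zero])⟩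
      · exact Or.inl ⟨hP, h3⟩
    · have h3 : (fun P => ((L P + L' P : ℤ) : ℚ)) = fun P => (L P : ℚ) + (L' P : ℚ) := by
        funext P
        push_cast
        rfl
      rw [h3, cls_add (hf hL) (hf hL'), h1, h2]
      funext i
      rw [Pi.add_apply, Pi.add_apply]
      push_cast
      rfl
  · rintro x _ ⟨L, hL, h1⟩
    refine ⟨fun P => -L P, ?_, ?_⟩
    · refine hL.subset ?_
      rintro P ⟨hP, h0⟩
      exact ⟨hP, fun h4 => h0 (by show -L P = 0; rw [h4, neg_zero])⟩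
    · have h3 : (fun P => ((-L P : ℤ) : ℚ)) = fun P => -(L P : ℚ) := by
        funext P
        push_cast
        rfl
      rw [h3, cls_neg, h1]
      funext i
      rw [Pi.neg_apply, Pi.neg_apply]
      push_cast
      rfl

theorem fin0_div {L : Place ℂ K → ℤ} (hL : IsDiv y L) : Fin0 y (fun P => (L P : ℚ)) := by
  refine hL.subset ?_
  rintro P ⟨h1, h2⟩
  exact ⟨h1, fun h3 => h2 (by show ((L P : ℤ) : ℚ) = 0; rw [h3]; simp)⟩

theorem divClass_div {L : Place ℂ K → ℤ} (hL : IsDiv y L) :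
    divClass y c L = toR (cls y (cQ c) (fun P => (L P : ℚ))) :=
  Pool.Agent.N681.CC.divClass_eq c hL

theorem isRat_divClass {L : Place ℂ K → ℤ} (hL : IsDiv y L) : IsRat (divClass y c L) :=
  ⟨_, divClass_div hL⟩

theorem IsRat.exists_int {x : Fin ρ → ℝ} (hx : IsRat x) :
    ∃ (d : ℕ) (z : Fin ρ → ℤ), 0 < d ∧ (d : ℝ) • x = fun i => (z i : ℝ) := by
  obtain ⟨q, rfl⟩ := hx
  obtain ⟨d, w, hd, hw⟩ := Pool.Agent.N340.CC.common q
  refine ⟨d, w, hd, ?_⟩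
  funext j
  have h2 := congrFun hw j
  rw [Pi.smul_apply, smul_eq_mul] at h2
  have h3 : ((w j : ℤ) : ℚ) = d * q j := h2
  have h4 := congrArg (fun q : ℚ => (q : ℝ)) h3
  push_cast at h4
  rw [Pi.smul_apply, smul_eq_mul]
  show (d : ℝ) * ((q j : ℚ) : ℝ) = _
  exact h4.symm

/-- a multiple of a rational class is the class of a divisor -/
theorem IsRat.exists_divisor {x : Fin ρ → ℝ} (hc : PicardBasis y c) (hx : IsRat x) :
    ∃ (d : ℕ) (L : Place ℂ K → ℤ), 0 < d ∧ IsDiv y L ∧ divClass y c L = (d : ℝ) • x := by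
  obtain ⟨d, z, hd, hz⟩ := hx.exists_int
  obtain ⟨L, hL, hcL⟩ := Run7.h528.MB.exists_divisor hc z
  refine ⟨d, L, hd, hL, ?_⟩
  rw [divClass_div hL, hcL, hz]
  funext i
  simp [toR]

theorem free_isDiv {D : Place ℂ K → ℤ} (hD : IsFree y n D) : IsDiv y D := hD.1

/-- a divisor with class in the cone of free divisors -/
theorem num_of_cone (hy : NormalModel y) {L : Place ℂ K → ℤ} (hL : IsDiv y L)
    (h : divClass y c L ∈ freeCone y n c) : ∃ m : ℕ, 1 ≤ m ∧ ∃ D : Place ℂ K → ℤ, IsFree y n D ∧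
      cls y (cQ c) (fun P => m * (L P : ℚ) - D P) = 0 := by
  rw [divClass_div hL] at h
  exact free_of_class hy (fin0_div hL) h

theorem sa_of_cone (hy : NormalModel y) (hc : PicardBasis y c) {x : Fin ρ → ℝ} (hx : IsRat x)
    (h : x ∈ freeCone y n c) : SemiampleClass y n c x := by
  obtain ⟨d, L, hd, hL, hx'⟩ := hx.exists_divisor hc
  have h1 : divClass y c L ∈ freeCone y n c := by
    rw [hx']
    exact coneOf_smul h (Nat.cast_nonneg d)
  obtain ⟨m, hm, D, hD, h0⟩ := num_of_cone hy hL h1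
  refine ⟨m * d, Nat.one_le_iff_ne_zero.2 (by positivity), D, hD, ?_⟩
  rw [cls_sub ((fin0_div hL).smul (m : ℚ)) (fin0_div (free_isDiv hD)), cls_smul, sub_eq_zero] at h0
  rw [divClass_div (free_isDiv hD), ← h0, toR_smul, ← divClass_div hL, hx', smul_smul]
  push_cast
  rfl

theorem cone_of_sa {x : Fin ρ → ℝ} (h : SemiampleClass y n c x) : x ∈ freeCone y n c := by
  obtain ⟨m, hm, D, hD, h1⟩ := h
  have hm0 : (0 : ℝ) < m := by exact_mod_cast hm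
  have h2 : x = (m : ℝ)⁻¹ • divClass y c D := by
    rw [h1, smul_smul, inv_mul_cancel₀ hm0.ne', one_smul]
  rw [h2]
  have h3 : divClass y c D ∈ freeCone y n c := coneOf_self ⟨D, hD, rfl⟩
  exact coneOf_smul h3 (inv_nonneg.2 hm0.le)

/-- the conclusions for rational classes -/
structure ConclS (y : Fin (N + 1) → K) (n : ℕ) (c : Place ℂ K → Fin ρ → ℤ)
    (B : Module.Basis (Fin ρ) ℝ (Fin ρ → ℝ)) (β : Fin ρ → Fin k) : Prop where
  amp : ∀ x, IsRat x → x ∈ nefCone y n c → (∀ i, pr B β i x ≠ 0) →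
    x ∈ interior (nefCone y n c) ∧ x ∈ freeCone y n c
  same : ∀ x e, IsRat x → IsRat e → x ∈ nefCone y n c → e ∈ nefCone y n c →
    (∀ i, pr B β i x = 0 ↔ pr B β i e = 0) → e ∈ freeCone y n c → x ∈ freeCone y n c
  sameE : ∀ x e, IsRat x → IsRat e → x ∈ nefCone y n c → e ∈ nefCone y n c →
    (∀ i, pr B β i x = 0 ↔ pr B β i e = 0) → e ∈ effCone y c → x ∈ effCone y c
  dom : ∀ x e, IsRat x → IsRat e → x ∈ nefCone y n c → e ∈ nefCone y n c →
    (∀ i, pr B β i x = 0 → pr B β i e = 0) → ∃ t : ℕ, 1 ≤ t ∧ (t : ℝ) • x - e ∈ nefCone y n c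
  gen : ∃ e : Fin k → Fin ρ → ℝ, ∀ i, IsRat (e i) ∧ e i ≠ 0 ∧ pr B β i (e i) = e i ∧
    e i ∈ nefCone y n c
  psef : CE y c = nefCone y n c

theorem blocks_sa (hy : NormalModel y) (hn : Algebra.trdeg ℂ K = n) (hn0 : 0 < n) (hr : 0 < r)
    (hc : PicardBasis y c) {φ : (Fin r → ℤ) → (K ≃ₐ[ℂ] K)}
    (hφ : ∀ u v, φ (u + v) = φ u * φ v) (haut : ∀ v, IsAut (φ v) y)
    (hent : ∀ v, v ≠ 0 → 1 < dynDegree (φ v) y n 1)
    {u : Fin ρ → Fin ρ → ℤ} (hu : LinearIndependent ℝ (fun j i => (u j i : ℝ)))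
    {β : Fin ρ → Fin k} (hβ : ∀ i, ∃ j j', j ≠ j' ∧ β j = i ∧ β j' = i) (hρ : ρ = r + k)
    (hbl : ∀ v, PreservesBlocks y c u β (φ v)) :
    ∃ B : Module.Basis (Fin ρ) ℝ (Fin ρ → ℝ), (∀ j, B j = fun i => (u j i : ℝ)) ∧
      ConclS y n c B β := by
  classical
  obtain ⟨G, B, W, A, b, hB, st, hG, hGE⟩ := setup hy hn hn0 hr hc (𝒮 := autGroup y)
    (fun ψ h => isAut_psM hy h) hφ haut hent hu hβ hρ hbl
  have hnef : nefCone y n c = CE y c := by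
    rw [(full_nef hy hn hn0 hr hc (𝒮 := autGroup y) (fun _ h => h) hφ haut hent hu hβ hρ hbl).eq,
      ce_eq hy hc]
  have hcl : closure (freeCone y n c) = CE y c := hnef
  have hFC : freeCone y n c ⊆ CE y c := hcl ▸ subset_closure
  have hadd : ∀ x ∈ freeCone y n c, ∀ z ∈ freeCone y n c, x + z ∈ freeCone y n c :=
    fun x hx z hz => coneOf_add hx hz
  have hsm : ∀ t : ℝ, 0 ≤ t → ∀ x ∈ freeCone y n c, t • x ∈ freeCone y n c :=
    fun t ht x hx => coneOf_smul hx ht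
  have hpr : ∀ v, ∀ x ∈ freeCone y n c, G v x ∈ freeCone y n c := by
    intro v x hx
    obtain ⟨T, hT, hGT⟩ := hG v
    rw [hGT]
    have hfr := Pool.Agent.N265.CC.leafFREE K N n y hy (φ v) (haut v)
    refine coneOf_map T.toLinearMap ?_ hx
    rintro _ ⟨D', hD', rfl⟩
    have h4 := Pool.Agent.N608.CC.leafMOV K N ρ y hy c (φ v) hfr.1 T hT D' hD'.1
    exact ⟨_, hfr.2 D' hD', h4.1.symm⟩
  have hint : interior (CE y c) ⊆ freeCone y n c := by
    rw [← hcl]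
    refine interior_closure_sub ?_
    show (interior (closure (freeCone y n c))).Nonempty
    rw [hcl]
    exact st.bact.act.int
  have hrat : ∀ x, IsRat x → x ∈ CE y c → x ∈ StrB.Bl W A b := by
    intro x hx hxC
    rw [← st.ratHull_eq Pool.Agent.N362.CC.leafCOV]
    obtain ⟨q, rfl⟩ := hx
    exact coneOf_self ⟨hxC, fun i => ⟨q i, rfl⟩⟩
  have hsame : ∀ x e, IsRat x → IsRat e → x ∈ CE y c → e ∈ CE y c →
      (∀ i, pr B β i x = 0 ↔ pr B β i e = 0) → e ∈ freeCone y n c → x ∈ freeCone y n c :=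
    fun x e hx he hxC heC hpt heF => st.face hFC hadd hsm hpr heF hxC
      (st.same (hrat x hx hxC) (hrat e he heC) hpt)
  have hF0 : (0 : Fin ρ → ℝ) ∈ freeCone y n c := coneOf_zero _
  -- an integral class in the interior and its components
  obtain ⟨D, hD, hDi⟩ := exists_den (B := B) β st.bact.int
  have hD' : (0 : ℝ) < D := by exact_mod_cast hD
  obtain ⟨i₀, hi₀⟩ := hy.ne
  obtain ⟨Hy, hHe, hH⟩ := exists_hyp hy hi₀
  obtain ⟨x₀, hx₀⟩ : ∃ x₀, x₀ = toR (cls y (cQ c) Hy) := ⟨_, rfl⟩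
  have hx₀i : x₀ ∈ interior (CE y c) := hx₀ ▸ hyp_intN hy hc hi₀ hHe hH
  have hx₀r : IsRat x₀ := ⟨_, hx₀⟩
  obtain ⟨d, z, hd, hz⟩ := hx₀r.exists_int
  have hd' : (0 : ℝ) < d := by exact_mod_cast hd
  have hzi : (d : ℝ) • x₀ ∈ interior (CE y c) :=
    Pool.Agent.N165.KM.interior_smul_mem st.bact.act.pc.smul hd' hx₀i
  have hpos : ∀ ℓ : W, 0 < b.repr ((d : ℝ) • x₀) ℓ := fun ℓ => st.interior_iff.1 hzi ℓ
  obtain ⟨hE1, hE2⟩ := Pool.Agent.N40.CC.leafEFF K N ρ y hy c hc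
  refine ⟨B, hB, ⟨fun x hx hxC hpt => ?_, ?_, ?_, ?_, ?_, hnef.symm⟩⟩
  · rw [hnef] at hxC ⊢
    have h1 : x ∈ interior (CE y c) := by
      rw [st.interior_iff]
      intro ℓ
      obtain ⟨i, hi⟩ := st.blk.ex ℓ.1 ℓ.2
      rcases hrat x hx hxC i with h2 | h2
      · exact absurd (st.pr_eq_zero_iff.2 h2) (hpt i)
      · exact h2 ℓ hi
    exact ⟨h1, hint h1⟩
  · rw [hnef]
    exact hsame
  · rw [hnef]
    exact fun x e hx he hxC heC hpt heE => st.face hE1 (fun x hx z hz => coneOf_add hx hz)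
      (fun t ht x hx => coneOf_smul hx ht) hGE heE hxC
      (st.same (hrat x hx hxC) (hrat e he heC) hpt)
  · rw [hnef]
    intro x e hx he hxC heC hpt
    refine st.dom hxC fun ℓ hℓ => ?_
    obtain ⟨i, hi⟩ := st.blk.ex ℓ.1 ℓ.2
    rcases hrat x hx hxC i with h2 | h2
    · exact st.pr_eq_zero_iff.1 (hpt i (st.pr_eq_zero_iff.2 h2)) ℓ hi
    · exact absurd hℓ (h2 ℓ hi).ne'
  · refine ⟨fun i => (D : ℝ) • pr B β i ((d : ℝ) • x₀), fun i => ⟨?_, ?_, ?_, ?_⟩⟩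
    · have h2 := hDi i ((d : ℝ) • x₀) fun j => ⟨z j, congrFun hz j⟩
      choose w hw using h2
      refine ⟨fun j => (w j : ℚ), ?_⟩
      funext j
      show ((D : ℝ) • pr B β i ((d : ℝ) • x₀)) j = _
      rw [hw j]
      simp [toR]
    · intro h2
      obtain ⟨ℓ, hℓ⟩ := st.A_ne i
      have h3 : pr B β i ((d : ℝ) • x₀) = 0 := by
        rcases smul_eq_zero.1 h2 with h4 | h4
        · exact absurd h4 hD'.ne'
        · exact h4
      exact (hpos ℓ).ne' (st.pr_eq_zero_iff.1 h3 ℓ hℓ)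
    · rw [map_smul, pr_pr, if_pos rfl]
    · rw [hnef]
      exact st.bact.act.pc.smul _ hD'.le _ (st.Bl_sub (st.pr_Bl fun ℓ _ => hpos ℓ))

/-- classes invariant under the group are zero -/
theorem inv_zero (hy : NormalModel y) (hn : Algebra.trdeg ℂ K = n) (hn0 : 0 < n) (hr : 0 < r)
    (hc : PicardBasis y c) (h𝒮 : ∀ φ ∈ 𝒮, PseudoAut φ y) {φ : (Fin r → ℤ) → (K ≃ₐ[ℂ] K)}
    (hφ : ∀ u v, φ (u + v) = φ u * φ v) (hφ𝒮 : ∀ v, φ v ∈ 𝒮)
    (hent : ∀ v, v ≠ 0 → 1 < dynDegree (φ v) y n 1)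
    {u : Fin ρ → Fin ρ → ℤ} (hu : LinearIndependent ℝ (fun j i => (u j i : ℝ)))
    {β : Fin ρ → Fin k} (hβ : ∀ i, ∃ j j', j ≠ j' ∧ β j = i ∧ β j' = i) (hρ : ρ = r + k)
    (hbl : ∀ v, PreservesBlocks y c u β (φ v)) {x : Fin ρ → ℝ}
    (hx : ∀ v, ∀ T : (Fin ρ → ℝ) ≃ₗ[ℝ] (Fin ρ → ℝ), IsPullBack y c (φ v) T → T x = x) : x = 0 := by
  classical
  obtain ⟨G, B, W, A, b, hB, st, hG, hGE⟩ := setup hy hn hn0 hr hc h𝒮 hφ hφ𝒮 hent hu hβ hρ hbl
  have h1 : ∀ ℓ : W, b.repr x ℓ = 0 := by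
    intro ℓ
    obtain ⟨i, hi⟩ := st.blk.ex ℓ.1 ℓ.2
    obtain ⟨v, hv⟩ : ∃ v, ev ℓ.1 v ≠ 0 := by
      by_contra hcon
      push Not at hcon
      obtain ⟨w, hw⟩ := st.blk.neg hi
      have h2 := st.blk.two i
      have h3 := st.blk.key.1 i
      obtain ⟨ℓ', hℓ', hne⟩ : ∃ ℓ' ∈ A i, ℓ' ≠ ℓ.1 := by
        have h4 : 1 < (A i).card := by omega
        obtain ⟨a, ha, a', ha', hne⟩ := Finset.one_lt_card.1 h4
        by_cases h5 : a = ℓ.1
        · exact ⟨a', ha', fun h6 => hne (h5.trans h6.symm)⟩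
        · exact ⟨a, ha, h5⟩
      obtain ⟨w', hw'⟩ := st.blk.neg hℓ'
      have h5 := hw' ℓ.1 hi (Ne.symm hne)
      rw [hcon w'] at h5
      exact lt_irrefl _ h5
    obtain ⟨T, hT, hGT⟩ := hG v
    have h2 := st.repr_G v x ℓ
    rw [hGT, hx v T hT] at h2
    by_contra h0
    apply hv
    have h3 : Real.exp (ev ℓ.1 v) = 1 := by
      have h4 : (Real.exp (ev ℓ.1 v) - 1) * b.repr x ℓ = 0 := by linarith
      have h5 := (mul_eq_zero.1 h4).resolve_right h0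
      linarith
    exact Real.exp_eq_one_iff _ |>.1 h3
  rw [← b.sum_repr x]
  exact Finset.sum_eq_zero fun ℓ _ => by rw [h1, zero_smul]

end

end Run7.h528.MB
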