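import Pool.Agent.Run7.h528.MB.Sa
import Pool.Agent.N110.CC.K

/-!
# Semiampleness for abelian groups of rank `ρ - k` with `k` invariant blocks of `N¹(X)`: results
-/

set_option autoImplicit false
set_option linter.unusedSectionVars false

open FF Pool.Agent.W602.GT Pool.Agent.Y172 Pool.Agent.R887
open Pool.Agent.N110 Pool.Agent.N110.PA Pool.Agent.N110.NV Pool.Agent.N492.PA Pool.Agent.N110.CC

namespace Run7.h528.MB

section

variable {K : Type} [Field K] [Algebra ℂ K] {N n r k ρ : ℕ} {y : Fin (N + 1) → K}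
  {c : Place ℂ K → Fin ρ → ℤ}

theorem support_iff {B : Module.Basis (Fin ρ) ℝ (Fin ρ → ℝ)} {u : Fin ρ → Fin ρ → ℤ}
    (hB : ∀ j, B j = fun i => (u j i : ℝ)) {β : Fin ρ → Fin k} {x : Fin ρ → ℝ}
    {s : Finset (Fin k)} : IsBlockSupport u β x s ↔ ∀ i, i ∈ s ↔ pr B β i x ≠ 0 := by
  classical
  have hcomb : ∀ a : Fin ρ → ℝ, comb u a = ∑ l, a l • B l := by
    intro a
    unfold comb
    exact Finset.sum_congr rfl fun l _ => by rw [hB]
  have key : ∀ i, pr B β i x ≠ 0 ↔ ∃ l, β l = i ∧ B.repr x l ≠ 0 := by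
    intro i
    constructor
    · intro h1
      by_contra hcon
      push Not at hcon
      apply h1
      apply B.repr.injective
      ext l
      rw [repr_pr, map_zero, Finsupp.zero_apply]
      by_cases hl : β l = i
      · rw [if_pos hl, hcon l hl]
      · rw [if_neg hl]
    · rintro ⟨l, hl, h1⟩ h2
      apply h1
      have h3 := repr_pr (B := B) (β := β) i x l
      rw [h2, map_zero, Finsupp.zero_apply, if_pos hl] at h3
      exact h3.symm
  constructor
  · rintro ⟨a, hx, hs⟩ i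
    rw [hs, key]
    have h1 : ∀ l, B.repr x l = a l := fun l => by rw [hx, hcomb, B.repr_sum_self]
    simp only [h1]
  · intro hs
    refine ⟨fun l => B.repr x l, ?_, fun i => ?_⟩
    · rw [hcomb, B.sum_repr]
    · rw [hs, key]

theorem IsRat.sum {ι : Type*} (s : Finset ι) {e : ι → Fin ρ → ℝ} (h : ∀ i, IsRat (e i)) :
    IsRat (∑ i ∈ s, e i) := by
  choose q hq using h
  refine ⟨∑ i ∈ s, q i, ?_⟩
  rw [toR_sum]
  exact Finset.sum_congr rfl fun i _ => hq i

theorem core (hy : NormalModel y) (hn : Algebra.trdeg ℂ K = n) (hn0 : 0 < n) (hr : 0 < r)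
    (hc : PicardBasis y c) {φ : (Fin r → ℤ) → (K ≃ₐ[ℂ] K)}
    (hφ : ∀ u v, φ (u + v) = φ u * φ v) (haut : ∀ v, IsAut (φ v) y)
    (hent : ∀ v, v ≠ 0 → 1 < dynDegree (φ v) y n 1)
    {u : Fin ρ → Fin ρ → ℤ} (hu : LinearIndependent ℝ (fun j i => (u j i : ℝ)))
    {β : Fin ρ → Fin k} (hβ : ∀ i, ∃ j j', j ≠ j' ∧ β j = i ∧ β j' = i) (hρ : ρ = r + k)
    (hbl : ∀ v, PreservesBlocks y c u β (φ v)) :
    ∃ e : Fin k → Place ℂ K → ℤ,
      (∀ i, IsDiv y (e i) ∧ divClass y c (e i) ∈ nefCone y n c ∧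
        IsBlockSupport u β (divClass y c (e i)) {i}) ∧
      ∀ x, IsRat x → x ∈ nefCone y n c → ∃ s, IsBlockSupport u β x s ∧
        (∃ t : ℕ, 1 ≤ t ∧ (t : ℝ) • x - ∑ i ∈ s, divClass y c (e i) ∈ nefCone y n c ∧
          (t : ℝ) • ∑ i ∈ s, divClass y c (e i) - x ∈ nefCone y n c) ∧
        (SemiampleClass y n c x ↔ SemiampleClass y n c (∑ i ∈ s, divClass y c (e i))) ∧
        ((∀ i ∈ s, SemiampleClass y n c (divClass y c (e i))) → SemiampleClass y n c x) ∧
        (s = Finset.univ → x ∈ interior (nefCone y n c) ∧ SemiampleClass y n c x) ∧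
        (x ∈ effCone y c ↔ ∑ i ∈ s, divClass y c (e i) ∈ effCone y c) := by
  classical
  obtain ⟨B, hB, h⟩ := blocks_sa hy hn hn0 hr hc hφ haut hent hu hβ hρ hbl
  obtain ⟨e', he'⟩ := h.gen
  choose d e hd heD hecl using fun i => (he' i).1.exists_divisor hc
  have hadd : ∀ x ∈ nefCone y n c, ∀ z ∈ nefCone y n c, x + z ∈ nefCone y n c :=
    fun x hx z hz => closure_coneOf_add hx hz
  have hsm : ∀ t : ℝ, 0 ≤ t → ∀ x ∈ nefCone y n c, t • x ∈ nefCone y n c :=
    fun t ht x hx => closure_coneOf_smul hx ht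
  have h0 : (0 : Fin ρ → ℝ) ∈ nefCone y n c := subset_closure (coneOf_zero _)
  obtain ⟨E, hE⟩ : ∃ E : Fin k → Fin ρ → ℝ, E = fun i => divClass y c (e i) := ⟨_, rfl⟩
  have hEi : ∀ i, divClass y c (e i) = E i := fun i => by rw [hE]
  have hE1 : ∀ i, E i = (d i : ℝ) • e' i := fun i => by rw [hE]; exact hecl i
  have hdR : ∀ i, (0 : ℝ) < d i := fun i => by exact_mod_cast hd i
  have hEr : ∀ i, IsRat (E i) := fun i => by
    rw [hE]
    exact isRat_divClass (heD i)
  have hE0 : ∀ i, E i ≠ 0 := fun i hi => by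
    rw [hE1] at hi
    rcases smul_eq_zero.1 hi with h1 | h1
    · exact (hdR i).ne' h1
    · exact (he' i).2.1 h1
  have hEp : ∀ i, pr B β i (E i) = E i := fun i => by rw [hE1, map_smul, (he' i).2.2.1]
  have hEn : ∀ i, E i ∈ nefCone y n c := fun i => by
    rw [hE1]
    exact hsm _ (hdR i).le _ (he' i).2.2.2
  have hpre : ∀ (s : Finset (Fin k)) i, pr B β i (∑ j ∈ s, E j) = if i ∈ s then E i else 0 := by
    intro s i
    rw [map_sum]
    have h2 : ∀ j ∈ s, pr B β i (E j) = if i = j then E i else 0 := by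
      intro j _
      rw [← hEp j, pr_pr]
      by_cases hij : i = j
      · subst hij
        rw [if_pos rfl, if_pos rfl, hEp]
      · rw [if_neg hij, if_neg hij]
    rw [Finset.sum_congr rfl h2, Finset.sum_ite_eq]
  have hsn : ∀ s : Finset (Fin k), ∑ j ∈ s, E j ∈ nefCone y n c := fun s =>
    Finset.sum_induction _ (· ∈ nefCone y n c) (fun a b ha hb => hadd a ha b hb) h0 fun i _ => hEn i
  refine ⟨e, fun i => ⟨heD i, ?_, ?_⟩, ?_⟩
  · rw [hEi]
    exact hEn i
  · rw [hEi, support_iff hB]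
    intro j
    rw [Finset.mem_singleton]
    constructor
    · rintro rfl
      rw [hEp]
      exact hE0 j
    · intro h1
      by_contra h2
      apply h1
      rw [← hEp i, pr_pr, if_neg h2]
  · simp only [hEi]
    intro x hx hxn
    obtain ⟨s, hs⟩ : ∃ s : Finset (Fin k), s = Finset.univ.filter fun i => pr B β i x ≠ 0 :=
      ⟨_, rfl⟩
    have hms : ∀ i, i ∈ s ↔ pr B β i x ≠ 0 := fun i => by rw [hs]; simp
    have hpt : ∀ i, pr B β i x = 0 ↔ pr B β i (∑ j ∈ s, E j) = 0 := by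
      intro i
      rw [hpre]
      by_cases hi : i ∈ s
      · rw [if_pos hi]
        exact ⟨fun h2 => absurd h2 ((hms i).1 hi), fun h2 => absurd h2 (hE0 i)⟩
      · rw [if_neg hi]
        refine ⟨fun _ => rfl, fun _ => ?_⟩
        by_contra h2
        exact hi ((hms i).2 h2)
    have hsr : IsRat (∑ j ∈ s, E j) := IsRat.sum s hEr
    have hiff : SemiampleClass y n c x ↔ SemiampleClass y n c (∑ i ∈ s, E i) :=
      ⟨fun h1 => sa_of_cone hy hc hsr (h.same _ _ hsr hx (hsn s) hxn (fun i => (hpt i).symm)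
        (cone_of_sa h1)),
      fun h1 => sa_of_cone hy hc hx (h.same _ _ hx hsr hxn (hsn s) hpt (cone_of_sa h1))⟩
    refine ⟨s, (support_iff hB).2 hms, ?_, hiff, fun h1 => hiff.2 ?_, fun h1 => ?_,
      ⟨fun h1 => h.sameE _ _ hsr hx (hsn s) hxn (fun i => (hpt i).symm) h1,
      fun h1 => h.sameE _ _ hx hsr hxn (hsn s) hpt h1⟩⟩
    · obtain ⟨t, ht, h1⟩ := h.dom x (∑ j ∈ s, E j) hx hsr hxn (hsn s) fun i => (hpt i).1
      obtain ⟨t', ht', h2⟩ := h.dom (∑ j ∈ s, E j) x hsr hx (hsn s) hxn fun i => (hpt i).2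
      refine ⟨t + t', by omega, ?_, ?_⟩
      · have e1 : ((t + t' : ℕ) : ℝ) • x - ∑ j ∈ s, E j = ((t : ℝ) • x - ∑ j ∈ s, E j) +
            (t' : ℝ) • x := by
          push_cast
          rw [add_smul]
          abel
        rw [e1]
        exact hadd _ h1 _ (hsm _ (Nat.cast_nonneg _) _ hxn)
      · have e1 : ((t + t' : ℕ) : ℝ) • ∑ j ∈ s, E j - x = ((t' : ℝ) • ∑ j ∈ s, E j - x) +
            (t : ℝ) • ∑ j ∈ s, E j := by
          push_cast
          rw [add_smul]
          abel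
        rw [e1]
        exact hadd _ h2 _ (hsm _ (Nat.cast_nonneg _) _ (hsn s))
    · refine sa_of_cone hy hc hsr ?_
      exact Finset.sum_induction _ (· ∈ freeCone y n c) (fun a b ha hb => coneOf_add ha hb)
        (coneOf_zero _) fun i hi => cone_of_sa (h1 i hi)
    · have h2 := h.amp x hx hxn fun i => (hms i).1 (by rw [h1]; exact Finset.mem_univ i)
      exact ⟨h2.1, sa_of_cone hy hc hx h2.2⟩

/-- the canonical class is zero -/
theorem can_zeroB (hy : NormalModel y) (hn : Algebra.trdeg ℂ K = n) (hn0 : 0 < n) (hr : 0 < r)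
    (hc : PicardBasis y c) {φ : (Fin r → ℤ) → (K ≃ₐ[ℂ] K)}
    (hφ : ∀ u v, φ (u + v) = φ u * φ v) (hps : ∀ v, PseudoAut (φ v) y)
    (hent : ∀ v, v ≠ 0 → 1 < dynDegree (φ v) y n 1)
    {u : Fin ρ → Fin ρ → ℤ} (hu : LinearIndependent ℝ (fun j i => (u j i : ℝ)))
    {β : Fin ρ → Fin k} (hβ : ∀ i, ∃ j j', j ≠ j' ∧ β j = i ∧ β j' = i) (hρ : ρ = r + k)
    (hbl : ∀ v, PreservesBlocks y c u β (φ v)) {x : Fin n → K}
    {E : Fin n → Derivation ℂ K K} {κ : Place ℂ K → ℤ} (h : Can y x E κ) :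
    divClass y c κ = 0 :=
  inv_zero hy hn hn0 hr hc (𝒮 := psGroup y) (fun _ h => h) hφ hps hent hu hβ hρ hbl
    fun v _ hT => can_inv hy hc h (hps v) hT

/-- semiample divisors and semiample classes on varieties of irregularity zero -/
theorem semiample_iff (hy : NormalModel y) (hc : PicardBasis y c) (hq : IrregularityZero y)
    {L : Place ℂ K → ℤ} (hL : IsDiv y L) :
    IsSemiample y n L ↔ SemiampleClass y n c (divClass y c L) := by
  constructor
  · rintro ⟨m, hm, hD⟩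
    refine ⟨m, hm, _, hD, ?_⟩
    have h1 : (fun P => (((m : ℤ) * L P : ℤ) : ℚ)) = fun P => (m : ℚ) * (L P : ℚ) := by
      funext P
      push_cast
      rfl
    rw [divClass_div (free_isDiv hD), divClass_div hL, h1, cls_smul, toR_smul]
    push_cast
    rfl
  · rintro ⟨m, hm, D, hD, h1⟩
    have h0 : cls y (cQ c) (fun P => (m : ℚ) * (L P : ℚ) - (D P : ℚ)) = 0 := by
      rw [cls_sub ((fin0_div hL).smul (m : ℚ)) (fin0_div (free_isDiv hD)), cls_smul]
      apply toR_inj
      rw [toR_sub, toR_smul, ← divClass_div hL, ← divClass_div (free_isDiv hD), h1]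
      push_cast
      rw [sub_self]
      funext i
      simp [toR]
    have hf : Fin0 y (fun P => (m : ℚ) * (L P : ℚ) - (D P : ℚ)) :=
      ((fin0_div hL).smul (m : ℚ)).sub (fin0_div (free_isDiv hD))
    have h2 := psef_of_zero hc.numClasses hf h0
    have h3 := psef_of_zero hc.numClasses (fin_neg hf) (by rw [cls_neg, h0, neg_zero])
    obtain ⟨t, ht, f, hf0, hf1⟩ := torsion hy hq hf h2 h3
    refine ⟨t * m, Nat.one_le_iff_ne_zero.2 (by positivity), ?_⟩
    refine free_princ (free_nsmul hy hD t) hf0 ?_ fun P hP => ?_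
    · refine hL.subset ?_
      rintro P ⟨hP, h4⟩
      exact ⟨hP, fun h5 => h4 (by
        show (((t * m : ℕ) : ℤ)) * L P = 0
        rw [h5, mul_zero])⟩
    · have h4 := hf1 P hP
      have h5 : ((((t * m : ℕ) : ℤ) * L P : ℤ) : ℚ) = (((t : ℤ) * D P + P.ord f : ℤ) : ℚ) := by
        push_cast
        rw [h4]
        ring
      exact_mod_cast h5

theorem divClass_sum {ι : Type*} (s : Finset ι) {e : ι → Place ℂ K → ℤ}
    (he : ∀ i, IsDiv y (e i)) : IsDiv y (fun P => ∑ i ∈ s, e i P) ∧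
      divClass y c (fun P => ∑ i ∈ s, e i P) = ∑ i ∈ s, divClass y c (e i) := by
  classical
  have h1 : IsDiv y (fun P => ∑ i ∈ s, e i P) := by
    refine (Set.Finite.biUnion s.finite_toSet fun i _ => he i).subset ?_
    rintro P ⟨hP, h0⟩
    rw [Set.mem_iUnion₂]
    by_contra hcon
    push Not at hcon
    apply h0
    refine Finset.sum_eq_zero fun i hi => ?_
    by_contra h2
    exact hcon i hi ⟨hP, h2⟩
  refine ⟨h1, ?_⟩
  have h2 : (fun P => ((∑ i ∈ s, e i P : ℤ) : ℚ)) = fun P => ∑ i ∈ s, (e i P : ℚ) := by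
    funext P
    push_cast
    rfl
  rw [divClass_div h1, h2, cls_sum s fun i _ => fin0_div (he i), toR_sum]
  exact Finset.sum_congr rfl fun i _ => (divClass_div (he i)).symm

end

end Run7.h528.MB
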