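import Pool.Agent.Run7.h528.MB.Blk
import Pool.Agent.N362.CC.COV

/-!
# Abelian groups of rank `m - k` acting on a cone in `ℝ ^ m` with `k` rational blocks: structure

The cone is simplicial; every integral vector of the cone has block components which are zero or in
the relative interior of the face of the block; finitely many integral vectors generate a cone whose
translates cover the cone generated by the rational vectors.
-/

set_option autoImplicit false

namespace Run7.h528.MB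

open Pool.Agent.Y167 (cone cone_image cone_ind zero_mem_cone mem_cone_self cone_add cone_smul
  cone_mono)
open Pool.Agent.N110.CC (PC S_PF S_CE S_IND S_COV Frm ev ev_add ev_zero ev_neg ev_nsmul)
open Pool.Agent.N165.KM (exists_pos_functional interior_sub interior_smul_mem)
open Filter Topology

variable {r k m : ℕ} {C : Set (Fin m → ℝ)}
  {G : (Fin r → ℤ) → ((Fin m → ℝ) →ₗ[ℝ] (Fin m → ℝ))}
  {B : Module.Basis (Fin m) ℝ (Fin m → ℝ)} {β : Fin m → Fin k}

/-- the basis of eigenvectors -/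
structure StrB (C : Set (Fin m → ℝ)) (G : (Fin r → ℤ) → ((Fin m → ℝ) →ₗ[ℝ] (Fin m → ℝ)))
    (B : Module.Basis (Fin m) ℝ (Fin m → ℝ)) (β : Fin m → Fin k) (W : Finset (Frm r))
    (A : Fin k → Finset (Frm r)) (b : Module.Basis W ℝ (Fin m → ℝ)) : Prop where
  bact : BAct r k m C G B β
  blk : Blk W A fun i => Fintype.card {j // β j = i}
  mem : ∀ ℓ : W, b ℓ ∈ C
  eig : ∀ v (ℓ : W), G v (b ℓ) = Real.exp (ev ℓ.1 v) • b ℓ
  proj : ∀ i (ℓ : W), ℓ.1 ∈ A i → pr B β i (b ℓ) = b ℓ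
  projn : ∀ i (ℓ : W), ℓ.1 ∉ A i → pr B β i (b ℓ) = 0

theorem exists_strB (hPF : S_PF) (hCE : S_CE) (hIND : S_IND) (h : BAct r k m C G B β) :
    ∃ (W : Finset (Frm r)) (A : Fin k → Finset (Frm r)) (b : Module.Basis W ℝ (Fin m → ℝ)),
      StrB C G B β W A b := by
  classical
  obtain ⟨c, δ, hc, hδ, hg⟩ := h.act.growth
  choose L X hXC hX0 hX hL using fun v => h.act.weight hPF hCE hc hδ hg v
  -- the vectors
  obtain ⟨e, he⟩ : ∃ e : Frm r → (Fin m → ℝ), ∀ ℓ ∈ Set.range L, e ℓ ∈ C ∧ e ℓ ≠ 0 ∧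
      ∀ w, G w (e ℓ) = Real.exp (ev ℓ w) • e ℓ := by
    refine ⟨fun ℓ => if hℓ : ∃ v, L v = ℓ then X hℓ.choose else 0, ?_⟩
    rintro ℓ ⟨v, rfl⟩
    have hex : ∃ v', L v' = L v := ⟨v, rfl⟩
    simp only [dif_pos hex]
    have h1 := hex.choose_spec
    refine ⟨hXC _, hX0 _, fun w => ?_⟩
    have h2 := hX hex.choose w
    rwa [h1] at h2
  have hlin : ∀ T : Finset (Frm r), (T : Set (Frm r)) ⊆ Set.range L →
      LinearIndependent ℝ (fun ℓ : T => e ℓ) := fun T hT =>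
    hIND r m G T e (fun ℓ hℓ => (he ℓ (hT hℓ)).2.1) fun ℓ hℓ v => (he ℓ (hT hℓ)).2.2 v
  have hcard : ∀ T : Finset (Frm r), (T : Set (Frm r)) ⊆ Set.range L → T.card ≤ m := by
    intro T hT
    have h1 := (hlin T hT).fintype_card_le_finrank
    rwa [Fintype.card_coe, Module.finrank_fin_fun] at h1
  have hfin : (Set.range L).Finite := by
    by_contra hinf
    obtain ⟨T, hT1, hT2⟩ := Set.Infinite.exists_subset_card_eq hinf (m + 1)
    have := hcard T hT1
    omega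
  obtain ⟨W, hW⟩ : ∃ W : Finset (Frm r), W = hfin.toFinset := ⟨_, rfl⟩
  have hWr : (W : Set (Frm r)) = Set.range L := by rw [hW, hfin.coe_toFinset]
  have hmemW : ∀ v, L v ∈ W := fun v => by
    rw [← Finset.mem_coe, hWr]
    exact ⟨v, rfl⟩
  have heW : ∀ ℓ ∈ W, e ℓ ∈ C ∧ e ℓ ≠ 0 ∧ ∀ w, G w (e ℓ) = Real.exp (ev ℓ w) • e ℓ :=
    fun ℓ hℓ => he ℓ (hWr.le hℓ)
  -- the blocks
  obtain ⟨A, hA⟩ : ∃ A : Fin k → Finset (Frm r), ∀ i, A i = W.filter fun ℓ =>
    pr B β i (e ℓ) ≠ 0 := ⟨_, fun _ => rfl⟩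
  have hdet : ∀ i, (A i).card ≤ Fintype.card {j // β j = i} ∧
      ((A i).card = Fintype.card {j // β j = i} → ∑ ℓ ∈ A i, ℓ = 0) := by
    intro i
    refine h.det_one (e := fun ℓ => pr B β i (e ℓ)) (fun ℓ _ => ?_) (fun ℓ hℓ v => ?_) ?_
    · rw [pr_pr, if_pos rfl]
    · rw [hA] at hℓ
      rw [← h.pr_G, (heW ℓ (Finset.mem_filter.1 hℓ).1).2.2, map_smul]
    · refine hIND r m G (A i) (fun ℓ => pr B β i (e ℓ)) (fun ℓ hℓ => ?_) fun ℓ hℓ v => ?_
      · rw [hA] at hℓ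
        exact (Finset.mem_filter.1 hℓ).2
      · rw [hA] at hℓ
        rw [← h.pr_G]
        show pr B β i (G v (e ℓ)) = Real.exp (ev ℓ v) • _
        rw [(heW ℓ (Finset.mem_filter.1 hℓ).1).2.2, map_smul]
  have hblk : Blk W A fun i => Fintype.card {j // β j = i} := by
    refine ⟨fun i => ?_, fun ℓ hℓ => ?_, fun i => (hdet i).1, fun i => ?_, fun i => (hdet i).2,
      ?_, δ, hδ, fun v => ⟨L v, hmemW v, hL v⟩⟩
    · rw [hA]
      exact Finset.filter_subset _ _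
    · by_contra hcon
      push Not at hcon
      apply (heW ℓ hℓ).2.1
      rw [← sum_pr (B := B) (β := β) (e ℓ)]
      refine Finset.sum_eq_zero fun i _ => ?_
      by_contra h2
      refine hcon i ?_
      rw [hA]
      exact Finset.mem_filter.2 ⟨hℓ, h2⟩
    · obtain ⟨j, j', hne, h1, h2⟩ := h.two i
      rw [Nat.succ_le_iff, Fintype.one_lt_card_iff]
      exact ⟨⟨j, h1⟩, ⟨j', h2⟩, fun h3 => hne (congrArg Subtype.val h3)⟩
    · have h1 := Fintype.card_congr (Equiv.sigmaFiberEquiv β)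
      rw [Fintype.card_sigma, Fintype.card_fin] at h1
      rw [h1, h.dim]
  have hcW : W.card = m := by rw [hblk.card_W, h.dim]
  have hne : Nonempty W := ⟨⟨L 0, hmemW 0⟩⟩
  have hcd : Fintype.card W = Module.finrank ℝ (Fin m → ℝ) := by
    rw [Fintype.card_coe, Module.finrank_fin_fun, hcW]
  obtain ⟨b, hb⟩ : ∃ b : Module.Basis W ℝ (Fin m → ℝ), ∀ ℓ : W, b ℓ = e ℓ.1 :=
    ⟨basisOfLinearIndependentOfCardEqFinrank (hlin W hWr.le) hcd, fun ℓ => by
      rw [coe_basisOfLinearIndependentOfCardEqFinrank]⟩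
  have hproj : ∀ i (ℓ : W), ℓ.1 ∉ A i → pr B β i (b ℓ) = 0 := by
    intro i ℓ hℓ
    rw [hA, Finset.mem_filter, not_and, not_not] at hℓ
    rw [hb]
    exact hℓ ℓ.2
  refine ⟨W, A, b, h, hblk, fun ℓ => ?_, fun v ℓ => ?_, fun i ℓ hi => ?_, hproj⟩
  · rw [hb]
    exact (heW ℓ.1 ℓ.2).1
  · rw [hb]
    exact (heW ℓ.1 ℓ.2).2.2 v
  · have h1 := sum_pr (B := B) (β := β) (b ℓ)
    rw [Finset.sum_eq_single i] at h1
    · exact h1
    · intro j _ hj
      exact hproj j ℓ fun h2 => hj (hblk.disj h2 hi)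
    · intro h2
      exact absurd (Finset.mem_univ _) h2

namespace StrB

variable {W : Finset (Frm r)} {A : Fin k → Finset (Frm r)} {b : Module.Basis W ℝ (Fin m → ℝ)}

theorem repr_G (h : StrB C G B β W A b) (v : Fin r → ℤ) (x : Fin m → ℝ) (ℓ : W) :
    b.repr (G v x) ℓ = Real.exp (ev ℓ.1 v) * b.repr x ℓ := by
  classical
  have h1 : b.coord ℓ ∘ₗ G v = Real.exp (ev ℓ.1 v) • b.coord ℓ := by
    refine b.ext fun j => ?_
    rw [LinearMap.comp_apply, h.eig, map_smul, LinearMap.smul_apply, b.coord_apply, b.repr_self]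
    by_cases hj : ℓ = j
    · rw [hj]
    · rw [Finsupp.single_eq_of_ne hj, smul_zero, smul_zero]
  exact LinearMap.congr_fun h1 x

theorem repr_proj (h : StrB C G B β W A b) {i : Fin k} (x : Fin m → ℝ) {ℓ : W} (hl : ℓ.1 ∈ A i) :
    b.repr (pr B β i x) ℓ = b.repr x ℓ := by
  classical
  have h1 : b.coord ℓ ∘ₗ pr B β i = b.coord ℓ := by
    refine b.ext fun j => ?_
    rw [LinearMap.comp_apply]
    by_cases hj : j.1 ∈ A i
    · rw [h.proj i j hj]
    · rw [h.projn i j hj, map_zero, b.coord_apply, b.repr_self, Finsupp.single_eq_of_ne]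
      rintro rfl
      exact hj hl
  exact LinearMap.congr_fun h1 x

theorem repr_projn (h : StrB C G B β W A b) {i : Fin k} (x : Fin m → ℝ) {ℓ : W} (hl : ℓ.1 ∉ A i) :
    b.repr (pr B β i x) ℓ = 0 := by
  classical
  have h1 : b.coord ℓ ∘ₗ pr B β i = 0 := by
    refine b.ext fun j => ?_
    rw [LinearMap.comp_apply, LinearMap.zero_apply]
    by_cases hj : j.1 ∈ A i
    · rw [h.proj i j hj, b.coord_apply, b.repr_self, Finsupp.single_eq_of_ne]
      rintro rfl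
      exact hl hj
    · rw [h.projn i j hj, map_zero]
  exact LinearMap.congr_fun h1 x

/-- the limits in the directions of the eigenvectors -/
theorem limit (h : StrB C G B β W A b) {D : Set (Fin m → ℝ)} (hcl : IsClosed D)
    (hsmul : ∀ t : ℝ, 0 ≤ t → ∀ x ∈ D, t • x ∈ D) (hpres : ∀ v, ∀ x ∈ D, G v x ∈ D)
    {x : Fin m → ℝ} (hx : x ∈ D) (ℓ : W) : b.repr x ℓ • b ℓ ∈ D := by
  classical
  obtain ⟨v, hvk⟩ := h.blk.dir ℓ.2
  have hlim : Tendsto (fun k : ℕ => Real.exp (-(k * ev ℓ.1 v)) • G (k • v) x) atTop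
      (𝓝 (∑ j, (if j = ℓ then b.repr x ℓ else 0) • b j)) := by
    have h1 : (fun k : ℕ => Real.exp (-(k * ev ℓ.1 v)) • G (k • v) x) = fun k : ℕ =>
        ∑ j, (Real.exp (-(k * ev ℓ.1 v)) * (Real.exp (k * ev j.1 v) * b.repr x j)) • b j := by
      funext k
      have h2 : G (k • v) x = ∑ j, (Real.exp (k * ev j.1 v) * b.repr x j) • b j := by
        conv_lhs => rw [← b.sum_repr (G (k • v) x)]
        refine Finset.sum_congr rfl fun j _ => ?_
        rw [h.repr_G, ev_nsmul]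
      rw [h2, Finset.smul_sum]
      refine Finset.sum_congr rfl fun j _ => ?_
      rw [smul_smul]
    rw [h1]
    refine tendsto_finsetSum _ fun j _ => ?_
    refine Tendsto.smul_const ?_ _
    by_cases hj : j = ℓ
    · subst hj
      rw [if_pos rfl]
      refine Tendsto.congr (fun k => ?_) tendsto_const_nhds
      rw [← mul_assoc, ← Real.exp_add, neg_add_cancel, Real.exp_zero, one_mul]
    · rw [if_neg hj]
      have h3 : (fun k : ℕ => Real.exp (-(k * ev ℓ.1 v)) * (Real.exp (k * ev j.1 v) *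
          b.repr x j)) = fun k : ℕ => Real.exp (ev j.1 v - ev ℓ.1 v) ^ k * b.repr x j := by
        funext k
        rw [← mul_assoc, ← Real.exp_add, ← Real.exp_nat_mul]
        congr 2
        ring
      rw [h3]
      have h4 : Real.exp (ev j.1 v - ev ℓ.1 v) < 1 := by
        rw [Real.exp_lt_one_iff]
        have := hvk j.1 j.2 fun h5 => hj (Subtype.ext h5)
        linarith
      have h5 := (tendsto_pow_atTop_nhds_zero_of_lt_one (Real.exp_pos _).le h4).mul_const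
        (b.repr x j)
      rwa [zero_mul] at h5
  have h6 : ∑ j, (if j = ℓ then b.repr x ℓ else 0) • b j = b.repr x ℓ • b ℓ := by
    rw [Finset.sum_eq_single ℓ]
    · rw [if_pos rfl]
    · intro j _ hj
      rw [if_neg hj, zero_smul]
    · intro hcon
      exact absurd (Finset.mem_univ _) hcon
  rw [h6] at hlim
  exact hcl.mem_of_tendsto hlim (Eventually.of_forall fun k =>
    hsmul _ (Real.exp_pos _).le _ (hpres _ _ hx))

theorem repr_nonneg (h : StrB C G B β W A b) {x : Fin m → ℝ} (hx : x ∈ C) (ℓ : W) :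
    0 ≤ b.repr x ℓ := by
  by_contra hcon
  push Not at hcon
  have h1 := h.limit h.bact.act.pc.closed h.bact.act.pc.smul h.bact.act.pres hx ℓ
  have h2 := h.bact.act.pc.smul (-(b.repr x ℓ))⁻¹ (inv_nonneg.2 (by linarith)) _ h1
  rw [smul_smul] at h2
  have h4 : (-(b.repr x ℓ))⁻¹ * b.repr x ℓ = -1 := by
    rw [inv_neg, neg_mul, inv_mul_cancel₀ hcon.ne]
  rw [h4, neg_one_smul] at h2
  exact b.ne_zero ℓ (h.bact.act.pc.pointed _ (h.mem ℓ) h2)

theorem zero_mem (h : StrB C G B β W A b) : (0 : Fin m → ℝ) ∈ C := by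
  obtain ⟨x, hx⟩ := h.bact.act.int
  have := h.bact.act.pc.smul 0 le_rfl _ (interior_subset hx)
  rwa [zero_smul] at this

/-- vectors with nonnegative coordinates -/
theorem mem_of_nonneg (b : Module.Basis W ℝ (Fin m → ℝ)) {D : Set (Fin m → ℝ)}
    (h0 : (0 : Fin m → ℝ) ∈ D)
    (hadd : ∀ x ∈ D, ∀ y ∈ D, x + y ∈ D) (hsmul : ∀ t : ℝ, 0 ≤ t → ∀ x ∈ D, t • x ∈ D)
    {x : Fin m → ℝ} (hx : ∀ ℓ, 0 ≤ b.repr x ℓ) (hb : ∀ ℓ : W, b.repr x ℓ ≠ 0 → b ℓ ∈ D) :
    x ∈ D := by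
  classical
  rw [← b.sum_repr x]
  refine Finset.sum_induction _ (· ∈ D) (fun a b ha hb => hadd a ha b hb) h0 ?_
  intro j _
  by_cases hj : b.repr x j = 0
  · rw [hj, zero_smul]
    exact h0
  · exact hsmul _ (hx j) _ (hb j hj)

theorem mem_iff (h : StrB C G B β W A b) {x : Fin m → ℝ} : x ∈ C ↔ ∀ ℓ, 0 ≤ b.repr x ℓ :=
  ⟨fun hx ℓ => h.repr_nonneg hx ℓ, fun hx => mem_of_nonneg b h.zero_mem h.bact.act.pc.add
    h.bact.act.pc.smul hx fun ℓ _ => h.mem ℓ⟩

theorem continuous_repr (b : Module.Basis W ℝ (Fin m → ℝ)) (ℓ : W) :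
    Continuous fun x => b.repr x ℓ := by
  have h1 : (fun x => b.repr x ℓ) = fun x => b.coord ℓ x := by
    funext x
    rfl
  rw [h1]
  exact LinearMap.continuous_of_finiteDimensional _

theorem interior_iff (h : StrB C G B β W A b) {x : Fin m → ℝ} :
    x ∈ interior C ↔ ∀ ℓ, 0 < b.repr x ℓ := by
  classical
  constructor
  · intro hx ℓ
    obtain ⟨t, ht, hx'⟩ := interior_sub hx (b ℓ)
    have h1 := h.repr_nonneg (interior_subset hx') ℓ
    rw [map_sub, map_smul, Finsupp.sub_apply, Finsupp.smul_apply, b.repr_self,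
      Finsupp.single_eq_same, smul_eq_mul, mul_one] at h1
    linarith
  · intro hx
    have hopen : IsOpen {x : Fin m → ℝ | ∀ ℓ : W, 0 < b.repr x ℓ} := by
      have : {x : Fin m → ℝ | ∀ ℓ : W, 0 < b.repr x ℓ} =
          ⋂ ℓ : W, {x | 0 < b.repr x ℓ} := by
        ext x
        simp
      rw [this]
      exact isOpen_iInter_of_finite fun ℓ => isOpen_lt continuous_const (continuous_repr b ℓ)
    refine interior_maximal ?_ hopen hx
    intro z hz
    exact h.mem_iff.2 fun ℓ => (hz ℓ).le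

/-- **Rigidity.** -/
theorem rigid (h : StrB C G B β W A b) {D : Set (Fin m → ℝ)} (hcl : IsClosed D)
    (hadd : ∀ x ∈ D, ∀ y ∈ D, x + y ∈ D) (hsmul : ∀ t : ℝ, 0 ≤ t → ∀ x ∈ D, t • x ∈ D)
    (hpres : ∀ v, ∀ x ∈ D, G v x ∈ D) {x : Fin m → ℝ} (hx : x ∈ D) (hxC : x ∈ interior C) :
    C ⊆ D := by
  intro z hz
  have hb : ∀ ℓ : W, b ℓ ∈ D := by
    intro ℓ
    have h1 := h.limit hcl hsmul hpres hx ℓ
    have h2 := h.interior_iff.1 hxC ℓ
    have h3 := hsmul (b.repr x ℓ)⁻¹ (inv_pos.2 h2).le _ h1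
    rwa [smul_smul, inv_mul_cancel₀ h2.ne', one_smul] at h3
  have h0 := hsmul 0 le_rfl _ hx
  rw [zero_smul] at h0
  exact mem_of_nonneg b h0 hadd hsmul (h.mem_iff.1 hz) fun ℓ _ => hb ℓ

/-- the vectors of the cone whose block components are zero or in the relative interior -/
def Bl (W : Finset (Frm r)) (A : Fin k → Finset (Frm r)) (b : Module.Basis W ℝ (Fin m → ℝ)) :
    Set (Fin m → ℝ) :=
  {x | ∀ i, (∀ ℓ : W, ℓ.1 ∈ A i → b.repr x ℓ = 0) ∨ ∀ ℓ : W, ℓ.1 ∈ A i → 0 < b.repr x ℓ}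

theorem Bl_nonneg (h : StrB C G B β W A b) {x : Fin m → ℝ} (hx : x ∈ Bl W A b) (ℓ : W) :
    0 ≤ b.repr x ℓ := by
  obtain ⟨i, hi⟩ := h.blk.ex ℓ.1 ℓ.2
  rcases hx i with h1 | h1
  · rw [h1 ℓ hi]
  · exact (h1 ℓ hi).le

theorem Bl_sub (h : StrB C G B β W A b) : Bl W A b ⊆ C := fun _ hx =>
  h.mem_iff.2 fun ℓ => h.Bl_nonneg hx ℓ

theorem int_sub_Bl (h : StrB C G B β W A b) : interior C ⊆ Bl W A b := fun _ hx _ =>
  Or.inr fun ℓ _ => h.interior_iff.1 hx ℓ

theorem Bl_add {x z : Fin m → ℝ} (hx : x ∈ Bl W A b) (hz : z ∈ Bl W A b) : x + z ∈ Bl W A b := by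
  intro i
  rcases hx i with h1 | h1
  · rcases hz i with h2 | h2
    · refine Or.inl fun ℓ hℓ => ?_
      rw [map_add, Finsupp.add_apply, h1 ℓ hℓ, h2 ℓ hℓ, add_zero]
    · refine Or.inr fun ℓ hℓ => ?_
      rw [map_add, Finsupp.add_apply, h1 ℓ hℓ, zero_add]
      exact h2 ℓ hℓ
  · rcases hz i with h2 | h2
    · refine Or.inr fun ℓ hℓ => ?_
      rw [map_add, Finsupp.add_apply, h2 ℓ hℓ, add_zero]
      exact h1 ℓ hℓ
    · refine Or.inr fun ℓ hℓ => ?_
      rw [map_add, Finsupp.add_apply]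
      exact add_pos (h1 ℓ hℓ) (h2 ℓ hℓ)

theorem Bl_smul {x : Fin m → ℝ} {t : ℝ} (ht : 0 ≤ t) (hx : x ∈ Bl W A b) : t • x ∈ Bl W A b := by
  intro i
  rcases ht.eq_or_lt with h0 | h0
  · refine Or.inl fun ℓ _ => ?_
    rw [← h0, zero_smul, map_zero, Finsupp.zero_apply]
  · rcases hx i with h1 | h1
    · refine Or.inl fun ℓ hℓ => ?_
      rw [map_smul, Finsupp.smul_apply, h1 ℓ hℓ, smul_zero]
    · refine Or.inr fun ℓ hℓ => ?_
      rw [map_smul, Finsupp.smul_apply, smul_eq_mul]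
      exact mul_pos h0 (h1 ℓ hℓ)

theorem pr_eq_zero_iff (h : StrB C G B β W A b) {i : Fin k} {x : Fin m → ℝ} :
    pr B β i x = 0 ↔ ∀ ℓ : W, ℓ.1 ∈ A i → b.repr x ℓ = 0 := by
  constructor
  · intro h1 ℓ hℓ
    have h2 := h.repr_proj x hℓ
    rw [h1, map_zero, Finsupp.zero_apply] at h2
    exact h2.symm
  · intro h1
    have h2 : b.repr (pr B β i x) = 0 := by
      ext ℓ
      rw [Finsupp.zero_apply]
      by_cases h3 : ℓ.1 ∈ A i
      · rw [h.repr_proj x h3]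
        exact h1 ℓ h3
      · exact h.repr_projn x h3
    exact b.repr.map_eq_zero_iff.1 h2

/-- integral vectors have block components which are zero or in the relative interior -/
theorem integral (h : StrB C G B β W A b) {D : ℕ} (hD : 0 < D)
    (hDi : ∀ i (x : Fin m → ℝ), (∀ j, ∃ n : ℤ, x j = n) → ∀ j, ∃ n : ℤ,
      ((D : ℝ) • pr B β i x) j = n)
    {x : Fin m → ℝ} (hx : x ∈ C) (hxi : ∀ i, ∃ n : ℤ, x i = n) : x ∈ Bl W A b := by
  classical
  intro i
  by_contra hcon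
  push Not at hcon
  obtain ⟨⟨ℓ₁, hℓ₁, hne⟩, ℓ₀, hℓ₀, hle⟩ := hcon
  have h00 : b.repr x ℓ₀ = 0 := le_antisymm hle (h.repr_nonneg hx ℓ₀)
  obtain ⟨v, hv⟩ := h.blk.neg hℓ₀
  obtain ⟨z, hz⟩ : ∃ z, z = (D : ℝ) • pr B β i x := ⟨_, rfl⟩
  have hzi : ∀ j, ∃ n : ℤ, z j = n := by
    rw [hz]
    exact hDi i x hxi
  have hzr : ∀ ℓ : W, ℓ.1 ∈ A i → b.repr z ℓ = D * b.repr x ℓ := by
    intro ℓ hℓ
    rw [hz, map_smul, Finsupp.smul_apply, h.repr_proj x hℓ, smul_eq_mul]
  have hzn : ∀ ℓ : W, ℓ.1 ∉ A i → b.repr z ℓ = 0 := by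
    intro ℓ hℓ
    rw [hz, map_smul, Finsupp.smul_apply, h.repr_projn x hℓ, smul_zero]
  have hlim : Tendsto (fun k : ℕ => G (k • v) z) atTop (𝓝 (∑ j : W, (0 : ℝ) • b j)) := by
    have h1 : (fun k : ℕ => G (k • v) z) = fun k : ℕ =>
        ∑ j, (Real.exp (k * ev j.1 v) * b.repr z j) • b j := by
      funext k
      conv_lhs => rw [← b.sum_repr (G (k • v) z)]
      refine Finset.sum_congr rfl fun j _ => ?_
      rw [h.repr_G, ev_nsmul]
    rw [h1]
    refine tendsto_finsetSum _ fun j _ => ?_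
    refine Tendsto.smul_const ?_ _
    by_cases hj : b.repr z j = 0
    · rw [hj]
      simp
    · have hjA : j.1 ∈ A i := by
        by_contra h2
        exact hj (hzn j h2)
      have hj0 : j.1 ≠ ℓ₀.1 := by
        intro h2
        apply hj
        rw [hzr j hjA, Subtype.ext h2, h00, mul_zero]
      have h2 : ev j.1 v < 0 := hv j.1 hjA hj0
      have h3 : (fun k : ℕ => Real.exp (k * ev j.1 v) * b.repr z j) =
          fun k : ℕ => Real.exp (ev j.1 v) ^ k * b.repr z j := by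
        funext k
        rw [← Real.exp_nat_mul]
      rw [h3]
      have h4 : Real.exp (ev j.1 v) < 1 := Real.exp_lt_one_iff.2 h2
      have h5 := (tendsto_pow_atTop_nhds_zero_of_lt_one (Real.exp_pos _).le h4).mul_const
        (b.repr z j)
      rwa [zero_mul] at h5
  simp only [zero_smul, Finset.sum_const_zero] at hlim
  have h6 : ∀ᶠ k : ℕ in atTop, ‖G (k • v) z‖ < 1 := by
    have h7 := hlim.norm
    rw [norm_zero] at h7
    exact h7.eventually_lt_const one_pos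
  obtain ⟨n, hn⟩ := h6.exists
  have h8 : G (n • v) z = 0 := by
    funext i
    obtain ⟨m', hm'⟩ := h.bact.gint (n • v) z hzi i
    have h9 := (norm_le_pi_norm (G (n • v) z) i).trans_lt hn
    rw [hm', Real.norm_eq_abs] at h9
    have h10 : |m'| < 1 := by exact_mod_cast h9
    rw [Int.abs_lt_one_iff] at h10
    rw [hm', h10]
    simp
  have hz0 : z = 0 := by
    have h9 := h.bact.act.inv_apply (n • v) z
    rw [h8, map_zero] at h9
    exact h9.symm
  have h10 := hzr ℓ₁ hℓ₁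
  rw [hz0, map_zero, Finsupp.zero_apply] at h10
  have hD' : (D : ℝ) ≠ 0 := by positivity
  exact hne ((mul_eq_zero.1 h10.symm).resolve_left hD')

end StrB

end Run7.h528.MB
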