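import Pool.Agent.Run7.h528.MB.Geo
import Pool.Agent.N110.CC.HDefs

/-!
# Abelian groups of rank `m - k` with `k` invariant blocks: movable and nef cones
-/

set_option autoImplicit false
set_option linter.unusedSectionVars false

open FF Pool.Agent.W602.GT Pool.Agent.Y172 Pool.Agent.R887
open Pool.Agent.N110 Pool.Agent.N110.PA Pool.Agent.N110.NV Pool.Agent.N492.PA Pool.Agent.N110.CC

namespace Run7.h528.MB

section

variable {K : Type} [Field K] [Algebra ℂ K] {N n r k m ρ : ℕ} {y : Fin (N + 1) → K}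
  {c : Place ℂ K → Fin ρ → ℤ} {𝒮 : Subgroup (K ≃ₐ[ℂ] K)}

theorem ce_eq (hy : NormalModel y) (hc : PicardBasis y c) : CE y c = closure (effCone y c) := by
  obtain ⟨hE1, hE2⟩ := Pool.Agent.N40.CC.leafEFF K N ρ y hy c hc
  exact Set.Subset.antisymm (closure_mono Pool.Agent.N40.CC.eff_sub)
    (closure_minimal hE1 isClosed_closure)

theorem exists_primeM (hρ : 0 < ρ) (hc : PicardBasis y c) : ∃ P, IsPrimeDivisor y P := by
  by_contra hcon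
  push Not at hcon
  have h1 := hc.generate (fun _ => 1)
  have h2 : {z | ∃ P, IsPrimeDivisor y P ∧ z = c P} = (∅ : Set (Fin ρ → ℤ)) := by
    ext z
    constructor
    · rintro ⟨P, hP, -⟩
      exact absurd hP (hcon P)
    · intro h
      exact absurd h (Set.notMem_empty z)
  rw [h2, AddSubgroup.closure_empty, AddSubgroup.mem_bot] at h1
  exact one_ne_zero (congrFun h1 ⟨0, hρ⟩)

theorem mov_sub (hy : NormalModel y) (hn : Algebra.trdeg ℂ K = n) (hn0 : 0 < n) (hρ : 0 < ρ)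
    (hc : PicardBasis y c) : movCone y c ⊆ CE y c := by
  have hpc := pc_eff hc.numClasses
  have hps := Pool.Agent.N681.CC.leafPSEF K N n ρ y hy hn hn0 c hc.numClasses
    (exists_primeM hρ hc)
  obtain ⟨P, hP⟩ := exists_primeM hρ hc
  obtain ⟨hE1, hE2⟩ := Pool.Agent.N40.CC.leafEFF K N ρ y hy c hc
  refine closure_minimal (fun x hx => ?_) isClosed_closure
  refine coneOf_ind (p := fun x => x ∈ CE y c) ?_ (fun x z hx hz => hpc.add x hx z hz)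
    (fun t x ht hx => hpc.smul t ht x hx) ?_ hx
  · exact hE1 (coneOf_zero _)
  · rintro _ ⟨D', hD', rfl⟩
    exact (hps D').2 hD'

theorem nef_sub (hy : NormalModel y) (hn : Algebra.trdeg ℂ K = n) (hn0 : 0 < n) (hρ : 0 < ρ)
    (hc : PicardBasis y c) : nefCone y n c ⊆ CE y c := by
  have hpc := pc_eff hc.numClasses
  have hps := Pool.Agent.N681.CC.leafPSEF K N n ρ y hy hn hn0 c hc.numClasses
    (exists_primeM hρ hc)
  obtain ⟨hE1, hE2⟩ := Pool.Agent.N40.CC.leafEFF K N ρ y hy c hc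
  refine closure_minimal (fun x hx => ?_) isClosed_closure
  refine coneOf_ind (p := fun x => x ∈ CE y c) ?_ (fun x z hx hz => hpc.add x hx z hz)
    (fun t x ht hx => hpc.smul t ht x hx) ?_ hx
  · exact hE1 (coneOf_zero _)
  · rintro _ ⟨D', hD', rfl⟩
    exact (hps D').2 ((hps D').1 hD')

/-- the conclusions about the cone `D` (the movable cone or the nef cone) in the subspace with the
basis `s` -/
structure Concl (y : Fin (N + 1) → K) (c : Place ℂ K → Fin ρ → ℤ) (𝒮 : Subgroup (K ≃ₐ[ℂ] K))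
    (s u : Fin m → Fin ρ → ℤ) (β : Fin m → Fin k) (D : Set (Fin ρ → ℝ)) : Prop where
  eq : ∀ t, comb s t ∈ D ↔ comb s t ∈ closure (effCone y c)
  desc : ∃ b : Fin m → Fin m → ℝ, LinearIndependent ℝ b ∧
    (∀ j, ∃ a : Fin m → ℝ, (∀ l, β l ≠ β j → a l = 0) ∧ comb s (b j) = comb u a) ∧
    (∀ t, comb s t ∈ D ↔ ∃ a : Fin m → ℝ, (∀ j, 0 ≤ a j) ∧ t = ∑ j, a j • b j) ∧
    ∀ t, t ∈ ratHull {t | comb s t ∈ D} ↔ ∃ a : Fin m → ℝ, (∀ j, 0 ≤ a j) ∧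
      (∀ j j', β j = β j' → a j = 0 → a j' = 0) ∧ t = ∑ j, a j • b j
  fd : HasFundDomain {T | ∃ ψ ∈ 𝒮, IsPullBackOn y c s ψ T} (ratHull {t | comb s t ∈ D})
  sub : {t | comb s t ∈ D ∩ effCone y c} ⊆ ratHull {t | comb s t ∈ D}
  iff : (∀ i, ∃ a : Fin m → ℝ, a ≠ 0 ∧ (∀ l, β l ≠ i → a l = 0) ∧ comb u a ∈ effCone y c) ↔
    {t | comb s t ∈ D ∩ effCone y c} = ratHull {t | comb s t ∈ D}

theorem concl_of (hy : NormalModel y) (hn : Algebra.trdeg ℂ K = n) (hn0 : 0 < n) (hr : 0 < r)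
    (hc : PicardBasis y c) (h𝒮 : ∀ φ ∈ 𝒮, PseudoAut φ y) {φ : (Fin r → ℤ) → (K ≃ₐ[ℂ] K)}
    (hφ : ∀ u v, φ (u + v) = φ u * φ v) (hφ𝒮 : ∀ v, φ v ∈ 𝒮)
    (hent : ∀ v, v ≠ 0 → 1 < dynDegree (φ v) y n 1)
    {s : Fin m → Fin ρ → ℤ} (hli : LinearIndependent ℝ (fun j i => (s j i : ℝ)))
    (hst : ∀ ψ ∈ 𝒮, PreservesSpan y c s ψ)
    {u : Fin m → Fin ρ → ℤ} (hu : LinearIndependent ℝ (fun j i => (u j i : ℝ)))
    (hus : ∀ j, ∃ a : Fin m → ℤ, (fun i => (u j i : ℝ)) = comb s (fun l => (a l : ℝ)))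
    {β : Fin m → Fin k} (hβ : ∀ i, ∃ j j', j ≠ j' ∧ β j = i ∧ β j' = i) (hm : m = r + k)
    (hbl : ∀ v, PreservesBlocks y c u β (φ v)) {t₀ : Fin m → ℝ}
    (ht₀ : comb s t₀ ∈ interior (effCone y c)) {D : Set (Fin ρ → ℝ)} (hcl : IsClosed D)
    (hadd : ∀ x ∈ D, ∀ z ∈ D, x + z ∈ D) (hsm : ∀ t : ℝ, 0 ≤ t → ∀ x ∈ D, t • x ∈ D)
    (hpr : ∀ ψ ∈ 𝒮, ∀ T, IsPullBack y c ψ T → ∀ x ∈ D, T x ∈ D) (ht₀' : comb s t₀ ∈ D)
    (hDC : D ⊆ CE y c) : Concl y c 𝒮 s u β D := by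
  obtain ⟨hE1, hE2⟩ := Pool.Agent.N40.CC.leafEFF K N ρ y hy c hc
  obtain ⟨h1, h2, h3, h4, h5⟩ := mainB hy hn hn0 hr hc h𝒮 hφ hφ𝒮 hent hli hst hu hus hβ hm hbl
    (interior_mono hE1 ht₀)
  have key : ∀ t, comb s t ∈ D ↔ comb s t ∈ CE y c := fun t =>
    ⟨fun h => hDC h, fun h => h1 D hcl hadd hsm hpr ht₀' t h⟩
  have hset : {t | comb s t ∈ D} = {t | comb s t ∈ CE y c} := by
    ext t
    exact key t
  have hset2 : {t | comb s t ∈ D ∩ effCone y c} = {t | comb s t ∈ effCone y c} := by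
    ext t
    exact ⟨fun h => h.2, fun h => ⟨(key t).2 (hE1 h), h⟩⟩
  refine ⟨fun t => ?_, ?_, ?_, ?_, ?_⟩
  · rw [key, ce_eq hy hc]
  · rw [hset]
    obtain ⟨b, h6, h7, h8, h9⟩ := h2
    exact ⟨b, h6, h7, fun t => (key t).trans (h8 t), h9⟩
  · rw [hset]
    exact h3
  · rw [hset, hset2]
    exact h4
  · rw [hset, hset2]
    exact h5

theorem Concl.fde {s u : Fin m → Fin ρ → ℤ} {β : Fin m → Fin k} {D : Set (Fin ρ → ℝ)}
    (h : Concl y c 𝒮 s u β D)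
    (h' : ∀ i, ∃ a : Fin m → ℝ, a ≠ 0 ∧ (∀ l, β l ≠ i → a l = 0) ∧ comb u a ∈ effCone y c) :
    HasFundDomain {T | ∃ ψ ∈ 𝒮, IsPullBackOn y c s ψ T} {t | comb s t ∈ D ∩ effCone y c} := by
  rw [h.iff.1 h']
  exact h.fd

theorem rho_pos (hm0 : 0 < m) {s : Fin m → Fin ρ → ℤ}
    (hli : LinearIndependent ℝ (fun j i => (s j i : ℝ))) : 0 < ρ := by
  rcases Nat.eq_zero_or_pos ρ with h | h
  · exfalso
    subst h
    have h1 := hli.ne_zero (⟨0, hm0⟩ : Fin m)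
    exact h1 (funext fun i => i.elim0)
  · exact h

theorem pres_mov (hy : NormalModel y) (h𝒮 : ∀ φ ∈ 𝒮, PseudoAut φ y) :
    ∀ ψ ∈ 𝒮, ∀ T, IsPullBack y c ψ T → ∀ x ∈ movCone y c, T x ∈ movCone y c :=
  fun ψ hψ T hT x hx => closure_coneOf_map T.toLinearMap (by
    rintro _ ⟨D', hD', rfl⟩
    have h4 := Pool.Agent.N608.CC.leafMOV K N ρ y hy c ψ (h𝒮 ψ hψ) T hT D' hD'.1
    exact ⟨_, h4.2 hD', h4.1.symm⟩) hx

theorem pres_nef (hy : NormalModel y) (h𝒮 : ∀ φ ∈ 𝒮, IsAut φ y) :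
    ∀ ψ ∈ 𝒮, ∀ T, IsPullBack y c ψ T → ∀ x ∈ nefCone y n c, T x ∈ nefCone y n c := by
  have hfr := fun φ hφ => Pool.Agent.N265.CC.leafFREE K N n y hy φ (h𝒮 φ hφ)
  exact fun ψ hψ T hT x hx => closure_coneOf_map T.toLinearMap (by
    rintro _ ⟨D', hD', rfl⟩
    have h4 := Pool.Agent.N608.CC.leafMOV K N ρ y hy c ψ (hfr ψ hψ).1 T hT D' hD'.1
    exact ⟨_, (hfr ψ hψ).2 D' hD', h4.1.symm⟩) hx

theorem isAut_psM (hy : NormalModel y) {ψ : K ≃ₐ[ℂ] K} (h : IsAut ψ y) : PseudoAut ψ y :=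
  (Pool.Agent.N265.CC.leafFREE K N 0 y hy ψ h).1

/-- **The movable cone.** -/
theorem blocks_mov (hy : NormalModel y) (hn : Algebra.trdeg ℂ K = n) (hn0 : 0 < n) (hr : 0 < r)
    (hc : PicardBasis y c) (h𝒮 : ∀ φ ∈ 𝒮, PseudoAut φ y) {φ : (Fin r → ℤ) → (K ≃ₐ[ℂ] K)}
    (hφ : ∀ u v, φ (u + v) = φ u * φ v) (hφ𝒮 : ∀ v, φ v ∈ 𝒮)
    (hent : ∀ v, v ≠ 0 → 1 < dynDegree (φ v) y n 1)
    {s : Fin m → Fin ρ → ℤ} (hli : LinearIndependent ℝ (fun j i => (s j i : ℝ)))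
    (hst : ∀ ψ ∈ 𝒮, PreservesSpan y c s ψ)
    {u : Fin m → Fin ρ → ℤ} (hu : LinearIndependent ℝ (fun j i => (u j i : ℝ)))
    (hus : ∀ j, ∃ a : Fin m → ℤ, (fun i => (u j i : ℝ)) = comb s (fun l => (a l : ℝ)))
    {β : Fin m → Fin k} (hβ : ∀ i, ∃ j j', j ≠ j' ∧ β j = i ∧ β j' = i) (hm : m = r + k)
    (hbl : ∀ v, PreservesBlocks y c u β (φ v)) {t₀ : Fin m → ℝ}
    (ht₀ : comb s t₀ ∈ interior (effCone y c)) (ht₀' : comb s t₀ ∈ movCone y c) :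
    Concl y c 𝒮 s u β (movCone y c) :=
  concl_of hy hn hn0 hr hc h𝒮 hφ hφ𝒮 hent hli hst hu hus hβ hm hbl ht₀ isClosed_closure
    (fun x hx z hz => closure_coneOf_add hx hz) (fun t ht x hx => closure_coneOf_smul hx ht)
    (pres_mov hy h𝒮) ht₀' (mov_sub hy hn hn0 (rho_pos (by omega : 0 < m) hli) hc)

/-- **The nef cone.** -/
theorem blocks_nef (hy : NormalModel y) (hn : Algebra.trdeg ℂ K = n) (hn0 : 0 < n) (hr : 0 < r)
    (hc : PicardBasis y c) (h𝒮 : ∀ φ ∈ 𝒮, IsAut φ y) {φ : (Fin r → ℤ) → (K ≃ₐ[ℂ] K)}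
    (hφ : ∀ u v, φ (u + v) = φ u * φ v) (hφ𝒮 : ∀ v, φ v ∈ 𝒮)
    (hent : ∀ v, v ≠ 0 → 1 < dynDegree (φ v) y n 1)
    {s : Fin m → Fin ρ → ℤ} (hli : LinearIndependent ℝ (fun j i => (s j i : ℝ)))
    (hst : ∀ ψ ∈ 𝒮, PreservesSpan y c s ψ)
    {u : Fin m → Fin ρ → ℤ} (hu : LinearIndependent ℝ (fun j i => (u j i : ℝ)))
    (hus : ∀ j, ∃ a : Fin m → ℤ, (fun i => (u j i : ℝ)) = comb s (fun l => (a l : ℝ)))
    {β : Fin m → Fin k} (hβ : ∀ i, ∃ j j', j ≠ j' ∧ β j = i ∧ β j' = i) (hm : m = r + k)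
    (hbl : ∀ v, PreservesBlocks y c u β (φ v)) {t₀ : Fin m → ℝ}
    (ht₀ : comb s t₀ ∈ interior (effCone y c)) (ht₀' : comb s t₀ ∈ nefCone y n c) :
    Concl y c 𝒮 s u β (nefCone y n c) :=
  concl_of hy hn hn0 hr hc (fun ψ hψ => isAut_psM hy (h𝒮 ψ hψ)) hφ hφ𝒮 hent hli hst hu hus hβ hm
    hbl ht₀ isClosed_closure (fun x hx z hz => closure_coneOf_add hx hz)
    (fun t ht x hx => closure_coneOf_smul hx ht)
    (pres_nef hy h𝒮) ht₀' (nef_sub hy hn hn0 (rho_pos (by omega : 0 < m) hli) hc)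

end

end Run7.h528.MB
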